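import Pool.Agent.Helper79.GR.DB

/-!
# GR-DC: the passage time depends only on the edges near the starting point
-/

set_option autoImplicit false

namespace Pool.Agent.Helper79.GR

open Classical in
/-- the edges of the walks from `x` with at most `L` steps -/
noncomputable def box {d : ℕ} (x : V d) (L : ℕ) : Finset (Edge d) :=
  (List.finite_length_le (St d) L).toFinset.biUnion fun w => (eds x w).toFinset

theorem mem_box {d : ℕ} {x : V d} {L : ℕ} {e : Edge d} :
    e ∈ box x L ↔ ∃ w : List (St d), w.length ≤ L ∧ e ∈ eds x w := by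
  unfold box
  rw [Finset.mem_biUnion]
  constructor
  · rintro ⟨w, hw, he⟩
    rw [Set.Finite.mem_toFinset] at hw
    rw [List.mem_toFinset] at he
    exact ⟨w, hw, he⟩
  · rintro ⟨w, hw, he⟩
    refine ⟨w, ?_, ?_⟩
    · rw [Set.Finite.mem_toFinset]
      exact hw
    · rw [List.mem_toFinset]
      exact he

private theorem dc_cost_congr {d : ℕ} {c c' : Edge d → ℝ} (x : V d) (w : List (St d))
    (h : ∀ e ∈ eds x w, c e = c' e) : cost c x w = cost c' x w := by
  rw [cost_eq_sum, cost_eq_sum, List.map_congr_left h]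

private theorem dc_le {d : ℕ} {a b : ℝ} {c c' : Edge d → ℝ} (h : Bd a b c) (h' : Bd a b c')
    (x y : V d) (L : ℕ) (hL : b * n1 (y - x) ≤ a * L) (hc : ∀ e ∈ box x L, c e = c' e) :
    T c x y ≤ T c' x y := by
  obtain ⟨w, hw, hw'⟩ := exists_min h' x y
  have h1 : Geo c' x w := by
    rw [geo_iff h', hw, hw']
  have h2 := length_geo h' h1
  rw [hw] at h2
  have h3 : w.length ≤ L := by
    have h4 : a * (w.length : ℝ) ≤ a * (L : ℝ) := h2.trans hL
    have h5 : (w.length : ℝ) ≤ L := le_of_mul_le_mul_left h4 h.1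
    exact_mod_cast h5
  have h4 : cost c x w = cost c' x w :=
    dc_cost_congr x w fun e he => hc e (mem_box.2 ⟨w, h3, he⟩)
  calc T c x y ≤ cost c x w := T_le_cost h hw
    _ = T c' x y := by rw [h4, hw']

private theorem dc_ends {d : ℕ} (w : List (St d)) : ∀ (x : V d) (e : Edge d), e ∈ eds x w →
    ∀ z ∈ e.1, n1 (z - x) ≤ w.length := by
  induction w with
  | nil =>
    intro x e he
    exact absurd he (List.not_mem_nil)
  | cons s w ih =>
    intro x e he z hz
    have h0 : ((s :: w).length : ℝ) = w.length + 1 := by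
      rw [List.length_cons]
      push_cast
      ring
    have h0' : (0 : ℝ) ≤ w.length := Nat.cast_nonneg _
    rw [h0]
    have he' : e ∈ ed x s :: eds (x + sv s) w := he
    rw [List.mem_cons] at he'
    rcases he' with h1 | h1
    · rw [h1] at hz
      have hz' : z ∈ s(x, x + sv s) := hz
      rw [Sym2.mem_iff] at hz'
      rcases hz' with h2 | h2
      · rw [h2, sub_self, n1_zero]
        linarith
      · rw [h2, add_sub_cancel_left, n1_sv]
        linarith
    · have h2 := ih (x + sv s) e h1 z hz
      have h3 : z - x = (z - (x + sv s)) + sv s := by abel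
      have h4 := n1_add_le (z - (x + sv s)) (sv s)
      rw [h3]
      rw [n1_sv] at h4
      linarith

/-- Geodesics from `x` to `y` have at most `L` steps (`length_geo`, `exists_min`), so they only use
edges of `box x L`. -/
theorem T_congr {d : ℕ} {a b : ℝ} {c c' : Edge d → ℝ} (h : Bd a b c) (h' : Bd a b c')
    (x y : V d) (L : ℕ) (hL : b * n1 (y - x) ≤ a * L) (hc : ∀ e ∈ box x L, c e = c' e) :
    T c x y = T c' x y :=
  le_antisymm (dc_le h h' x y L hL hc) (dc_le h' h x y L hL fun e he => (hc e he).symm)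

/-- An edge of `box x L` has its ends at distance at most `L` from `x`. -/
theorem box_disjoint {d : ℕ} (x y : V d) (L : ℕ) (h : 2 * (L : ℝ) < n1 (y - x)) :
    Disjoint (box x L) (box y L) := by
  rw [Finset.disjoint_left]
  intro e he he'
  obtain ⟨w, hw, h1⟩ := mem_box.1 he
  obtain ⟨w', hw', h1'⟩ := mem_box.1 he'
  obtain ⟨z, z', hz, _⟩ := e.2
  have hz1 : z ∈ e.1 := by
    rw [hz]
    exact Sym2.mem_mk_left _ _
  have h2 := dc_ends w x e h1 z hz1
  have h3 := dc_ends w' y e h1' z hz1
  have h4 : y - x = (z - x) + (y - z) := by abel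
  have h5 := n1_add_le (z - x) (y - z)
  rw [n1_sub_comm y z] at h5
  rw [h4] at h
  have h6 : (w.length : ℝ) ≤ L := by exact_mod_cast hw
  have h7 : (w'.length : ℝ) ≤ L := by exact_mod_cast hw'
  linarith

end Pool.Agent.Helper79.GR
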