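import Pool.Agent.Helper79.GR.Defs

/-!
# GR-DA: walks, basic facts
-/

set_option autoImplicit false

namespace Pool.Agent.Helper79.GR

theorem pos_append {d : ℕ} (x : V d) (w w' : List (St d)) :
    pos x (w ++ w') = pos (pos x w) w' := by
  induction w generalizing x with
  | nil => rfl
  | cons s w ih => exact ih (x + sv s)

theorem cost_append {d : ℕ} (c : Edge d → ℝ) (x : V d) (w w' : List (St d)) :
    cost c x (w ++ w') = cost c x w + cost c (pos x w) w' := by
  induction w generalizing x with
  | nil => exact (zero_add _).symm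
  | cons s w ih =>
    change c (ed x s) + cost c (x + sv s) (w ++ w') =
      c (ed x s) + cost c (x + sv s) w + cost c (pos (x + sv s) w) w'
    rw [ih (x + sv s), add_assoc]

theorem eds_append {d : ℕ} (x : V d) (w w' : List (St d)) :
    eds x (w ++ w') = eds x w ++ eds (pos x w) w' := by
  induction w generalizing x with
  | nil => rfl
  | cons s w ih =>
    change ed x s :: eds (x + sv s) (w ++ w') =
      ed x s :: (eds (x + sv s) w ++ eds (pos (x + sv s) w) w')
    rw [ih (x + sv s)]

theorem cost_eq_sum {d : ℕ} (c : Edge d → ℝ) (x : V d) (w : List (St d)) :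
    cost c x w = ((eds x w).map c).sum := by
  induction w generalizing x with
  | nil => rfl
  | cons s w ih =>
    change c (ed x s) + cost c (x + sv s) w = ((ed x s :: eds (x + sv s) w).map c).sum
    rw [List.map_cons, List.sum_cons, ih (x + sv s)]

theorem length_eds {d : ℕ} (x : V d) (w : List (St d)) : (eds x w).length = w.length := by
  induction w generalizing x with
  | nil => rfl
  | cons s w ih =>
    change (ed x s :: eds (x + sv s) w).length = (s :: w).length
    rw [List.length_cons, List.length_cons, ih (x + sv s)]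

theorem n1_nonneg {d : ℕ} (x : V d) : 0 ≤ n1 x := Finset.sum_nonneg fun _ _ => abs_nonneg _

theorem n1_zero {d : ℕ} : n1 (0 : V d) = 0 := by
  simp [n1]

theorem n1_eq_zero {d : ℕ} {x : V d} : n1 x = 0 ↔ x = 0 := by
  constructor
  · intro h
    unfold n1 at h
    rw [Finset.sum_eq_zero_iff_of_nonneg fun _ _ => abs_nonneg _] at h
    funext i
    have h1 := h i (Finset.mem_univ i)
    rw [abs_eq_zero] at h1
    exact_mod_cast h1
  · rintro rfl
    exact n1_zero

theorem n1_add_le {d : ℕ} (x y : V d) : n1 (x + y) ≤ n1 x + n1 y := by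
  unfold n1
  rw [← Finset.sum_add_distrib]
  refine Finset.sum_le_sum fun i _ => ?_
  rw [Pi.add_apply, Int.cast_add]
  exact abs_add_le _ _

theorem n1_neg {d : ℕ} (x : V d) : n1 (-x) = n1 x := by
  unfold n1
  refine Finset.sum_congr rfl fun i _ => ?_
  rw [Pi.neg_apply, Int.cast_neg, abs_neg]

theorem n1_sub_comm {d : ℕ} (x y : V d) : n1 (x - y) = n1 (y - x) := by
  rw [← n1_neg, neg_sub]

theorem n1_nsmul {d : ℕ} (k : ℕ) (x : V d) : n1 (k • x) = k * n1 x := by
  unfold n1
  rw [Finset.mul_sum]
  refine Finset.sum_congr rfl fun i _ => ?_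
  rw [Pi.smul_apply, nsmul_eq_mul, Int.cast_mul, Int.cast_natCast, abs_mul, Nat.abs_cast]

theorem n1_sv {d : ℕ} (s : St d) : n1 (sv s) = 1 := by
  unfold n1
  rw [Finset.sum_eq_single s.1]
  · rcases s with ⟨i, _ | _⟩ <;> simp [sv]
  · intro j _ hj
    simp [sv, Pi.single_eq_of_ne hj]
  · intro h
    exact absurd (Finset.mem_univ _) h

/-- the norm is a natural number -/
theorem exists_nat_n1 {d : ℕ} (x : V d) : ∃ k : ℕ, n1 x = k := by
  refine ⟨∑ i, (x i).natAbs, ?_⟩
  unfold n1
  rw [Nat.cast_sum]
  refine Finset.sum_congr rfl fun i _ => ?_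
  rw [Nat.cast_natAbs, Int.cast_abs]

theorem n1_pos_sub_le {d : ℕ} (x : V d) (w : List (St d)) : n1 (pos x w - x) ≤ w.length := by
  induction w generalizing x with
  | nil =>
    change n1 (x - x) ≤ _
    rw [sub_self, n1_zero]
    exact Nat.cast_nonneg _
  | cons s w ih =>
    have e : pos x (s :: w) - x = (pos (x + sv s) w - (x + sv s)) + sv s := by
      change pos (x + sv s) w - x = _
      abel
    rw [e, List.length_cons, Nat.cast_add, Nat.cast_one]
    refine (n1_add_le _ _).trans ?_
    rw [n1_sv]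
    have := ih (x + sv s)
    linarith

private theorem da_step {d : ℕ} (z : V d) (hz : z ≠ 0) :
    ∃ s : St d, n1 (z - sv s) = n1 z - 1 := by
  obtain ⟨i, hi⟩ := Function.ne_iff.1 hz
  have hi' : z i ≠ 0 := hi
  have key : ∀ s : St d, s.1 = i → |((z i - (sv s) i : ℤ) : ℝ)| = |(z i : ℝ)| - 1 →
      n1 (z - sv s) = n1 z - 1 := by
    intro s hs h
    unfold n1
    rw [← Finset.add_sum_erase _ _ (Finset.mem_univ i),
      ← Finset.add_sum_erase Finset.univ (fun j => |(z j : ℝ)|) (Finset.mem_univ i),
      Pi.sub_apply, h]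
    have e : ∑ j ∈ Finset.univ.erase i, |(((z - sv s) j : ℤ) : ℝ)| =
        ∑ j ∈ Finset.univ.erase i, |(z j : ℝ)| := by
      refine Finset.sum_congr rfl fun j hj => ?_
      have hji : j ≠ s.1 := by
        rw [hs]
        exact Finset.ne_of_mem_erase hj
      rw [Pi.sub_apply]
      unfold sv
      rw [Pi.single_eq_of_ne hji, sub_zero]
    rw [e]
    ring
  rcases lt_or_gt_of_ne hi' with h | h
  · refine ⟨(i, false), key _ rfl ?_⟩
    have h1 : (z i : ℝ) ≤ -1 := by exact_mod_cast Int.le_sub_one_of_lt h
    have e : (sv ((i, false) : St d)) i = -1 := by simp [sv]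
    rw [e, Int.cast_sub, Int.cast_neg, Int.cast_one, abs_of_nonpos (by linarith),
      abs_of_nonpos (by linarith)]
    ring
  · refine ⟨(i, true), key _ rfl ?_⟩
    have h1 : (1 : ℝ) ≤ z i := by exact_mod_cast h
    have e : (sv ((i, true) : St d)) i = 1 := by simp [sv]
    rw [e, Int.cast_sub, Int.cast_one, abs_of_nonneg (by linarith),
      abs_of_nonneg (by linarith)]

/-- a shortest walk: induction on `n1 (y - x)`; if `x i ≠ y i` step towards `y` in the
coordinate `i` -/
theorem exists_walk {d : ℕ} (x y : V d) :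
    ∃ w : List (St d), pos x w = y ∧ (w.length : ℝ) = n1 (y - x) := by
  obtain ⟨k, hk⟩ := exists_nat_n1 (y - x)
  induction k generalizing x with
  | zero =>
    rw [Nat.cast_zero] at hk
    have h1 := sub_eq_zero.1 (n1_eq_zero.1 hk)
    refine ⟨[], h1.symm, ?_⟩
    rw [hk, List.length_nil, Nat.cast_zero]
  | succ k ih =>
    have h0 : y - x ≠ 0 := by
      intro h
      rw [n1_eq_zero.2 h] at hk
      push_cast at hk
      have : (0 : ℝ) ≤ k := Nat.cast_nonneg k
      linarith
    obtain ⟨s, hs⟩ := da_step (y - x) h0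
    have h1 : n1 (y - (x + sv s)) = k := by
      rw [← sub_sub, hs, hk]
      push_cast
      ring
    obtain ⟨w, hw, hl⟩ := ih (x + sv s) h1
    refine ⟨s :: w, hw, ?_⟩
    rw [List.length_cons, Nat.cast_add, Nat.cast_one, hl, h1, hk]
    push_cast
    ring

theorem le_cost {d : ℕ} {a b : ℝ} {c : Edge d → ℝ} (h : Bd a b c) (x : V d)
    (w : List (St d)) : a * w.length ≤ cost c x w := by
  induction w generalizing x with
  | nil =>
    change a * _ ≤ (0 : ℝ)
    simp
  | cons s w ih =>
    change a * _ ≤ c (ed x s) + cost c (x + sv s) w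
    rw [List.length_cons, Nat.cast_add, Nat.cast_one]
    have h1 := ih (x + sv s)
    have h2 := (h.2 (ed x s)).1
    linarith

theorem cost_le {d : ℕ} {a b : ℝ} {c : Edge d → ℝ} (h : Bd a b c) (x : V d)
    (w : List (St d)) : cost c x w ≤ b * w.length := by
  induction w generalizing x with
  | nil =>
    change (0 : ℝ) ≤ b * _
    simp
  | cons s w ih =>
    change c (ed x s) + cost c (x + sv s) w ≤ b * _
    rw [List.length_cons, Nat.cast_add, Nat.cast_one]
    have h1 := ih (x + sv s)
    have h2 := (h.2 (ed x s)).2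
    linarith

end Pool.Agent.Helper79.GR
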