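import Pool.Agent.Helper79.GR.Defs

/-!
# GR-DD: translations
-/

set_option autoImplicit false

namespace Pool.Agent.Helper79.GR

/-- translation of edges -/
def sh {d : ℕ} (v : V d) (e : Edge d) : Edge d :=
  ⟨e.1.map fun x => x + v, by
    obtain ⟨x, y, h, h1⟩ := e.2
    refine ⟨x + v, y + v, by rw [h, Sym2.map_mk], ?_⟩
    simpa using h1⟩

theorem sh_ed {d : ℕ} (v x : V d) (s : St d) : sh v (ed x s) = ed (x + v) s := by
  apply Subtype.ext
  show (s(x, x + sv s)).map (fun y => y + v) = s(x + v, x + v + sv s)
  rw [Sym2.map_mk, add_right_comm x v (sv s)]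

theorem sh_injective {d : ℕ} (v : V d) : Function.Injective (sh v) := by
  intro e e' h
  have h1 : e.1.map (fun y => y + v) = e'.1.map (fun y => y + v) := congrArg Subtype.val h
  exact Subtype.ext (Sym2.map.injective (add_left_injective v) h1)

theorem pos_add {d : ℕ} (v x : V d) (w : List (St d)) : pos (x + v) w = pos x w + v := by
  induction w generalizing x with
  | nil => rfl
  | cons s w ih =>
    show pos (x + v + sv s) w = pos (x + sv s) w + v
    rw [add_right_comm, ih]

theorem cost_shift {d : ℕ} (c : Edge d → ℝ) (v x : V d) (w : List (St d)) :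
    cost (fun e => c (sh v e)) x w = cost c (x + v) w := by
  induction w generalizing x with
  | nil => rfl
  | cons s w ih =>
    show c (sh v (ed x s)) + cost (fun e => c (sh v e)) (x + sv s) w =
      c (ed (x + v) s) + cost c (x + v + sv s) w
    rw [sh_ed, ih, add_right_comm x v (sv s)]

/-- the walks from `x` to `y` are the walks from `x + v` to `y + v` -/
theorem T_shift {d : ℕ} (c : Edge d → ℝ) (v x y : V d) :
    T (fun e => c (sh v e)) x y = T c (x + v) (y + v) := by
  unfold T
  have hm : ∀ w : List (St d), pos x w = y ↔ pos (x + v) w = y + v := by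
    intro w
    rw [pos_add, add_left_inj]
  refine Function.Surjective.iInf_congr
    (fun w : {w : List (St d) // pos x w = y} => ⟨w.1, (hm w.1).1 w.2⟩) ?_ ?_
  · rintro ⟨w, hw⟩
    exact ⟨⟨w, (hm w).2 hw⟩, rfl⟩
  · rintro ⟨w, hw⟩
    exact (cost_shift c v x w).symm

end Pool.Agent.Helper79.GR
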