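import Pool.Agent.Helper79.GR.DB

/-!
# GR-DE: pieces of geodesics, first exit from a ball
-/

set_option autoImplicit false

namespace Pool.Agent.Helper79.GR

/-- A beginning of a geodesic is a geodesic: replace it by a cheaper walk. -/
theorem Geo.take {d : ℕ} {c : Edge d → ℝ} {x : V d} {w : List (St d)} (h : Geo c x w) (n : ℕ) :
    Geo c x (w.take n) := by
  intro w' hw'
  have h1 : pos x (w' ++ w.drop n) = pos x w := by
    rw [pos_append, hw', ← pos_append, List.take_append_drop]
  have h2 := h _ h1
  have h3 : cost c x w = cost c x (w.take n) + cost c (pos x (w.take n)) (w.drop n) := by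
    rw [← cost_append, List.take_append_drop]
  rw [cost_append, hw', h3] at h2
  linarith

theorem Geo.split {d : ℕ} {a b : ℝ} {c : Edge d → ℝ} (hb : Bd a b c) {x : V d}
    {w : List (St d)} (h : Geo c x w) (n : ℕ) :
    T c x (pos x (w.take n)) + T c (pos x (w.take n)) (pos x w) = T c x (pos x w) := by
  have h1 := (geo_iff hb x w).1 h
  have h2 := (geo_iff hb x (w.take n)).1 (h.take n)
  have h3 : cost c x w = cost c x (w.take n) + cost c (pos x (w.take n)) (w.drop n) := by
    rw [← cost_append, List.take_append_drop]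
  have h4 : pos (pos x (w.take n)) (w.drop n) = pos x w := by
    rw [← pos_append, List.take_append_drop]
  have h5 := T_le_cost hb h4
  have h6 := T_triangle hb x (pos x (w.take n)) (pos x w)
  apply le_antisymm
  · rw [← h1, ← h2, h3]
    linarith
  · exact h6

/-- The norm changes by `1` in each step, it is `0` at the beginning and at least `r` at the end:
take the first time `k` at which it is at least `r`. -/
theorem exists_exit {d : ℕ} (r : ℕ) (w : List (St d)) (h : (r : ℝ) ≤ n1 (pos 0 w)) :
    ∃ k ≤ w.length, n1 (pos 0 (w.take k)) = r ∧ ∀ j < k, n1 (pos 0 (w.take j)) < r := by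
  classical
  have hex : ∃ k, (r : ℝ) ≤ n1 (pos 0 (w.take k)) := ⟨w.length, by rwa [List.take_length]⟩
  have hlt : ∀ j < Nat.find hex, n1 (pos 0 (w.take j)) < r := fun j hj =>
    not_le.1 (Nat.find_min hex hj)
  refine ⟨Nat.find hex, Nat.find_min' hex (by rwa [List.take_length]), ?_, hlt⟩
  have hge := Nat.find_spec hex
  rcases hk : Nat.find hex with _ | k
  · rw [hk] at hge
    rw [List.take_zero, pos, n1_zero] at hge ⊢
    exact le_antisymm (Nat.cast_nonneg r) hge
  · rw [hk] at hge
    have h1 := hlt k (by omega)
    have hkl : k < w.length := by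
      by_contra hcon
      rw [not_lt] at hcon
      rw [List.take_of_length_le hcon] at h1
      linarith
    have h2 : pos 0 (w.take (k + 1)) = pos 0 (w.take k) + sv w[k] := by
      rw [← List.take_append_getElem hkl, pos_append]
      rfl
    have h3 : n1 (pos 0 (w.take (k + 1))) ≤ n1 (pos 0 (w.take k)) + 1 := by
      rw [h2]
      exact (n1_add_le _ _).trans (by rw [n1_sv])
    obtain ⟨m, hm⟩ := exists_nat_n1 (pos 0 (w.take (k + 1)))
    obtain ⟨m', hm'⟩ := exists_nat_n1 (pos 0 (w.take k))
    rw [hm] at h3 hge ⊢
    rw [hm'] at h1 h3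
    have e1 : m' < r := by exact_mod_cast h1
    have e2 : m ≤ m' + 1 := by exact_mod_cast h3
    have e3 : r ≤ m := by exact_mod_cast hge
    have e4 : m = r := by omega
    rw [e4]

/-- Two walks with different first points at distance `r` (reached after at most `L` steps) differ
in the first `L` steps. -/
theorem take_ne {d : ℕ} {r L k k' : ℕ} {w w' : List (St d)} (hk : k ≤ L) (hk' : k' ≤ L)
    (h1 : n1 (pos 0 (w.take k)) = r) (h2 : ∀ j < k, n1 (pos 0 (w.take j)) < r)
    (h1' : n1 (pos 0 (w'.take k')) = r) (h2' : ∀ j < k', n1 (pos 0 (w'.take j)) < r)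
    (hne : pos 0 (w.take k) ≠ pos 0 (w'.take k')) : w.take L ≠ w'.take L := by
  intro he
  have h3 : ∀ j ≤ L, w.take j = w'.take j := by
    intro j hj
    have h4 : (w.take L).take j = (w'.take L).take j := by rw [he]
    rwa [List.take_take, List.take_take, min_eq_left hj] at h4
  rcases lt_trichotomy k k' with h | h | h
  · have h4 := h2' k h
    rw [← h3 k hk, h1] at h4
    exact lt_irrefl _ h4
  · subst h
    exact hne (by rw [h3 k hk])
  · have h4 := h2 k' h
    rw [h3 k' hk', h1'] at h4
    exact lt_irrefl _ h4

end Pool.Agent.Helper79.GR
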