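import Pool.Agent.Helper79.GR.NB

/-!
# GR-NC: homogeneity and lattice directions
-/

set_option autoImplicit false

namespace Pool.Agent.Helper79.GR

open Filter Topology

private theorem nc_m_zero {d : ℕ} {a b : ℝ} {m : V d → ℝ} (h : SubM a b m) : m 0 ≤ 0 := by
  have h1 := h.hi 0
  rwa [n1_zero, mul_zero] at h1

private theorem nc_nsmul_le {d : ℕ} {a b : ℝ} {m : V d → ℝ} (h : SubM a b m) (w : V d) (j : ℕ) :
    m (j • w) ≤ j * m w := by
  induction j with
  | zero =>
    rw [zero_smul, Nat.cast_zero, zero_mul]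
    exact nc_m_zero h
  | succ j ih =>
    rw [succ_nsmul]
    refine (h.add _ _).trans ?_
    push_cast
    linarith

private theorem nc_fl_rv {d : ℕ} (n : ℕ) (v : V d) : fl n (rv v) = n • v := by
  funext i
  simp only [fl, rv, Pi.smul_apply, nsmul_eq_mul]
  have h1 : (n : ℝ) * (v i : ℝ) = (((n : ℤ) * v i : ℤ) : ℝ) := by push_cast; ring
  rw [h1, Int.floor_intCast]

private theorem nc_fl_dist {d : ℕ} (t : ℝ) (ht : 0 ≤ t) (x : Fin d → ℝ) (n : ℕ) :
    n1 (fl n (t • x) - fl ⌊t * n⌋₊ x) ≤ ∑ i, (|x i| + 1) := by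
  unfold n1
  refine Finset.sum_le_sum fun i _ => ?_
  simp only [fl, Pi.sub_apply, Pi.smul_apply, smul_eq_mul]
  push_cast
  have h1 := Int.floor_le ((n : ℝ) * (t * x i))
  have h2 := Int.lt_floor_add_one ((n : ℝ) * (t * x i))
  have h3 := Int.floor_le ((⌊t * n⌋₊ : ℝ) * x i)
  have h4 := Int.lt_floor_add_one ((⌊t * n⌋₊ : ℝ) * x i)
  have h5 : (0 : ℝ) ≤ t * n := by positivity
  have h6 := Nat.floor_le h5
  have h7 := Nat.lt_floor_add_one (t * n)
  have h8 : |(n : ℝ) * (t * x i) - (⌊t * n⌋₊ : ℝ) * x i| ≤ |x i| := by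
    have h9 : (n : ℝ) * (t * x i) - (⌊t * n⌋₊ : ℝ) * x i = (t * n - ⌊t * n⌋₊) * x i := by ring
    rw [h9, abs_mul]
    have h10 : |t * n - ⌊t * n⌋₊| ≤ 1 := by
      rw [abs_le]
      constructor <;> linarith
    calc |t * n - ⌊t * n⌋₊| * |x i| ≤ 1 * |x i| := mul_le_mul_of_nonneg_right h10 (abs_nonneg _)
      _ = |x i| := one_mul _
  rw [abs_le] at h8 ⊢
  constructor <;> linarith [h8.1, h8.2]

/-- For `t > 0` put `k = ⌊n t⌋₊`: the norm of `fl n (t • x) - fl k x` is bounded by a constant (depending on `x`, `d`), so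
`m (fl n (t • x)) / n = (m (fl k x) / k) * (k / n) + O(1 / n)`, `k / n → t`, `k → ∞`.
For `t = 0`: `0 ≤ tc m 0 ≤ 0`. -/
theorem tc_smul {d : ℕ} {a b : ℝ} {m : V d → ℝ} (h : SubM a b m) (t : ℝ) (ht : 0 ≤ t)
    (x : Fin d → ℝ) : tc m (t • x) = t * tc m x := by
  rcases ht.eq_or_lt with ht0 | ht0
  · rw [← ht0, zero_smul, zero_mul]
    have h0 : nr (0 : Fin d → ℝ) = 0 := by simp [nr]
    have h1 := le_tc h 0
    have h2 := tc_le h 0
    rw [h0, mul_zero] at h1 h2
    exact le_antisymm h2 h1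
  · have hk : Tendsto (fun n : ℕ => ⌊t * n⌋₊) atTop atTop :=
      tendsto_nat_floor_atTop.comp (tendsto_natCast_atTop_atTop.const_mul_atTop ht0)
    have hkn : Tendsto (fun n : ℕ => (⌊t * n⌋₊ : ℝ) / n) atTop (𝓝 t) :=
      (tendsto_nat_floor_mul_div_atTop ht).comp tendsto_natCast_atTop_atTop
    have hB : Tendsto (fun n : ℕ => m (fl ⌊t * n⌋₊ x) / n) atTop (𝓝 (t * tc m x)) := by
      have h1 := ((tendsto_tc h x).comp hk).mul hkn
      rw [mul_comm (tc m x) t] at h1
      refine h1.congr' ?_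
      filter_upwards [hk.eventually_ge_atTop 1] with n hn
      have h2 : ((⌊t * n⌋₊ : ℕ) : ℝ) ≠ 0 := by
        have : (1 : ℝ) ≤ ((⌊t * n⌋₊ : ℕ) : ℝ) := by exact_mod_cast hn
        linarith
      simp only [Function.comp]
      field_simp
    have hA := tendsto_tc h (t • x)
    have hD : Tendsto (fun n : ℕ => m (fl n (t • x)) / n - m (fl ⌊t * n⌋₊ x) / n) atTop
        (𝓝 0) := by
      have h3 : Tendsto (fun n : ℕ => |b| * (∑ i, (|x i| + 1)) / (n : ℝ)) atTop (𝓝 0) :=
        tendsto_const_nhds.div_atTop tendsto_natCast_atTop_atTop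
      refine squeeze_zero_norm (fun n => ?_) h3
      rw [Real.norm_eq_abs, ← sub_div, abs_div, Nat.abs_cast]
      refine div_le_div_of_nonneg_right ?_ (Nat.cast_nonneg n)
      refine (h.lip _ _).trans ?_
      refine (mul_le_mul_of_nonneg_right (le_abs_self b) (n1_nonneg _)).trans ?_
      exact mul_le_mul_of_nonneg_left (nc_fl_dist t ht x n) (abs_nonneg b)
    have h4 := hA.sub hB
    have h5 := tendsto_nhds_unique h4 hD
    linarith

/-- `fl n (rv v) = n • v` -/
theorem tendsto_nsmul {d : ℕ} {a b : ℝ} {m : V d → ℝ} (h : SubM a b m) (v : V d) :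
    Tendsto (fun n : ℕ => m (n • v) / n) atTop (𝓝 (tc m (rv v))) := by
  have h1 := tendsto_tc h (rv v)
  simpa only [nc_fl_rv] using h1

/-- Along the multiples of `k`: `m ((j * k) • v) / (j * k) ≤ m (k • v) / k`. -/
theorem mul_tc_le {d : ℕ} {a b : ℝ} {m : V d → ℝ} (h : SubM a b m) (v : V d) (k : ℕ) :
    k * tc m (rv v) ≤ m (k • v) := by
  rcases Nat.eq_zero_or_pos k with hk | hk
  · rw [hk, Nat.cast_zero, zero_mul]
    exact h.nonneg _
  · have hk' : (0 : ℝ) < k := by exact_mod_cast hk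
    have hjk : Tendsto (fun j : ℕ => j * k) atTop atTop :=
      tendsto_id.atTop_mul_const' hk
    have h1 := (tendsto_nsmul h v).comp hjk
    have h2 : tc m (rv v) ≤ m (k • v) / k := by
      refine le_of_tendsto h1 ?_
      filter_upwards [eventually_ge_atTop 1] with j hj
      have hj' : (0 : ℝ) < j := by exact_mod_cast hj
      simp only [Function.comp]
      rw [mul_nsmul', Nat.cast_mul, div_le_div_iff₀ (by positivity) hk']
      have h3 := nc_nsmul_le h (k • v) j
      nlinarith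
    rw [le_div_iff₀ hk'] at h2
    linarith

theorem rv_add {d : ℕ} (x y : V d) : rv (x + y) = rv x + rv y := by
  funext i
  simp [rv]

theorem rv_nsmul {d : ℕ} (k : ℕ) (x : V d) : rv (k • x) = (k : ℝ) • rv x := by
  funext i
  simp [rv]

end Pool.Agent.Helper79.GR
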