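import Pool.Agent.Helper79.GR.RB

/-!
# GR-RC: the expected passage time is subadditive

`T_triangle` with `integral_T` (translation), `le_T`, `T_le`.
-/

set_option autoImplicit false

namespace Pool.Agent.Helper79.GR

open MeasureTheory ProbabilityTheory

variable {Ω : Type*} [MeasurableSpace Ω] {d : ℕ} {P : Measure Ω} {X : Edge d → Ω → ℝ}
  {ν : Measure ℝ} {a b : ℝ}

theorem subM_mm (h : Env P X ν a b) : SubM a b (mm P X) := by
  haveI := h.prob
  refine ⟨h.apos, fun x y => ?_, fun x => ?_, fun x => ?_⟩
  · have e1 : mm P X y = ∫ ω, T (cf X ω) x (x + y) ∂P := by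
      rw [integral_T h, add_sub_cancel_left]
    rw [e1]
    unfold mm
    rw [← integral_add (integrable_T h 0 x) (integrable_T h x (x + y))]
    exact integral_mono (integrable_T h 0 (x + y))
      ((integrable_T h 0 x).add (integrable_T h x (x + y)))
      fun ω => T_triangle (h.cf_bd ω) 0 x (x + y)
  · have e1 : a * n1 x = ∫ _ω : Ω, a * n1 (x - 0) ∂P := by
      rw [sub_zero]
      simp
    rw [e1]
    exact integral_mono (integrable_const _) (integrable_T h 0 x)
      fun ω => le_T (h.cf_bd ω) 0 x
  · have e1 : b * n1 x = ∫ _ω : Ω, b * n1 (x - 0) ∂P := by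
      rw [sub_zero]
      simp
    rw [e1]
    exact integral_mono (integrable_T h 0 x) (integrable_const _)
      fun ω => T_le (h.cf_bd ω) 0 x

end Pool.Agent.Helper79.GR
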