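import Pool.Agent.Helper79.GR.DC

/-!
# GR-RA: measurability and integrability of the passage time

`T` is an infimum over the countable type of walks from `x` to `y` of finite sums of measurable
functions (`Measurable.iInf`, `cost_eq_sum`).  It is bounded by `b * n1 (y - x)` (`T_le`, `le_T`).
-/

set_option autoImplicit false

namespace Pool.Agent.Helper79.GR

open MeasureTheory ProbabilityTheory

variable {Ω : Type*} [MeasurableSpace Ω] {d : ℕ} {P : Measure Ω} {X : Edge d → Ω → ℝ}
  {ν : Measure ℝ} {a b : ℝ}

theorem measurable_cost (h : Env P X ν a b) (x : V d) (w : List (St d)) :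
    Measurable fun ω => cost (cf X ω) x w := by
  induction w generalizing x with
  | nil => exact measurable_const
  | cons s w ih => exact (h.meas (ed x s)).add (ih (x + sv s))

private theorem RA_measurable_cost_cfg (x : V d) (w : List (St d)) :
    Measurable fun c : Edge d → ℝ => cost c x w := by
  induction w generalizing x with
  | nil => exact measurable_const
  | cons s w ih => exact (measurable_pi_apply (ed x s)).add (ih (x + sv s))

/-- the passage time is a measurable function of the weights -/
theorem measurable_T_cfg (x y : V d) : Measurable fun c : Edge d → ℝ => T c x y := by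
  have : Countable {w : List (St d) // pos x w = y} := inferInstance
  exact Measurable.iInf fun w => RA_measurable_cost_cfg x w.1

theorem measurable_T (h : Env P X ν a b) (x y : V d) :
    Measurable fun ω => T (cf X ω) x y :=
  (measurable_T_cfg x y).comp (measurable_pi_lambda _ fun e => h.meas e)

theorem integrable_T (h : Env P X ν a b) (x y : V d) :
    Integrable (fun ω => T (cf X ω) x y) P := by
  have := h.prob
  refine Integrable.of_bound (measurable_T h x y).aestronglyMeasurable (b * n1 (y - x))
    (Filter.Eventually.of_forall fun ω => ?_)
  have h1 := le_T (h.cf_bd ω) x y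
  have h2 := T_le (h.cf_bd ω) x y
  have h3 : 0 ≤ a * n1 (y - x) := mul_nonneg h.apos.le (n1_nonneg _)
  rw [Real.norm_eq_abs, abs_of_nonneg (h3.trans h1)]
  exact h2

end Pool.Agent.Helper79.GR
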