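import Pool.Agent.Helper79.GR.RA
import Pool.Agent.Helper79.GR.DD

/-!
# GR-RB: stationarity

The families `fun e => X (sh v e)` and `X` are independent with the same marginals, so they have
the same joint law: both are `Measure.infinitePi fun _ => ν`
(`iIndepFun_iff_map_fun_eq_infinitePi_map` or similar; `iIndepFun.precomp` with `sh_injective`).
Compose with the measurable function `T` (`measurable_T_cfg`, `T_shift`).
-/

set_option autoImplicit false

namespace Pool.Agent.Helper79.GR

open MeasureTheory ProbabilityTheory

variable {Ω : Type*} [MeasurableSpace Ω] {d : ℕ} {P : Measure Ω} {X : Edge d → Ω → ℝ}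
  {ν : Measure ℝ} {a b : ℝ}

theorem map_shift (h : Env P X ν a b) (v : V d) :
    P.map (fun ω e => X (sh v e) ω) = P.map (fun ω e => X e ω) := by
  have h1 : P.map (fun ω e => X e ω) = Measure.infinitePi (fun e => P.map (X e)) :=
    h.indep.map_fun_eq_infinitePi_map₀ (measurable_pi_iff.2 h.meas).aemeasurable
  have h2 : P.map (fun ω e => X (sh v e) ω) =
      Measure.infinitePi (fun e => P.map (X (sh v e))) :=
    (h.indep.precomp (sh_injective v)).map_fun_eq_infinitePi_map₀
      (measurable_pi_iff.2 fun e => h.meas (sh v e)).aemeasurable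
  rw [h1, h2]
  congr 1
  funext e
  rw [h.law, h.law]

theorem identDistrib_T (h : Env P X ν a b) (v x y : V d) :
    IdentDistrib (fun ω => T (cf X ω) (x + v) (y + v)) (fun ω => T (cf X ω) x y) P P := by
  refine ⟨(measurable_T h _ _).aemeasurable, (measurable_T h _ _).aemeasurable, ?_⟩
  have e1 : (fun ω => T (cf X ω) (x + v) (y + v)) =
      (fun c : Edge d → ℝ => T c x y) ∘ (fun ω e => X (sh v e) ω) := by
    funext ω
    exact (T_shift (cf X ω) v x y).symm
  have e2 : (fun ω => T (cf X ω) x y) =
      (fun c : Edge d → ℝ => T c x y) ∘ (fun ω e => X e ω) := rfl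
  rw [e1, e2, ← Measure.map_map (measurable_T_cfg x y)
    (measurable_pi_iff.2 fun e => h.meas (sh v e)),
    ← Measure.map_map (measurable_T_cfg x y) (measurable_pi_iff.2 h.meas), map_shift h v]

theorem integral_T (h : Env P X ν a b) (x y : V d) :
    ∫ ω, T (cf X ω) x y ∂P = mm P X (y - x) := by
  have := (identDistrib_T h x 0 (y - x)).integral_eq
  simpa [mm] using this

end Pool.Agent.Helper79.GR
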