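import Pool.Agent.Helper79.GR.DE

/-!
# GR-KA: existence of rays (König's lemma)
-/

set_option autoImplicit false

namespace Pool.Agent.Helper79.GR

private def KAGood {d : ℕ} (c : Edge d → ℝ) (v : List (St d)) : Prop :=
  ∀ n : ℕ, ∃ w : List (St d), n ≤ w.length ∧ v <+: w ∧ Geo c 0 w

private theorem KAGood.step {d : ℕ} {c : Edge d → ℝ} {v : List (St d)} (h : KAGood c v) :
    ∃ s : St d, KAGood c (v ++ [s]) := by
  classical
  by_contra hcon
  push Not at hcon
  have h1 : ∀ s : St d, ∃ n : ℕ, ∀ w : List (St d), n ≤ w.length → v ++ [s] <+: w →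
      ¬ Geo c 0 w := by
    intro s
    have := hcon s
    unfold KAGood at this
    push Not at this
    exact this
  choose m hm using h1
  obtain ⟨w, hw, ⟨t, rfl⟩, hg⟩ := h (Finset.univ.sup m + (v.length + 1))
  rcases t with _ | ⟨s, t⟩
  · simp at hw
    omega
  · have h2 : m s ≤ Finset.univ.sup m := Finset.le_sup (Finset.mem_univ s)
    refine hm s (v ++ s :: t) (by omega) ⟨t, by simp⟩ hg

/-- Call `v` good if for all `n` there is a geodesic `w` from `0` with `n ≤ w.length` and
`v <+: w`.  If `v` is good then `v ++ [s]` is good for some step `s` (finitely many steps, the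
property is monotone in `n`).  `u` is good, and `u.length = L`.  Choose successively; all
beginnings of the resulting infinite walk are geodesics by `Geo.take`. -/
theorem konig {d : ℕ} (c : Edge d → ℝ) (L : ℕ) (u : List (St d))
    (h : ∀ n : ℕ, ∃ w : List (St d), n ≤ w.length ∧ w.take L = u ∧ Geo c 0 w) :
    ∃ s : ℕ → St d, Ray c s ∧ pre s L = u := by
  classical
  have hu : KAGood c u := by
    intro n
    obtain ⟨w, hw, ht, hg⟩ := h n
    exact ⟨w, hw, ⟨w.drop L, by rw [← ht, List.take_append_drop]⟩, hg⟩
  have hlen : u.length = L := by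
    obtain ⟨w, hw, ht, -⟩ := h L
    rw [← ht, List.length_take]
    omega
  let nxt : {v : List (St d) // KAGood c v} → {v : List (St d) // KAGood c v} := fun v =>
    ⟨v.1 ++ [Classical.choose v.2.step], Classical.choose_spec v.2.step⟩
  let q : ℕ → {v : List (St d) // KAGood c v} := fun n => nxt^[n] ⟨u, hu⟩
  have hq0 : (q 0).1 = u := rfl
  have hqs : ∀ n, ∃ s, (q (n + 1)).1 = (q n).1 ++ [s] := by
    intro n
    refine ⟨Classical.choose (q n).2.step, ?_⟩
    show (nxt^[n + 1] ⟨u, hu⟩).1 = _
    rw [Function.iterate_succ_apply']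
  have hql : ∀ n, (q n).1.length = L + n := by
    intro n
    induction n with
    | zero => rw [hq0, hlen]; rfl
    | succ n ih =>
      obtain ⟨s, hs⟩ := hqs n
      rw [hs, List.length_append, ih]
      simp [Nat.add_assoc]
  have hqp : ∀ n k, (q n).1 <+: (q (n + k)).1 := by
    intro n k
    induction k with
    | zero => exact ⟨[], List.append_nil _⟩
    | succ k ih =>
      obtain ⟨s, hs⟩ := hqs (n + k)
      refine ih.trans ?_
      show _ <+: (q (n + k + 1)).1
      rw [hs]
      exact ⟨_, rfl⟩
  have hlt : ∀ i, i < (q (i + 1)).1.length := by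
    intro i
    rw [hql]
    omega
  let s : ℕ → St d := fun i => (q (i + 1)).1[i]'(hlt i)
  have hpre : ∀ n, pre s n = (q n).1.take n := by
    intro n
    apply List.ext_getElem
    · simp [pre, hql]
    · intro i h1 h2
      have hi : i < n := by simpa [pre] using h1
      obtain ⟨k, rfl⟩ := Nat.exists_eq_add_of_lt hi
      have hpp := hqp (i + 1) k
      have he : i + k + 1 = i + 1 + k := by omega
      simp only [pre, List.getElem_map, List.getElem_range, List.getElem_take]
      show (q (i + 1)).1[i]'(hlt i) = _
      have h3 := List.IsPrefix.getElem hpp (hlt i)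
      rw [h3]
      congr 2
      rw [he]
  refine ⟨s, ?_, ?_⟩
  · intro n
    rw [hpre]
    obtain ⟨w, hw, hp, hg⟩ := (q n).2 0
    have h4 : (q n).1.take n = w.take n := by
      obtain ⟨t, rfl⟩ := hp
      rw [List.take_append_of_le_length]
      rw [hql]; omega
    rw [h4]
    exact hg.take n
  · rw [hpre]
    have h5 := hqp 0 L
    rw [hq0, Nat.zero_add] at h5
    obtain ⟨t, ht⟩ := h5
    rw [← ht, List.take_append_of_le_length hlen.ge, ← hlen, List.take_length]

/-- The tuples of beginnings `fun i => (w i).take L` take finitely many values (`Finite`: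
lists of length at most `L`, `List.finite_length_le`), so one injective tuple `u` works for
infinitely many `n`, hence for all `n`.  Apply `konig` to every `u i`. -/
theorem konig_many {d : ℕ} (c : Edge d → ℝ) (N L : ℕ)
    (h : ∀ n : ℕ, ∃ w : Fin N → List (St d), (∀ i, n ≤ (w i).length ∧ Geo c 0 (w i)) ∧
      Function.Injective fun i => (w i).take L) :
    ∃ s : Fin N → ℕ → St d, Function.Injective s ∧ ∀ i, Ray c (s i) := by
  classical
  choose W hW hinj using h
  let S : Set (Fin N → List (St d)) := {f | ∀ i, f i ∈ {l : List (St d) | l.length ≤ L}}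
  have hS : S.Finite := Set.Finite.pi' fun _ => List.finite_length_le (St d) L
  have hex : ∃ u ∈ S, ∀ n, ∃ m, n ≤ m ∧ (fun i => (W m i).take L) = u := by
    by_contra hcon
    push Not at hcon
    choose! g hg using hcon
    let f : ℕ → (Fin N → List (St d)) := fun m i => (W m i).take L
    have hfS : ∀ m, f m ∈ S := by
      intro m i
      show ((W m i).take L).length ≤ L
      rw [List.length_take]; omega
    let M := hS.toFinset.sup g
    have h1 := hg (f M) (hfS M) M (Finset.le_sup (hS.mem_toFinset.2 (hfS M)))
    exact h1 rfl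
  obtain ⟨u, -, hu⟩ := hex
  have hk : ∀ i, ∃ s : ℕ → St d, Ray c s ∧ pre s L = u i := by
    intro i
    apply konig
    intro n
    obtain ⟨m, hm, he⟩ := hu n
    exact ⟨W m i, hm.trans (hW m i).1, congrFun he i, (hW m i).2⟩
  choose s hs hsu using hk
  refine ⟨s, ?_, hs⟩
  intro i j hij
  obtain ⟨m, -, he⟩ := hu 0
  apply hinj m
  show (W m i).take L = (W m j).take L
  have h1 : (W m i).take L = u i := congrFun he i
  have h2 : (W m j).take L = u j := congrFun he j
  rw [h1, h2, ← hsu, ← hsu, hij]

end Pool.Agent.Helper79.GR
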