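import Pool.Agent.Helper79.GR.DB

/-!
# GR-DF: a geodesic visits every point and every edge at most once
-/

set_option autoImplicit false

namespace Pool.Agent.Helper79.GR

/-- If `pos x (w.take i) = pos x (w.take j)` with `i < j ≤ w.length` then
`w.take i ++ w.drop j` is a walk with the same end and smaller cost. -/
theorem Geo.pos_inj {d : ℕ} {a b : ℝ} {c : Edge d → ℝ} (hb : Bd a b c) {x : V d}
    {w : List (St d)} (h : Geo c x w) {i j : ℕ} (hij : i < j) (hj : j ≤ w.length) :
    pos x (w.take i) ≠ pos x (w.take j) := by
  intro heq
  have hp : pos x (w.take i ++ w.drop j) = pos x w := by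
    conv_rhs => rw [← List.take_append_drop j w]
    rw [pos_append, pos_append, heq]
  have h1 := h _ hp
  have h2 : w.take j = w.take i ++ (w.drop i).take (j - i) := by
    rw [← List.take_add]
    congr 1
    omega
  have h3 : cost c x w = cost c x (w.take i) +
      cost c (pos x (w.take i)) ((w.drop i).take (j - i)) +
      cost c (pos x (w.take j)) (w.drop j) := by
    conv_lhs => rw [← List.take_append_drop j w]
    rw [cost_append]
    conv_lhs => rw [h2]
    rw [cost_append, ← h2]
  have h4 : a * ((w.drop i).take (j - i)).length ≤
      cost c (pos x (w.take i)) ((w.drop i).take (j - i)) := le_cost hb _ _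
  have h5 : ((w.drop i).take (j - i)).length = j - i := by
    rw [List.length_take, List.length_drop]
    omega
  have h6 : (0 : ℝ) < ((w.drop i).take (j - i)).length := by
    rw [h5]
    exact_mod_cast Nat.sub_pos_of_lt hij
  have h7 : 0 < a * (((w.drop i).take (j - i)).length : ℝ) := mul_pos hb.1 h6
  rw [cost_append, heq] at h1
  rw [heq] at h3 h4
  linarith

private theorem pos_take_succ {d : ℕ} (x : V d) (w : List (St d)) (i : ℕ) (hi : i < w.length) :
    pos x (w.take (i + 1)) = pos x (w.take i) + sv w[i] := by
  induction w generalizing x i with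
  | nil => exact absurd hi (Nat.not_lt_zero _)
  | cons s w ih =>
    cases i with
    | zero => rfl
    | succ i =>
      have := ih (x + sv s) i (by simpa using hi)
      simpa [pos] using this

private theorem eds_getElem {d : ℕ} (x : V d) (w : List (St d)) (i : ℕ)
    (hi : i < (eds x w).length) (hi' : i < w.length) :
    (eds x w)[i] = ed (pos x (w.take i)) w[i] := by
  induction w generalizing x i with
  | nil => exact absurd hi' (Nat.not_lt_zero _)
  | cons s w ih =>
    cases i with
    | zero => rfl
    | succ i =>
      have := ih (x + sv s) i (by simpa [eds] using hi) (by simpa using hi')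
      simpa [eds, pos] using this

/-- The edge number `i` joins `pos x (w.take i)` and `pos x (w.take (i + 1))`; two equal edges with
numbers `i < j` give a repeated point. -/
theorem Geo.nodup {d : ℕ} {a b : ℝ} {c : Edge d → ℝ} (hb : Bd a b c) {x : V d}
    {w : List (St d)} (h : Geo c x w) : (eds x w).Nodup := by
  unfold List.Nodup
  rw [List.pairwise_iff_getElem]
  intro i j hi hj hij heq
  have hi' : i < w.length := by rwa [length_eds] at hi
  have hj' : j < w.length := by rwa [length_eds] at hj
  rw [eds_getElem x w i hi hi', eds_getElem x w j hj hj'] at heq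
  have h1 := congrArg Subtype.val heq
  simp only [ed, Sym2.eq_iff] at h1
  rcases h1 with h1 | h1
  · exact h.pos_inj hb hij hj'.le h1.1
  · rw [← pos_take_succ x w j hj'] at h1
    exact h.pos_inj hb (Nat.lt_succ_of_lt hij) hj' h1.1

end Pool.Agent.Helper79.GR
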