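import Pool.Agent.Helper79.GR.NC

/-!
# GR-ND: good targets

Let `z k = (k + 1) • (r • w)`, `D k x = m (r • w) + m (k • (r • w) - x) - m (z k - x) ≥ 0`
(subadditivity).  The sum of `D k x` over `k₀ < k ≤ k₀ + L` telescopes:
`L m (r • w) - m (z (k₀ + L) - x) + m ((k₀ + 1) • (r • w) - x)`, and
`m (z (k₀ + L) - x) ≥ m ((k₀ + L + 1) • (r • w)) - b n1 x ≥ (k₀ + L + 1) r tc - b n1 x`.
So the sum over `x ∈ A` and `k` is at most `L #A (m (r • w) - r tc) + K` with a constant `K`
independent of `L`.  If for every `k > k₀` some `x ∈ A` has `D k x > δ`, then it is at least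
`L δ`: contradiction for large `L`.
-/

set_option autoImplicit false

namespace Pool.Agent.Helper79.GR

theorem good_targets {d : ℕ} {a b : ℝ} {m : V d → ℝ} (h : SubM a b m) (w : V d)
    (A : Finset (V d)) (r : ℕ) (δ : ℝ)
    (hA : A.card * (m (r • w) - r * tc m (rv w) + 1) < δ) (k₀ : ℕ) :
    ∃ k > k₀, ∀ x ∈ A,
      m (r • w) + m (k • (r • w) - x) - m ((k + 1) • (r • w) - x) ≤ δ := by
  by_contra hcon
  push Not at hcon
  have hD0 : ∀ k : ℕ, ∀ x : V d,
      0 ≤ m (r • w) + m (k • (r • w) - x) - m ((k + 1) • (r • w) - x) := by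
    intro k x
    have h1 := h.add (r • w) (k • (r • w) - x)
    have h2 : r • w + (k • (r • w) - x) = (k + 1) • (r • w) - x := by
      rw [succ_nsmul]; abel
    rw [h2] at h1
    linarith
  have htc : 0 ≤ tc m (rv w) := by
    refine le_trans ?_ (le_tc h (rv w))
    exact mul_nonneg h.apos.le (Finset.sum_nonneg fun _ _ => abs_nonneg _)
  have hlow : ∀ L : ℕ, (L : ℝ) * δ ≤ ∑ j ∈ Finset.range L, ∑ x ∈ A,
      (m (r • w) + m ((k₀ + 1 + j) • (r • w) - x) - m ((k₀ + 1 + j + 1) • (r • w) - x)) := by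
    intro L
    have h1 : ∀ j ∈ Finset.range L, δ ≤ ∑ x ∈ A,
        (m (r • w) + m ((k₀ + 1 + j) • (r • w) - x) -
          m ((k₀ + 1 + j + 1) • (r • w) - x)) := by
      intro j _
      obtain ⟨x, hx, hlt⟩ := hcon (k₀ + 1 + j) (by omega)
      exact hlt.le.trans (Finset.single_le_sum
        (f := fun x => m (r • w) + m ((k₀ + 1 + j) • (r • w) - x) -
          m ((k₀ + 1 + j + 1) • (r • w) - x)) (fun y _ => hD0 _ y) hx)
    have h2 := Finset.card_nsmul_le_sum (Finset.range L) _ δ h1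
    rw [Finset.card_range, nsmul_eq_mul] at h2
    exact h2
  have htel : ∀ (L : ℕ) (x : V d), ∑ j ∈ Finset.range L,
      (m (r • w) + m ((k₀ + 1 + j) • (r • w) - x) - m ((k₀ + 1 + j + 1) • (r • w) - x)) =
      L * m (r • w) + m ((k₀ + 1) • (r • w) - x) - m ((k₀ + 1 + L) • (r • w) - x) := by
    intro L x
    induction L with
    | zero => simp
    | succ L ih =>
      rw [Finset.sum_range_succ, ih, show k₀ + 1 + (L + 1) = k₀ + 1 + L + 1 from rfl]
      push_cast
      ring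
  have hup : ∀ (L : ℕ) (x : V d), ∑ j ∈ Finset.range L,
      (m (r • w) + m ((k₀ + 1 + j) • (r • w) - x) - m ((k₀ + 1 + j + 1) • (r • w) - x)) ≤
      L * (m (r • w) - r * tc m (rv w)) + (m ((k₀ + 1) • (r • w) - x) + b * n1 x) := by
    intro L x
    rw [htel]
    have h1 := abs_le.1 (h.lip ((k₀ + 1 + L) • (r • w) - x) ((k₀ + 1 + L) • (r • w)))
    have h2 : (k₀ + 1 + L) • (r • w) - x - (k₀ + 1 + L) • (r • w) = -x := by abel
    rw [h2, n1_neg] at h1
    have h3 := mul_tc_le h w ((k₀ + 1 + L) * r)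
    rw [mul_nsmul'] at h3
    have h4 : (L : ℝ) * (r * tc m (rv w)) ≤ (((k₀ + 1 + L) * r : ℕ) : ℝ) * tc m (rv w) := by
      push_cast
      have : (0 : ℝ) ≤ (k₀ + 1) * (r * tc m (rv w)) := by positivity
      nlinarith
    have h5 : m ((k₀ + 1 + L) • r • w) = m ((k₀ + 1 + L) • (r • w)) := rfl
    nlinarith [h1.1]
  set η : ℝ := δ - A.card * (m (r • w) - r * tc m (rv w)) with hη
  have hη0 : 0 < η := by
    have : (0 : ℝ) ≤ A.card := Nat.cast_nonneg _
    rw [hη]; linarith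
  set K : ℝ := ∑ x ∈ A, (m ((k₀ + 1) • (r • w) - x) + b * n1 x) with hK
  have hall : ∀ L : ℕ, (L : ℝ) * η ≤ K := by
    intro L
    have h1 := hlow L
    rw [Finset.sum_comm] at h1
    have h2 := Finset.sum_le_sum (s := A) fun x _ => hup L x
    rw [Finset.sum_add_distrib, Finset.sum_const,
      nsmul_eq_mul A.card ((L : ℝ) * (m (r • w) - r * tc m (rv w)))] at h2
    have h3 := h1.trans h2
    rw [hη]
    nlinarith
  obtain ⟨L, hL⟩ := exists_nat_gt (K / η)
  rw [div_lt_iff₀ hη0] at hL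
  exact absurd (hall L) (not_le.2 hL)

end Pool.Agent.Helper79.GR
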