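import Pool.Agent.Helper79.GR.Defs

/-!
# GR-GA: a common supporting functional

On the span of `y = x + w` the functional `t • y ↦ t * μ y` is `≤ μ` (for `t < 0`:
`0 = μ 0 ≤ μ (t • y) + μ (-t • y)`); if `y = 0` then `μ x + μ w ≤ 0`, `μ x = μ w = 0`
(take any functional, e.g. the extension of `0`).  `exists_extension_of_le_sublinear` gives
`ρ ≤ μ` with `ρ y = μ y = μ x + μ w` (`hsh`), hence equality at `x` and at `w`.
-/

set_option autoImplicit false

namespace Pool.Agent.Helper79.GR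

theorem exists_support {d : ℕ} (μ : (Fin d → ℝ) → ℝ) (hadd : ∀ x y, μ (x + y) ≤ μ x + μ y)
    (hsmul : ∀ t : ℝ, 0 ≤ t → ∀ x, μ (t • x) = t * μ x) (hnn : ∀ x, 0 ≤ μ x)
    (x w : Fin d → ℝ) (hsh : μ x + μ w ≤ μ (x + w)) :
    ∃ ρ : (Fin d → ℝ) →ₗ[ℝ] ℝ, (∀ y, ρ y ≤ μ y) ∧ ρ x = μ x ∧ ρ w = μ w := by
  have h0 : μ 0 = 0 := by
    have := hsmul 0 le_rfl 0
    rwa [zero_smul, zero_mul] at this
  have key : ∃ ρ : (Fin d → ℝ) →ₗ[ℝ] ℝ, (∀ y, ρ y ≤ μ y) ∧ ρ (x + w) = μ (x + w) := by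
    by_cases hy : x + w = 0
    · obtain ⟨ρ, -, h2⟩ := exists_extension_of_le_sublinear
        (⊥ : (Fin d → ℝ) →ₗ.[ℝ] ℝ) μ (fun c hc v => hsmul c hc.le v) hadd (by
          rintro ⟨v, hv⟩
          have hv0 : v = 0 := hv
          subst hv0
          have h3 : (⊥ : (Fin d → ℝ) →ₗ.[ℝ] ℝ) ⟨0, hv⟩ = 0 := LinearPMap.map_zero _
          rw [h3]
          exact h0.symm.le)
      exact ⟨ρ, h2, by rw [hy, map_zero, h0]⟩
    · obtain ⟨ρ, h1, h2⟩ := exists_extension_of_le_sublinear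
        (LinearPMap.mkSpanSingleton (x + w) (μ (x + w)) hy) μ (fun c hc v => hsmul c hc.le v)
        hadd (by
          rintro ⟨v, hv⟩
          obtain ⟨t, rfl⟩ := Submodule.mem_span_singleton.1 hv
          rw [LinearPMap.mkSpanSingleton'_apply]
          change t * μ (x + w) ≤ μ (t • (x + w))
          rcases le_total 0 t with ht | ht
          · exact (hsmul t ht _).symm.le
          · exact (mul_nonpos_of_nonpos_of_nonneg ht (hnn _)).trans (hnn _))
      refine ⟨ρ, h2, ?_⟩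
      have h3 := h1 ⟨x + w, Submodule.mem_span_singleton_self _⟩
      exact h3.trans (LinearPMap.mkSpanSingleton_apply ℝ ℝ hy (μ (x + w)))
  obtain ⟨ρ, h1, h2⟩ := key
  have h3 := h1 x
  have h4 := h1 w
  rw [map_add] at h2
  exact ⟨ρ, h1, by linarith, by linarith⟩

end Pool.Agent.Helper79.GR
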