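import Pool.Agent.Helper79.GR.NC

/-!
# GR-NE: the uniform gap

`g i x = tc m x + tc m (rv (w i)) - tc m (x + rv (w i))` is continuous (`tc_lip`), nonnegative and
`g i x = 0` or `g j x = 0` or both are positive on the compact set `{x | nr x = 1}`.  The function
`max (g i x) (g j x)` is positive and continuous there, so it has a positive minimum for each pair
`i ≠ j` (finitely many pairs).  For `q` with `n1 q = r > 0` use homogeneity (`tc_smul`) with
`x = (1 / r) • rv q`, `nr (rv q) = n1 q`.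
-/

set_option autoImplicit false

namespace Pool.Agent.Helper79.GR

open Filter Topology

private theorem NE_nr_continuous {d : ℕ} : Continuous (nr : (Fin d → ℝ) → ℝ) := by
  unfold nr
  fun_prop

private theorem NE_nr_zero {d : ℕ} : nr (0 : Fin d → ℝ) = 0 := by
  unfold nr
  simp

private theorem NE_tc_continuous {d : ℕ} {a b : ℝ} {m : V d → ℝ} (h : SubM a b m) :
    Continuous (tc m) := by
  rw [continuous_iff_continuousAt]
  intro x
  rw [ContinuousAt, tendsto_iff_dist_tendsto_zero]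
  have h1 : Tendsto (fun y : Fin d → ℝ => b * nr (y - x)) (𝓝 x) (𝓝 0) := by
    have h2 : Continuous fun y : Fin d → ℝ => b * nr (y - x) :=
      continuous_const.mul (NE_nr_continuous.comp (continuous_id.sub continuous_const))
    have h3 := h2.tendsto x
    rw [sub_self, NE_nr_zero, mul_zero] at h3
    exact h3
  refine squeeze_zero (fun y => dist_nonneg) (fun y => ?_) h1
  rw [Real.dist_eq]
  exact tc_lip h y x

private theorem NE_compact {d : ℕ} : IsCompact {x : Fin d → ℝ | nr x = 1} := by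
  have h1 : IsClosed {x : Fin d → ℝ | nr x = 1} := isClosed_eq NE_nr_continuous continuous_const
  refine (isCompact_closedBall (0 : Fin d → ℝ) 1).of_isClosed_subset h1 ?_
  intro x hx
  rw [mem_closedBall_zero_iff, pi_norm_le_iff_of_nonneg zero_le_one]
  intro i
  rw [Real.norm_eq_abs]
  have h2 : nr x = 1 := hx
  rw [← h2]
  unfold nr
  exact Finset.single_le_sum (f := fun i => |x i|) (fun i _ => abs_nonneg (x i))
    (Finset.mem_univ i)

private theorem NE_min {ι : Type*} [Finite ι] (f : ι → ℝ) (hf : ∀ i, 0 < f i) :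
    ∃ η > 0, ∀ i, η ≤ f i := by
  rcases isEmpty_or_nonempty ι with hι | hι
  · exact ⟨1, one_pos, fun i => (hι.false i).elim⟩
  · obtain ⟨i, hi⟩ := Finite.exists_min f
    exact ⟨f i, hf i, hi⟩

theorem exists_gap {d : ℕ} {a b : ℝ} {m : V d → ℝ} (h : SubM a b m) {N : ℕ} (w : Fin N → V d)
    (hw : ∀ i j, i ≠ j → ∀ x : Fin d → ℝ, x ≠ 0 →
      NoShare (tc m) (rv (w i)) x ∨ NoShare (tc m) (rv (w j)) x) :
    ∃ η > 0, ∀ i j, i ≠ j → ∀ (r : ℕ) (q : V d), 0 < r → n1 q = r →
      η * r ≤ tc m (rv q) + r * tc m (rv (w i)) - tc m (rv q + (r : ℝ) • rv (w i)) ∨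
      η * r ≤ tc m (rv q) + r * tc m (rv (w j)) - tc m (rv q + (r : ℝ) • rv (w j)) := by
  have hc := NE_tc_continuous h
  have hg : ∀ i : Fin N, Continuous fun x : Fin d → ℝ =>
      tc m x + tc m (rv (w i)) - tc m (x + rv (w i)) := by
    intro i
    exact (hc.add continuous_const).sub (hc.comp (continuous_id.add continuous_const))
  have key : ∀ p : Fin N × Fin N, ∃ η > 0, p.1 ≠ p.2 → ∀ x : Fin d → ℝ, nr x = 1 →
      η ≤ max (tc m x + tc m (rv (w p.1)) - tc m (x + rv (w p.1)))
        (tc m x + tc m (rv (w p.2)) - tc m (x + rv (w p.2))) := by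
    rintro ⟨i, j⟩
    by_cases hij : i = j
    · exact ⟨1, one_pos, fun h' => absurd hij h'⟩
    rcases Set.eq_empty_or_nonempty {x : Fin d → ℝ | nr x = 1} with he | hne
    · refine ⟨1, one_pos, fun _ x hx => ?_⟩
      have : x ∈ ({x : Fin d → ℝ | nr x = 1} : Set (Fin d → ℝ)) := hx
      rw [he] at this
      exact absurd this (Set.notMem_empty x)
    · obtain ⟨x₀, hx₀, hmin⟩ := NE_compact.exists_isMinOn hne
        ((hg i).max (hg j)).continuousOn
      refine ⟨_, ?_, fun _ x hx => hmin hx⟩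
      have hx0 : x₀ ≠ 0 := by
        rintro rfl
        have h1 : nr (0 : Fin d → ℝ) = 1 := hx₀
        rw [NE_nr_zero] at h1
        exact zero_ne_one h1
      rcases hw i j hij x₀ hx0 with h1 | h1
      · exact lt_max_of_lt_left (sub_pos.mpr h1)
      · exact lt_max_of_lt_right (sub_pos.mpr h1)
  choose η₀ hη₀ hη₁ using key
  obtain ⟨η, hη, hηle⟩ := NE_min η₀ hη₀
  refine ⟨η, hη, fun i j hij r q hr hq => ?_⟩
  have hr' : (0 : ℝ) < r := Nat.cast_pos.mpr hr
  have hnr : nr (rv q) = r := hq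
  have hx : nr ((r : ℝ)⁻¹ • rv q) = 1 := by
    have h1 : nr ((r : ℝ)⁻¹ • rv q) = (r : ℝ)⁻¹ * nr (rv q) := by
      unfold nr
      rw [Finset.mul_sum]
      apply Finset.sum_congr rfl
      intro i _
      rw [Pi.smul_apply, smul_eq_mul, abs_mul, abs_of_pos (inv_pos.mpr hr')]
    rw [h1, hnr, inv_mul_cancel₀ hr'.ne']
  have hq' : rv q = (r : ℝ) • ((r : ℝ)⁻¹ • rv q) := by
    rw [smul_smul, mul_inv_cancel₀ hr'.ne', one_smul]
  have hval : ∀ l : Fin N, tc m (rv q) + r * tc m (rv (w l)) - tc m (rv q + (r : ℝ) • rv (w l)) =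
      r * (tc m ((r : ℝ)⁻¹ • rv q) + tc m (rv (w l)) - tc m ((r : ℝ)⁻¹ • rv q + rv (w l))) := by
    intro l
    have h1 : tc m (rv q) = r * tc m ((r : ℝ)⁻¹ • rv q) := by
      rw [← tc_smul h _ hr'.le, ← hq']
    have h2 : tc m (rv q + (r : ℝ) • rv (w l)) =
        r * tc m ((r : ℝ)⁻¹ • rv q + rv (w l)) := by
      rw [← tc_smul h _ hr'.le, smul_add, ← hq']
    rw [h1, h2]
    ring
  rw [hval i, hval j]
  have h1 := (hηle (i, j)).trans (hη₁ (i, j) hij _ hx)
  rcases le_max_iff.mp h1 with h2 | h2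
  · left
    rw [mul_comm]
    exact mul_le_mul_of_nonneg_left h2 hr'.le
  · right
    rw [mul_comm]
    exact mul_le_mul_of_nonneg_left h2 hr'.le

end Pool.Agent.Helper79.GR
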