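import Pool.Agent.Helper79.GR.KA

/-!
# GR-RM: rays from good events

For `n` take `k` from `hev` with `n1 (k i • w i) = k i * n1 (w i) ≥ k i ≥ max n r`, a geodesic
`u i` from `0` to `k i • w i` (`exists_min`, `geo_iff`), its first point `q i` at distance `r`
(`exists_exit`, after at most `L = ⌈b r / a⌉₊` steps by `length_geo` for `Geo.take`).  By
`Geo.split` the point `q i` satisfies the hypothesis of `hev`, so the gap of `q i` for `w i` is
`< η r`; if `q i = q j` with `i ≠ j` this contradicts `hgap`.  So the `q i` are different and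
`take_ne` shows that `(u i).take L` are different.  `konig_many`.
-/

set_option autoImplicit false

namespace Pool.Agent.Helper79.GR

theorem rays_of_events {d : ℕ} {a b : ℝ} {c : Edge d → ℝ} (hb : Bd a b c)
    (μ : (Fin d → ℝ) → ℝ) {N : ℕ} (w : Fin N → V d) (hw0 : ∀ i, w i ≠ 0) (η : ℝ) (r : ℕ)
    (hr : 0 < r)
    (hgap : ∀ i j, i ≠ j → ∀ q : V d, n1 q = r →
      η * r ≤ μ (rv q) + r * μ (rv (w i)) - μ (rv q + (r : ℝ) • rv (w i)) ∨
      η * r ≤ μ (rv q) + r * μ (rv (w j)) - μ (rv q + (r : ℝ) • rv (w j)))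
    (hev : ∀ n : ℕ, ∃ k : Fin N → ℕ, (∀ i, n < k i) ∧ ∀ (i : Fin N) (q : V d), n1 q = r →
      T c 0 q + T c q (k i • w i) = T c 0 (k i • w i) →
      μ (rv q) + r * μ (rv (w i)) - μ (rv q + (r : ℝ) • rv (w i)) < η * r) :
    ∃ s : Fin N → ℕ → St d, Function.Injective s ∧ ∀ i, Ray c (s i) := by
  have _hr := hr
  set L : ℕ := ⌈b * r / a⌉₊ with hL
  apply konig_many c N L
  intro n
  obtain ⟨k, hk, hq⟩ := hev (max n r)
  have hw1 : ∀ i, 1 ≤ n1 (w i) := by
    intro i
    obtain ⟨j, hj⟩ := exists_nat_n1 (w i)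
    have h0 : n1 (w i) ≠ 0 := fun h => hw0 i (n1_eq_zero.1 h)
    rw [hj] at h0 ⊢
    have : j ≠ 0 := by
      intro h
      apply h0
      rw [h]
      simp
    exact_mod_cast Nat.one_le_iff_ne_zero.2 this
  have hkw : ∀ i, (k i : ℝ) ≤ n1 (k i • w i) := by
    intro i
    rw [n1_nsmul]
    have := hw1 i
    nlinarith [Nat.cast_nonneg (α := ℝ) (k i)]
  choose u hu hcost using fun i => exists_min hb 0 (k i • w i)
  have hgeo : ∀ i, Geo c 0 (u i) := by
    intro i
    rw [geo_iff hb, hcost i, hu i]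
  have hrk : ∀ i, (r : ℝ) ≤ n1 (pos 0 (u i)) := by
    intro i
    rw [hu i]
    refine le_trans ?_ (hkw i)
    exact_mod_cast ((le_max_right n r).trans (hk i).le)
  choose m hm hmr hmj using fun i => exists_exit r (u i) (hrk i)
  have hmL : ∀ i, m i ≤ L := by
    intro i
    have h1 := length_geo hb ((hgeo i).take (m i))
    rw [sub_zero, hmr i, List.length_take, min_eq_left (hm i)] at h1
    have ha := hb.1
    have h2 : (m i : ℝ) ≤ b * r / a := by
      rw [le_div_iff₀ ha]
      linarith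
    exact_mod_cast h2.trans (Nat.le_ceil _)
  refine ⟨u, fun i => ⟨?_, hgeo i⟩, ?_⟩
  · have h1 := n1_pos_sub_le (0 : V d) (u i)
    rw [sub_zero, hu i] at h1
    have h2 : (n : ℝ) ≤ k i := by exact_mod_cast ((le_max_left n r).trans (hk i).le)
    have h3 := hkw i
    exact_mod_cast h2.trans (h3.trans h1)
  · intro i j hij
    by_contra hne
    refine take_ne (hmL i) (hmL j) (hmr i) (hmj i) (hmr j) (hmj j) ?_ hij
    intro hqq
    have e1 := (hgeo i).split hb (m i)
    have e2 := (hgeo j).split hb (m j)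
    rw [hu i] at e1
    rw [hu j] at e2
    have g1 := hq i _ (hmr i) e1
    have g2 := hq j _ (hmr j) e2
    rcases hgap i j hne _ (hmr i) with h | h
    · linarith
    · rw [hqq] at h
      linarith

end Pool.Agent.Helper79.GR
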