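import Pool.Agent.Helper79.GR.RL
import Pool.Agent.Helper79.GR.RM
import Pool.Agent.Helper79.GR.NE

/-!
# GR-RN: Theorem A

Let `η` be the gap of `exists_gap`.  For `p > 0` take `r ≥ 1` larger than all `r₀` of `main_event` for
`w i`, `p / N`.  For every `n` choose `k n i > n` and let `E n` be the union over `i` of the bad
sets (measure at most `p`).  Let `B = ⋃ n, ⋂ j ≥ n, E j` (outer measure: `⋂ j ≥ n, E j` increases
with `n` and has measure at most `p`, so `P B ≤ p`; measurable hulls or `Monotone.measure_iUnion`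
, which needs no measurability).  Outside `B` for every `n` there is `j ≥ n`
with `ω ∉ E j`, and `rays_of_events` applies.  So the exceptional set has outer measure at most `p`
for every `p > 0`.  (`N = 0`: trivial.)
-/

set_option autoImplicit false

namespace Pool.Agent.Helper79.GR

open MeasureTheory ProbabilityTheory

variable {Ω : Type*} [MeasurableSpace Ω] {d : ℕ} {P : Measure Ω} {X : Edge d → Ω → ℝ}
  {ν : Measure ℝ} {a b : ℝ}

theorem theorem_A (h : Env P X ν a b) {N : ℕ} (w : Fin N → V d) (hw0 : ∀ i, w i ≠ 0)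
    (hw : ∀ i j, i ≠ j → ∀ x : Fin d → ℝ, x ≠ 0 →
      NoShare (tc (mm P X)) (rv (w i)) x ∨ NoShare (tc (mm P X)) (rv (w j)) x) :
    ∀ᵐ ω ∂P, ∃ s : Fin N → ℕ → St d, Function.Injective s ∧ ∀ i, Ray (cf X ω) (s i) := by
  have := h.prob
  obtain ⟨η, hη, hgap⟩ := exists_gap (subM_mm h) w hw
  rw [ae_iff]
  refine le_antisymm ?_ (zero_le)
  refine ENNReal.le_of_forall_pos_le_add ?_
  intro p hp _
  rw [zero_add]
  have hN : (0 : ℝ) < (p : ℝ) / ((N : ℝ) + 1) := by
    have : (0 : ℝ) < p := by exact_mod_cast hp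
    positivity
  choose r₀ hr₀ using fun i => main_event h (w i) η ((p : ℝ) / ((N : ℝ) + 1)) hη hN
  set r : ℕ := Finset.univ.sup r₀ + 1 with hr
  have hrr : ∀ i, r ≥ r₀ i := by
    intro i
    have := Finset.le_sup (f := r₀) (Finset.mem_univ i)
    omega
  choose k hk hkP using fun (n : ℕ) (i : Fin N) => hr₀ i r (hrr i) n
  set bad : ℕ → Fin N → Set Ω := fun n i => {ω | ¬ ∀ q : V d, n1 q = r →
      T (cf X ω) 0 q + T (cf X ω) q (k n i • w i) = T (cf X ω) 0 (k n i • w i) →
      tc (mm P X) (rv q) + r * tc (mm P X) (rv (w i)) -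
        tc (mm P X) (rv q + (r : ℝ) • rv (w i)) < η * r} with hbad
  have hE : ∀ n, P (⋃ i, bad n i) ≤ p := by
    intro n
    calc P (⋃ i, bad n i) ≤ ∑ i, P (bad n i) := measure_iUnion_fintype_le _ _
      _ ≤ ∑ _i : Fin N, ENNReal.ofReal ((p : ℝ) / ((N : ℝ) + 1)) := by
          refine Finset.sum_le_sum fun i _ => ?_
          have := hkP n i
          rw [Measure.real] at this
          exact (ENNReal.le_ofReal_iff_toReal_le (measure_ne_top _ _) hN.le).2 this
      _ = ENNReal.ofReal (N * ((p : ℝ) / ((N : ℝ) + 1))) := by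
          rw [Finset.sum_const, Finset.card_univ, Fintype.card_fin, nsmul_eq_mul,
            ENNReal.ofReal_mul (Nat.cast_nonneg _), ENNReal.ofReal_natCast]
      _ ≤ ENNReal.ofReal p := by
          apply ENNReal.ofReal_le_ofReal
          have h1 : (0 : ℝ) ≤ p := p.2
          rw [mul_div_assoc', div_le_iff₀ (by positivity)]
          nlinarith
      _ = p := ENNReal.ofReal_coe_nnreal
  have hsub : {ω | ¬ ∃ s : Fin N → ℕ → St d, Function.Injective s ∧
      ∀ i, Ray (cf X ω) (s i)} ⊆ ⋃ n, ⋂ j ≥ n, ⋃ i, bad j i := by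
    intro ω hω
    by_contra hcon
    apply hω
    have hr1 : 0 < r := by omega
    refine rays_of_events (h.cf_bd ω) (tc (mm P X)) w hw0 η r hr1
      (fun i j hij q hq => hgap i j hij r q hr1 hq) ?_
    intro n
    have h1 : ω ∉ ⋂ j ≥ n, ⋃ i, bad j i := fun hh => hcon (Set.mem_iUnion.2 ⟨n, hh⟩)
    simp only [Set.mem_iInter, not_forall] at h1
    obtain ⟨j, hj, h2⟩ := h1
    refine ⟨k j, fun i => lt_of_le_of_lt hj (hk j i), ?_⟩
    intro i q hq hT
    by_contra h3
    apply h2
    refine Set.mem_iUnion.2 ⟨i, ?_⟩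
    intro h4
    exact h3 (h4 q hq hT)
  refine (measure_mono hsub).trans ?_
  have hmono : Monotone fun n => ⋂ j ≥ n, ⋃ i, bad j i := by
    intro n n' hn ω hω
    simp only [Set.mem_iInter] at hω ⊢
    intro j hj
    exact hω j (hn.trans hj)
  rw [hmono.measure_iUnion]
  refine iSup_le fun n => ?_
  refine le_trans (measure_mono ?_) (hE n)
  exact Set.iInter₂_subset n le_rfl

end Pool.Agent.Helper79.GR
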