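import Pool.Agent.Helper79.GR.DA

/-!
# GR-NF: a net of bounded cardinality at every scale

Choose `A : ℕ` with `d / A ≤ κ`, `A ≥ 1`; for `r ≥ A` let `g = r / A ≥ 1` (natural division), so
`r < 2 A g`.  `X r` is the set of the points `g • v` with `|v i| ≤ 2 A + 1` for all `i`
(`Fintype.piFinset`, `Finset.image`), it has at most `(4 A + 3) ^ d` elements.  For `q` take
`v i = q i / g` (integer division): `0 ≤ q i - g v i < g ≤ r / A`.  For `r < A` put `X r = ∅`.
-/

set_option autoImplicit false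

namespace Pool.Agent.Helper79.GR

theorem exists_net (d : ℕ) (κ : ℝ) (hκ : 0 < κ) :
    ∃ (K : ℕ) (X : ℕ → Finset (V d)), (∀ r, (X r).card ≤ K) ∧
      ∃ r₀ : ℕ, ∀ r ≥ r₀, ∀ q : V d, n1 q ≤ r → ∃ x ∈ X r, n1 (x - q) ≤ κ * r := by
  classical
  obtain ⟨A₀, hA₀⟩ := exists_nat_ge ((d : ℝ) / κ)
  obtain ⟨A, hA1, hA⟩ : ∃ A : ℕ, 1 ≤ A ∧ (d : ℝ) ≤ κ * A := by
    refine ⟨A₀ + 1, by omega, ?_⟩
    have h1 := (div_le_iff₀ hκ).1 hA₀
    push_cast
    nlinarith
  refine ⟨(Fintype.piFinset fun _ : Fin d => Finset.Icc (-(2 * (A : ℤ) + 1)) (2 * A + 1)).card,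
    fun r => (Fintype.piFinset fun _ : Fin d =>
      Finset.Icc (-(2 * (A : ℤ) + 1)) (2 * A + 1)).image fun v => ((r / A : ℕ) : ℤ) • v,
    fun r => Finset.card_image_le, A, ?_⟩
  intro r hr q hq
  obtain ⟨g, hg⟩ : ∃ g : ℕ, g = r / A := ⟨_, rfl⟩
  have hg1 : 1 ≤ g := by
    rw [hg]
    exact (Nat.one_le_div_iff (by omega)).2 hr
  have hg2 : g * A ≤ r := by
    rw [hg]
    exact Nat.div_mul_le_self r A
  have hg3 : r < 2 * A * g := by
    have h1 : r < A * (g + 1) := by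
      rw [hg]
      exact Nat.lt_mul_div_succ r (by omega)
    nlinarith
  have hqi : ∀ i, |q i| ≤ (r : ℤ) := by
    intro i
    have h1 : |(q i : ℝ)| ≤ n1 q := by
      unfold n1
      exact Finset.single_le_sum (f := fun i => |(q i : ℝ)|) (fun j _ => abs_nonneg _)
        (Finset.mem_univ i)
    have h2 : |(q i : ℝ)| ≤ (r : ℝ) := h1.trans hq
    exact_mod_cast h2
  have hgz : (0 : ℤ) < (g : ℤ) := by exact_mod_cast hg1
  have hg3z : (r : ℤ) < 2 * A * g := by exact_mod_cast hg3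
  refine ⟨(g : ℤ) • fun i => q i / (g : ℤ), ?_, ?_⟩
  · rw [Finset.mem_image]
    refine ⟨fun i => q i / (g : ℤ), ?_, by rw [hg]⟩
    rw [Fintype.mem_piFinset]
    intro i
    rw [Finset.mem_Icc]
    have h1 := abs_le.1 (hqi i)
    constructor
    · rw [Int.le_ediv_iff_mul_le hgz]
      nlinarith [h1.1]
    · rw [← Int.lt_add_one_iff, Int.ediv_lt_iff_lt_mul hgz]
      nlinarith [h1.2]
  · have h1 : ∀ i, |(((((g : ℤ) • fun i => q i / (g : ℤ)) - q : V d) i : ℤ) : ℝ)| ≤ (g : ℝ) := by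
      intro i
      have h2 : ((((g : ℤ) • fun i => q i / (g : ℤ)) - q : V d) i : ℤ) = -(q i % (g : ℤ)) := by
        show (g : ℤ) * (q i / (g : ℤ)) - q i = _
        have := Int.mul_ediv_add_emod (q i) (g : ℤ)
        linarith
      rw [h2]
      have h3 := Int.emod_nonneg (q i) hgz.ne'
      have h4 := Int.emod_lt_of_pos (q i) hgz
      have h5 : |-(q i % (g : ℤ))| ≤ (g : ℤ) := by
        rw [abs_neg, abs_of_nonneg h3]
        exact h4.le
      exact_mod_cast h5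
    have h2 : n1 ((((g : ℤ) • fun i => q i / (g : ℤ)) - q : V d)) ≤ d * g := by
      unfold n1
      refine (Finset.sum_le_sum fun i _ => h1 i).trans ?_
      rw [Finset.sum_const, Finset.card_univ, Fintype.card_fin, nsmul_eq_mul]
    have h3 : (g : ℝ) * A ≤ r := by exact_mod_cast hg2
    have h4 : (0 : ℝ) ≤ g := Nat.cast_nonneg g
    calc n1 ((((g : ℤ) • fun i => q i / (g : ℤ)) - q : V d)) ≤ d * g := h2
      _ ≤ κ * A * g := mul_le_mul_of_nonneg_right hA h4
      _ = κ * (g * A) := by ring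
      _ ≤ κ * r := mul_le_mul_of_nonneg_left h3 hκ.le

end Pool.Agent.Helper79.GR
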