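import Pool.Agent.Helper79.GR.RC

/-!
# GR-RJ: Markov's inequality for good targets

For each `x ∈ A` the function
`F x = T x (x + r • w) + T (x + r • w) z - T x z ≥ 0`, `z = (k + 1) • (r • w)`, has mean
`mm (r • w) + mm (k • (r • w) - x) - mm ((k + 1) • (r • w) - x) ≤ δ` (`integral_T`;
`z - (x + r • w) = k • (r • w) - x`).  `P (F x > δ') ≤ δ / δ'`; union bound.
-/

set_option autoImplicit false

namespace Pool.Agent.Helper79.GR

open MeasureTheory ProbabilityTheory

variable {Ω : Type*} [MeasurableSpace Ω] {d : ℕ} {P : Measure Ω} {X : Edge d → Ω → ℝ}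
  {ν : Measure ℝ} {a b : ℝ}

theorem markov_targets (h : Env P X ν a b) (w : V d) (r k : ℕ) (A : Finset (V d))
    (δ δ' : ℝ) (hδ' : 0 < δ')
    (hk : ∀ x ∈ A, mm P X (r • w) + mm P X (k • (r • w) - x) -
      mm P X ((k + 1) • (r • w) - x) ≤ δ) :
    P.real {ω | ∃ x ∈ A, T (cf X ω) x ((k + 1) • (r • w)) <
      T (cf X ω) x (x + r • w) + T (cf X ω) (x + r • w) ((k + 1) • (r • w)) - δ'} ≤
      A.card * δ / δ' := by
  have := h.prob
  set z : V d := (k + 1) • (r • w) with hz
  have hF0 : ∀ (x : V d) (ω : Ω), 0 ≤ T (cf X ω) x (x + r • w) +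
      T (cf X ω) (x + r • w) z - T (cf X ω) x z := fun x ω => by
    have h1 := T_triangle (h.cf_bd ω) x (x + r • w) z
    linarith
  have hFi : ∀ x : V d, Integrable (fun ω => T (cf X ω) x (x + r • w) +
      T (cf X ω) (x + r • w) z - T (cf X ω) x z) P := fun x =>
    ((integrable_T h _ _).add (integrable_T h _ _)).sub (integrable_T h _ _)
  have hint : ∀ x ∈ A, ∫ ω, (T (cf X ω) x (x + r • w) +
      T (cf X ω) (x + r • w) z - T (cf X ω) x z) ∂P ≤ δ := by
    intro x hx
    have hadd : Integrable (fun ω => T (cf X ω) x (x + r • w) + T (cf X ω) (x + r • w) z) P :=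
      (integrable_T h _ _).add (integrable_T h _ _)
    rw [integral_sub hadd (integrable_T h _ _),
      integral_add (integrable_T h _ _) (integrable_T h _ _), integral_T h, integral_T h,
      integral_T h]
    have h1 : x + r • w - x = r • w := by abel
    have h2 : z - (x + r • w) = k • (r • w) - x := by
      rw [hz, succ_nsmul]
      abel
    rw [h1, h2]
    exact hk x hx
  have hmk : ∀ x ∈ A, P.real {ω | δ' ≤ T (cf X ω) x (x + r • w) +
      T (cf X ω) (x + r • w) z - T (cf X ω) x z} ≤ δ / δ' := by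
    intro x hx
    have h1 := mul_meas_ge_le_integral_of_nonneg (μ := P)
      (f := fun ω => T (cf X ω) x (x + r • w) + T (cf X ω) (x + r • w) z - T (cf X ω) x z)
      (Filter.Eventually.of_forall fun ω => hF0 x ω) (hFi x) δ'
    rw [le_div_iff₀ hδ', mul_comm]
    exact h1.trans (hint x hx)
  have hsub : {ω | ∃ x ∈ A, T (cf X ω) x z <
      T (cf X ω) x (x + r • w) + T (cf X ω) (x + r • w) z - δ'} ⊆
      ⋃ x ∈ A, {ω | δ' ≤ T (cf X ω) x (x + r • w) +
        T (cf X ω) (x + r • w) z - T (cf X ω) x z} := by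
    rintro ω ⟨x, hx, hlt⟩
    rw [Set.mem_iUnion₂]
    refine ⟨x, hx, ?_⟩
    change δ' ≤ _
    linarith
  calc P.real {ω | ∃ x ∈ A, T (cf X ω) x z <
      T (cf X ω) x (x + r • w) + T (cf X ω) (x + r • w) z - δ'}
      ≤ P.real (⋃ x ∈ A, {ω | δ' ≤ T (cf X ω) x (x + r • w) +
        T (cf X ω) (x + r • w) z - T (cf X ω) x z}) := measureReal_mono hsub (measure_ne_top _ _)
    _ ≤ ∑ x ∈ A, P.real {ω | δ' ≤ T (cf X ω) x (x + r • w) +
        T (cf X ω) (x + r • w) z - T (cf X ω) x z} := measureReal_biUnion_finset_le _ _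
    _ ≤ ∑ _x ∈ A, δ / δ' := Finset.sum_le_sum hmk
    _ = A.card * δ / δ' := by rw [Finset.sum_const, nsmul_eq_mul, mul_div_assoc]

end Pool.Agent.Helper79.GR
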