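import Pool.Agent.Helper79.GR.DF
import Pool.Agent.Helper79.GR.DE

/-!
# GR-FA: from steps to the rays of the frozen statement
-/

set_option autoImplicit false

namespace Pool.Agent.Helper79.GR

private theorem FA_sv_apply {d : ℕ} (s : St d) : sv s s.1 ≠ 0 := by
  rcases s with ⟨i, _ | _⟩ <;> simp [sv]

private theorem FA_sv_inj {d : ℕ} {s s' : St d} (h : sv s = sv s') : s = s' := by
  have h1 : s.1 = s'.1 := by
    by_contra hne
    have h2 := congrFun h s.1
    have h3 : sv s' s.1 = 0 := Pi.single_eq_of_ne hne _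
    rw [h3] at h2
    exact FA_sv_apply s h2
  rcases s with ⟨i, b⟩
  rcases s' with ⟨i', b'⟩
  have h1' : i = i' := h1
  subst h1'
  have h2 := congrFun h i
  simp only [sv, Pi.single_eq_same] at h2
  cases b <;> cases b' <;> simp_all

private theorem FA_near {d : ℕ} {x y : V d} (h : ∑ i, |x i - y i| = 1) :
    ∃ s : St d, y = x + sv s := by
  obtain ⟨i, hi⟩ : ∃ i, x i ≠ y i := by
    by_contra hcon
    push Not at hcon
    rw [Finset.sum_eq_zero (fun i _ => by rw [hcon i, sub_self, abs_zero])] at h
    exact zero_ne_one h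
  have h1 : 1 ≤ |x i - y i| := Int.one_le_abs (sub_ne_zero.2 hi)
  have h2 := Finset.add_sum_erase Finset.univ (fun j => |x j - y j|) (Finset.mem_univ i)
  have h3 : 0 ≤ ∑ j ∈ Finset.univ.erase i, |x j - y j| :=
    Finset.sum_nonneg fun j _ => abs_nonneg _
  have h2' : |x i - y i| + ∑ j ∈ Finset.univ.erase i, |x j - y j| = 1 := h2.trans h
  have h4 : ∑ j ∈ Finset.univ.erase i, |x j - y j| = 0 := by omega
  have h5 : |x i - y i| = 1 := by omega
  rw [Finset.sum_eq_zero_iff_of_nonneg (fun j _ => abs_nonneg _)] at h4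
  have h6 : ∀ j, j ≠ i → y j = x j := by
    intro j hj
    have h7 := h4 j (Finset.mem_erase.2 ⟨hj, Finset.mem_univ _⟩)
    have h8 := abs_eq_zero.1 h7
    omega
  rcases abs_eq (zero_le_one) |>.1 h5 with h7 | h7
  · refine ⟨(i, false), funext fun j => ?_⟩
    by_cases hj : j = i
    · subst hj
      simp only [sv, Pi.add_apply, Pi.single_eq_same]
      simp
      omega
    · rw [h6 j hj]
      simp [sv, hj]
  · refine ⟨(i, true), funext fun j => ?_⟩
    by_cases hj : j = i
    · subst hj
      simp only [sv, Pi.add_apply, Pi.single_eq_same]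
      simp
      omega
    · rw [h6 j hj]
      simp [sv, hj]

private theorem FA_walk {d : ℕ} {c : Edge d → ℝ} (t : Sym2 (Fin d → ℤ) → ℝ)
    (ht : ∀ e : Edge d, t e.1 = c e) (q : ℕ → V d) (u : ℕ → St d) (L : ℕ)
    (hq : ∀ k < L, q (k + 1) = q k + sv (u k)) :
    pos (q 0) (pre u L) = q L ∧
      cost c (q 0) (pre u L) = ∑ k ∈ Finset.range L, t s(q k, q (k + 1)) := by
  induction L with
  | zero => exact ⟨rfl, rfl⟩
  | succ L ih =>
    obtain ⟨h1, h2⟩ := ih fun k hk => hq k (by omega)
    have h3 : pre u (L + 1) = pre u L ++ [u L] := by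
      unfold pre
      rw [List.range_succ, List.map_append]
      rfl
    have h4 := hq L (by omega)
    constructor
    · rw [h3, pos_append, h1, h4]
      rfl
    · rw [h3, cost_append, h1, h2, Finset.sum_range_succ]
      congr 1
      show c (ed (q L) (u L)) + 0 = _
      rw [add_zero, ← ht, h4]
      rfl

/-- `γ k = pos 0 (pre s k)`.  Injective by `Geo.pos_inj`.  For the minimality: a path
`q 0, …, q L` with nearest neighbour steps gives a walk `w'` from `γ m` to `γ n` with cost
`∑ k ∈ range L, t s(q k, q (k + 1))` (every nearest neighbour step is `sv s` for some `s`), and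
`pre s m ++ w'` competes with `pre s n`.  Different step sequences give different `γ`. -/
theorem rays_to_paths {d : ℕ} {a b : ℝ} {c : Edge d → ℝ} (hb : Bd a b c)
    (t : Sym2 (Fin d → ℤ) → ℝ) (ht : ∀ e : Edge d, t e.1 = c e) (N : ℕ)
    (s : Fin N → ℕ → St d) (hs : Function.Injective s) (hr : ∀ i, Ray c (s i)) :
    (N : ℕ∞) ≤ Set.encard {γ : ℕ → (Fin d → ℤ) |
        γ 0 = 0 ∧ Function.Injective γ ∧
        (∀ k, ∑ i, |γ k i - γ (k + 1) i| = 1) ∧
        ∀ m n : ℕ, m ≤ n →
          ∀ (L : ℕ) (q : ℕ → (Fin d → ℤ)), q 0 = γ m → q L = γ n →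
            (∀ k < L, ∑ i, |q k i - q (k + 1) i| = 1) →
            ∑ k ∈ Finset.range (n - m), t s(γ (m + k), γ (m + k + 1)) ≤
              ∑ k ∈ Finset.range L, t s(q k, q (k + 1))} := by
  let γ : Fin N → ℕ → V d := fun i k => pos 0 (pre (s i) k)
  have hpre : ∀ (u : ℕ → St d) (L : ℕ), pre u (L + 1) = pre u L ++ [u L] := by
    intro u L
    unfold pre
    rw [List.range_succ, List.map_append]
    rfl
  have hstep : ∀ i k, γ i (k + 1) = γ i k + sv (s i k) := by
    intro i k
    show pos 0 (pre (s i) (k + 1)) = _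
    rw [hpre, pos_append]
    rfl
  have hlen : ∀ (u : ℕ → St d) (L : ℕ), (pre u L).length = L := by
    intro u L
    simp [pre]
  have htake : ∀ (u : ℕ → St d) (i j : ℕ), i ≤ j → (pre u j).take i = pre u i := by
    intro u i j hij
    unfold pre
    rw [← List.map_take, List.take_range, min_eq_left hij]
  have hinj : Function.Injective γ := by
    intro i j hij
    apply hs
    funext k
    apply FA_sv_inj
    have h1 := hstep i k
    have h2 := hstep j k
    rw [← hij] at h2
    exact add_left_cancel (h1.symm.trans h2)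
  have hmem : ∀ i, γ i ∈ {γ : ℕ → (Fin d → ℤ) |
        γ 0 = 0 ∧ Function.Injective γ ∧
        (∀ k, ∑ i, |γ k i - γ (k + 1) i| = 1) ∧
        ∀ m n : ℕ, m ≤ n →
          ∀ (L : ℕ) (q : ℕ → (Fin d → ℤ)), q 0 = γ m → q L = γ n →
            (∀ k < L, ∑ i, |q k i - q (k + 1) i| = 1) →
            ∑ k ∈ Finset.range (n - m), t s(γ (m + k), γ (m + k + 1)) ≤
              ∑ k ∈ Finset.range L, t s(q k, q (k + 1))} := by
    intro i
    refine ⟨rfl, ?_, ?_, ?_⟩
    · have key : ∀ m n, m < n → γ i m ≠ γ i n := by
        intro m n hmn h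
        have h1 := Geo.pos_inj hb (hr i n) hmn (by rw [hlen])
        rw [htake _ _ _ hmn.le, htake _ _ _ (le_refl n)] at h1
        exact h1 h
      intro m n h
      rcases lt_trichotomy m n with h1 | h1 | h1
      · exact absurd h (key m n h1)
      · exact h1
      · exact absurd h.symm (key n m h1)
    · intro k
      rw [hstep]
      exact sum_sv _ _
    · intro m n hmn L q hq0 hqL hq
      have hex : ∀ k, ∃ u : St d, k < L → q (k + 1) = q k + sv u := by
        intro k
        by_cases hk : k < L
        · obtain ⟨u, hu⟩ := FA_near (hq k hk)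
          exact ⟨u, fun _ => hu⟩
        · exact ⟨s i 0, fun h => absurd h hk⟩
      choose u hu using hex
      obtain ⟨h1, h2⟩ := FA_walk t ht q u L hu
      obtain ⟨h3, h4⟩ := FA_walk t ht (fun k => γ i (m + k)) (fun k => s i (m + k)) (n - m)
        (fun k _ => hstep i (m + k))
      have h5 : pre (s i) n = pre (s i) m ++ pre (fun k => s i (m + k)) (n - m) := by
        unfold pre
        conv_lhs => rw [show n = m + (n - m) by omega, List.range_add, List.map_append,
          List.map_map]
        rfl
      have h6 := hr i n (pre (s i) m ++ pre u L) (by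
        rw [pos_append]
        show pos (γ i m) (pre u L) = γ i n
        rw [← hq0, h1, hqL])
      rw [h5, cost_append, cost_append] at h6
      have h7 : cost c (γ i m) (pre (fun k => s i (m + k)) (n - m)) ≤
          cost c (γ i m) (pre u L) := le_of_add_le_add_left h6
      rw [← hq0, h2] at h7
      have h8 : cost c (q 0) (pre (fun k => s i (m + k)) (n - m)) =
          ∑ k ∈ Finset.range (n - m), t s(γ i (m + k), γ i (m + (k + 1))) := by
        rw [hq0]
        exact h4
      rw [h8] at h7
      exact h7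
  calc (N : ℕ∞) ≤ (Set.range γ).encard := by
        have h := hinj.encard_range
        simpa using h
    _ ≤ _ := Set.encard_le_encard (by
        rintro _ ⟨i, rfl⟩
        exact hmem i)

end Pool.Agent.Helper79.GR
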