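import Pool.Agent.Helper79.GR.DB
import Pool.Agent.Helper79.GR.NC

/-!
# GR-RK: a point of a geodesic shares a face with the direction of the target

`T 0 x ≤ T 0 q + b κ` and `T x z ≤ b κ + T q z`, so
`T 0 z = T 0 q + T q z ≥ T 0 x + T x z - 2 b κ ≥ μ x + r μ w + T (x + r • w) z - 3 δ - 2 b κ`, and
`T 0 z ≤ T 0 (x + r • w) + T (x + r • w) z ≤ μ (x + r w) + δ + T (x + r • w) z`.  Then replace `x`
by `q` (`hμ`; `nr (rv x - rv q) = n1 (x - q)`).

(`0 ≤ b` is needed only for `d = 0`; see `Bd.hi_nonneg` for `d ≥ 1`.)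
-/

set_option autoImplicit false

namespace Pool.Agent.Helper79.GR

theorem Bd.hi_nonneg {d : ℕ} {a b : ℝ} {c : Edge d → ℝ} (h : Bd a b c) (i : Fin d) : 0 ≤ b := by
  have := h.2 (ed 0 (i, true))
  have h0 := h.1
  linarith [this.1, this.2]

theorem chain {d : ℕ} {a b : ℝ} {c : Edge d → ℝ} (h : Bd a b c) (μ : (Fin d → ℝ) → ℝ)
    (hμ : ∀ x y, |μ x - μ y| ≤ b * nr (x - y)) (w q x z : V d) (r : ℕ) (κ δ : ℝ)
    (hq : T c 0 q + T c q z = T c 0 z) (hx : n1 (x - q) ≤ κ)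
    (h1 : T c x (x + r • w) + T c (x + r • w) z - δ ≤ T c x z)
    (h2 : r * μ (rv w) - δ ≤ T c x (x + r • w))
    (h3 : |T c 0 x - μ (rv x)| ≤ δ) (h4 : |T c 0 (x + r • w) - μ (rv (x + r • w))| ≤ δ)
    (hb : 0 ≤ b) :
    μ (rv q) + r * μ (rv w) - μ (rv q + (r : ℝ) • rv w) ≤ 4 * δ + 4 * b * κ := by
  have e1 : T c 0 x ≤ T c 0 q + b * κ := by
    have t1 := T_triangle h 0 q x
    have t2 := T_le h q x
    have t3 : b * n1 (x - q) ≤ b * κ := mul_le_mul_of_nonneg_left hx hb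
    linarith
  have e2 : T c x z ≤ b * κ + T c q z := by
    have t1 := T_triangle h x q z
    have t2 := T_le h x q
    have t3 : b * n1 (q - x) ≤ b * κ := by
      rw [n1_sub_comm]
      exact mul_le_mul_of_nonneg_left hx hb
    linarith
  have e3 := T_triangle h 0 (x + r • w) z
  have h3' := abs_le.1 h3
  have h4' := abs_le.1 h4
  have m1 : |μ (rv q) - μ (rv x)| ≤ b * κ := by
    refine (hμ _ _).trans (mul_le_mul_of_nonneg_left ?_ hb)
    have : nr (rv q - rv x) = n1 (x - q) := by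
      unfold nr n1 rv
      refine Finset.sum_congr rfl fun i _ => ?_
      rw [Pi.sub_apply, Pi.sub_apply, Int.cast_sub, abs_sub_comm]
    rw [this]
    exact hx
  have m2 : |μ (rv (x + r • w)) - μ (rv q + (r : ℝ) • rv w)| ≤ b * κ := by
    refine (hμ _ _).trans (mul_le_mul_of_nonneg_left ?_ hb)
    have : nr (rv (x + r • w) - (rv q + (r : ℝ) • rv w)) = n1 (x - q) := by
      rw [rv_add, rv_nsmul]
      unfold nr n1 rv
      refine Finset.sum_congr rfl fun i _ => ?_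
      congr 1
      simp only [Pi.sub_apply, Pi.add_apply, Pi.smul_apply, smul_eq_mul, Int.cast_sub]
      ring
    rw [this]
    exact hx
  have m1' := abs_le.1 m1
  have m2' := abs_le.1 m2
  linarith [m1'.1, m1'.2, m2'.1, m2'.2, h3'.1, h3'.2, h4'.1, h4'.2]

end Pool.Agent.Helper79.GR
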