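import Mathlib

/-!
# GR-BA: the first absolute moment of a sum of independent bounded variables

Fourth moment: `E S ^ 4 ≤ 3 n ^ 2` by induction on `n` (`E (S + Y) ^ 4 = E S ^ 4 + 6 E S ^ 2 E Y ^ 2
+ E Y ^ 4 ≤ 3 n ^ 2 + 6 n + 1`, the other terms vanish because `S` and `Y` are independent
(`iIndepFun.indepFun_finsetSum_of_notMem`) and `E Y = E S = 0`).  `E S ^ 2 ≥ n κ`.  For all real `s` and `l > 0`:
`|s| ≥ s ^ 2 / l - s ^ 4 / (4 l ^ 3)` (for `u = |s| / l`: `u ^ 2 ≤ u + u ^ 4 / 4` because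
`4 u (u - 1) ≤ (2 u - 1) ^ 2 ≤ u ^ 4` for `u ≥ 1`).  Take `l = A √n` with `A ^ 2 = 3 / (2 κ)`:
`E |S| ≥ √n κ ^ (3 / 2) / √6 ≥ κ ^ 2 / 3 * √n` (`κ ≤ 1`).
-/

set_option autoImplicit false

namespace Pool.Agent.Helper79.GR

open MeasureTheory ProbabilityTheory

private theorem int_pow {Ω : Type*} [MeasurableSpace Ω] (P : Measure Ω) [IsProbabilityMeasure P]
    {S Z : Ω → ℝ} {M : ℝ} (hS : Measurable S) (hZ : Measurable Z) (hM : ∀ ω, |S ω| ≤ M)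
    (hZ1 : ∀ ω, |Z ω| ≤ 1) (a b : ℕ) : Integrable (fun ω => S ω ^ a * Z ω ^ b) P := by
  refine Integrable.of_bound ((hS.pow_const a).mul (hZ.pow_const b)).aestronglyMeasurable (M ^ a)
    (Filter.Eventually.of_forall fun ω => ?_)
  rw [Real.norm_eq_abs, abs_mul, abs_pow, abs_pow]
  have h1 : |S ω| ^ a ≤ M ^ a := pow_le_pow_left₀ (abs_nonneg _) (hM ω) a
  have h2 : |Z ω| ^ b ≤ 1 := pow_le_one₀ (abs_nonneg _) (hZ1 ω)
  calc |S ω| ^ a * |Z ω| ^ b ≤ |S ω| ^ a * 1 :=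
        mul_le_mul_of_nonneg_left h2 (pow_nonneg (abs_nonneg _) a)
    _ ≤ M ^ a := by rwa [mul_one]

private theorem ind_pow {Ω : Type*} [MeasurableSpace Ω] (P : Measure Ω) [IsProbabilityMeasure P]
    {S Z : Ω → ℝ} (hS : Measurable S) (hZ : Measurable Z) (hI : IndepFun S Z P) (a b : ℕ) :
    ∫ ω, S ω ^ a * Z ω ^ b ∂P = (∫ ω, S ω ^ a ∂P) * ∫ ω, Z ω ^ b ∂P :=
  hI.integral_fun_comp_mul_comp (f := fun x : ℝ => x ^ a) (g := fun x : ℝ => x ^ b)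
    hS.aemeasurable hZ.aemeasurable
    (measurable_id.pow_const a).aestronglyMeasurable
    (measurable_id.pow_const b).aestronglyMeasurable

private theorem step {Ω : Type*} [MeasurableSpace Ω] (P : Measure Ω) [IsProbabilityMeasure P]
    {S Z : Ω → ℝ} {M : ℝ} (hS : Measurable S) (hZ : Measurable Z) (hM : ∀ ω, |S ω| ≤ M)
    (hZ1 : ∀ ω, |Z ω| ≤ 1) (hI : IndepFun S Z P) (hS0 : ∫ ω, S ω ∂P = 0)
    (hZ0 : ∫ ω, Z ω ∂P = 0) :
    ∫ ω, (S ω + Z ω) ∂P = 0 ∧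
    ∫ ω, (S ω + Z ω) ^ 2 ∂P = ∫ ω, S ω ^ 2 ∂P + ∫ ω, Z ω ^ 2 ∂P ∧
    ∫ ω, (S ω + Z ω) ^ 4 ∂P = ∫ ω, S ω ^ 4 ∂P + 6 * ((∫ ω, S ω ^ 2 ∂P) * ∫ ω, Z ω ^ 2 ∂P) +
      ∫ ω, Z ω ^ 4 ∂P := by
  have hint := int_pow P hS hZ hM hZ1
  have hind := ind_pow P hS hZ hI
  have hiS : ∀ a, Integrable (fun ω => S ω ^ a) P := fun a => by
    simpa using hint a 0
  have hiZ : ∀ b, Integrable (fun ω => Z ω ^ b) P := fun b => by
    simpa using hint 0 b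
  have hS1 : ∫ ω, S ω ^ 1 ∂P = 0 := by simpa using hS0
  have hZ1' : ∫ ω, Z ω ^ 1 ∂P = 0 := by simpa using hZ0
  refine ⟨?_, ?_, ?_⟩
  · have h1 := integral_add (hiS 1) (hiZ 1)
    simp only [pow_one] at h1
    rw [h1, hS0, hZ0, add_zero]
  · have e : (fun ω => (S ω + Z ω) ^ 2) =
        fun ω => (S ω ^ 2 + Z ω ^ 2) + 2 * (S ω ^ 1 * Z ω ^ 1) := by
      funext ω
      ring
    have i1 : Integrable (fun ω => S ω ^ 2 + Z ω ^ 2) P := (hiS 2).add (hiZ 2)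
    rw [e, integral_add i1 ((hint 1 1).const_mul 2),
      integral_add (hiS 2) (hiZ 2), integral_const_mul, hind 1 1, hS1]
    ring
  · have e : (fun ω => (S ω + Z ω) ^ 4) =
        fun ω => ((S ω ^ 4 + 6 * (S ω ^ 2 * Z ω ^ 2)) + Z ω ^ 4) +
          (4 * (S ω ^ 3 * Z ω ^ 1) + 4 * (S ω ^ 1 * Z ω ^ 3)) := by
      funext ω
      ring
    have i1 : Integrable (fun ω => S ω ^ 4 + 6 * (S ω ^ 2 * Z ω ^ 2)) P :=
      (hiS 4).add ((hint 2 2).const_mul 6)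
    have i2 : Integrable (fun ω => (S ω ^ 4 + 6 * (S ω ^ 2 * Z ω ^ 2)) + Z ω ^ 4) P :=
      i1.add (hiZ 4)
    have i3 : Integrable (fun ω => 4 * (S ω ^ 3 * Z ω ^ 1) + 4 * (S ω ^ 1 * Z ω ^ 3)) P :=
      ((hint 3 1).const_mul 4).add ((hint 1 3).const_mul 4)
    rw [e, integral_add i2 i3, integral_add i1 (hiZ 4),
      integral_add (hiS 4) ((hint 2 2).const_mul 6),
      integral_add ((hint 3 1).const_mul 4) ((hint 1 3).const_mul 4),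
      integral_const_mul, integral_const_mul, integral_const_mul, hind 2 2, hind 3 1, hind 1 3,
      hS1, hZ1']
    ring

private theorem moments {Ω ι : Type*} [MeasurableSpace Ω] (P : Measure Ω)
    [IsProbabilityMeasure P] (Y : ι → Ω → ℝ) (hm : ∀ i, Measurable (Y i))
    (hi : iIndepFun Y P) (hb : ∀ i ω, |Y i ω| ≤ 1) (h0 : ∀ i, ∫ ω, Y i ω ∂P = 0) (κ : ℝ)
    (hv : ∀ i, κ ≤ ∫ ω, Y i ω ^ 2 ∂P) (s : Finset ι) :
    (∀ ω, |∑ i ∈ s, Y i ω| ≤ s.card) ∧ ∫ ω, ∑ i ∈ s, Y i ω ∂P = 0 ∧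
      κ * s.card ≤ ∫ ω, (∑ i ∈ s, Y i ω) ^ 2 ∂P ∧
      ∫ ω, (∑ i ∈ s, Y i ω) ^ 2 ∂P ≤ s.card ∧
      ∫ ω, (∑ i ∈ s, Y i ω) ^ 4 ∂P ≤ 3 * (s.card : ℝ) ^ 2 := by
  classical
  have hk : ∀ i k, ∫ ω, Y i ω ^ (2 * k) ∂P ≤ 1 := by
    intro i k
    have h1 : ∫ ω, Y i ω ^ (2 * k) ∂P ≤ ∫ _, (1 : ℝ) ∂P := by
      refine integral_mono ?_ (integrable_const _) fun ω => ?_
      · simpa using int_pow P (hm i) (hm i) (hb i) (hb i) (2 * k) 0
      · show Y i ω ^ (2 * k) ≤ 1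
        rw [pow_mul, ← sq_abs, ← pow_mul]
        exact pow_le_one₀ (abs_nonneg _) (hb i ω)
    simpa using h1
  induction s using Finset.induction_on with
  | empty => simp
  | insert j s hj ih =>
    obtain ⟨ih1, ih2, ih3, ih4, ih5⟩ := ih
    have hms : Measurable fun ω => ∑ i ∈ s, Y i ω := Finset.measurable_fun_sum s fun i _ => hm i
    have hI : IndepFun (fun ω => ∑ i ∈ s, Y i ω) (Y j) P := by
      have h := hi.indepFun_finsetSum_of_notMem hm hj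
      convert h using 1
      funext ω
      rw [Finset.sum_apply]
    obtain ⟨h1, h2, h3⟩ := step P hms (hm j) ih1 (hb j) hI ih2 (h0 j)
    have hsum : ∀ ω, ∑ i ∈ insert j s, Y i ω = ∑ i ∈ s, Y i ω + Y j ω := fun ω => by
      rw [Finset.sum_insert hj, add_comm]
    have hcard : ((insert j s).card : ℝ) = s.card + 1 := by
      rw [Finset.card_insert_of_notMem hj]
      push_cast
      rfl
    simp only [hsum, hcard]
    have hk2 := hk j 1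
    have hk4 := hk j 2
    have hv2 := hv j
    norm_num at hk2 hk4
    have hnn : 0 ≤ ∫ ω, Y j ω ^ 2 ∂P := integral_nonneg fun ω => sq_nonneg _
    have hcn : (0 : ℝ) ≤ s.card := Nat.cast_nonneg _
    refine ⟨fun ω => ?_, h1, ?_, ?_, ?_⟩
    · refine (abs_add_le _ _).trans (add_le_add (ih1 ω) (hb j ω))
    · rw [h2]
      linarith
    · rw [h2]
      linarith
    · rw [h3]
      have h4 : (∫ ω, (∑ i ∈ s, Y i ω) ^ 2 ∂P) * ∫ ω, Y j ω ^ 2 ∂P ≤ s.card * 1 :=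
        mul_le_mul ih4 hk2 hnn hcn
      nlinarith

private theorem point (a t : ℝ) (ha : 0 ≤ a) :
    a * t ^ 2 - a ^ 3 / 4 * t ^ 4 ≤ |t| := by
  have h1 : ∀ u : ℝ, 0 ≤ u → 0 ≤ u ^ 3 - 4 * u + 4 := by
    intro u hu
    nlinarith [mul_nonneg (by linarith : (0 : ℝ) ≤ u + 2.4) (sq_nonneg (u - 1.2))]
  have h2 := h1 (a * |t|) (mul_nonneg ha (abs_nonneg t))
  have h3 := mul_nonneg (abs_nonneg t) h2
  have e2 : t ^ 2 = |t| ^ 2 := (sq_abs t).symm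
  have e4 : t ^ 4 = |t| ^ 4 := by
    rw [show t ^ 4 = (t ^ 2) ^ 2 by ring, e2]
    ring
  rw [e2, e4]
  nlinarith

theorem abs_sum_lower {Ω ι : Type*} [MeasurableSpace Ω] (P : Measure Ω)
    [IsProbabilityMeasure P] (s : Finset ι) (Y : ι → Ω → ℝ) (hm : ∀ i, Measurable (Y i))
    (hi : iIndepFun Y P) (hb : ∀ i ω, |Y i ω| ≤ 1) (h0 : ∀ i, ∫ ω, Y i ω ∂P = 0) (κ : ℝ)
    (hκ : 0 < κ) (hv : ∀ i, κ ≤ ∫ ω, Y i ω ^ 2 ∂P) :
    κ ^ 2 / 3 * √(s.card : ℝ) ≤ ∫ ω, |∑ i ∈ s, Y i ω| ∂P := by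
  obtain ⟨m1, m2, m3, m4, m5⟩ := moments P Y hm hi hb h0 κ hv s
  have hms : Measurable fun ω => ∑ i ∈ s, Y i ω := Finset.measurable_fun_sum s fun i _ => hm i
  have hpow : ∀ k, Integrable (fun ω => (∑ i ∈ s, Y i ω) ^ k) P := fun k => by
    have h := int_pow P (Z := fun _ => (0 : ℝ)) hms measurable_const m1
      (fun ω => by rw [abs_zero]; exact zero_le_one) k 0
    refine h.congr (Filter.Eventually.of_forall fun ω => ?_)
    show (∑ i ∈ s, Y i ω) ^ k * (0 : ℝ) ^ 0 = (∑ i ∈ s, Y i ω) ^ k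
    rw [pow_zero, mul_one]
  have habs : Integrable (fun ω => |∑ i ∈ s, Y i ω|) P := by
    have h := (hpow 1).abs
    simpa only [pow_one] using h
  rcases Nat.eq_zero_or_pos s.card with hs | hs
  · rw [hs, Nat.cast_zero, Real.sqrt_zero, mul_zero]
    exact integral_nonneg fun ω => abs_nonneg _
  have hn : (0 : ℝ) < s.card := by exact_mod_cast hs
  have hκ1 : κ ≤ 1 := by
    have h := m3.trans m4
    by_contra h'
    nlinarith
  obtain ⟨r, hr⟩ : ∃ r : ℝ, r = √(s.card : ℝ) := ⟨_, rfl⟩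
  have hr0 : 0 < r := by
    rw [hr]
    exact Real.sqrt_pos.2 hn
  have hr2 : (s.card : ℝ) = r ^ 2 := by
    rw [hr]
    exact (Real.sq_sqrt hn.le).symm
  rw [← hr]
  have hpos : 0 < 2 * κ / (3 * r) := by
    refine div_pos (mul_pos two_pos hκ) (mul_pos three_pos hr0)
  have hpos3 : 0 ≤ (2 * κ / (3 * r)) ^ 3 / 4 := div_nonneg (pow_nonneg hpos.le 3) (by norm_num)
  have key : ∫ ω, (2 * κ / (3 * r) * (∑ i ∈ s, Y i ω) ^ 2 -
      (2 * κ / (3 * r)) ^ 3 / 4 * (∑ i ∈ s, Y i ω) ^ 4) ∂P ≤ ∫ ω, |∑ i ∈ s, Y i ω| ∂P := by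
    refine integral_mono (((hpow 2).const_mul _).sub ((hpow 4).const_mul _)) habs fun ω => ?_
    exact point (2 * κ / (3 * r)) (∑ i ∈ s, Y i ω) hpos.le
  rw [integral_sub ((hpow 2).const_mul _) ((hpow 4).const_mul _), integral_const_mul,
    integral_const_mul] at key
  refine le_trans ?_ key
  rw [hr2] at m3 m5
  have h1 : 2 * κ / (3 * r) * (κ * r ^ 2) ≤
      2 * κ / (3 * r) * ∫ ω, (∑ i ∈ s, Y i ω) ^ 2 ∂P :=
    mul_le_mul_of_nonneg_left m3 hpos.le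
  have h2 : (2 * κ / (3 * r)) ^ 3 / 4 * ∫ ω, (∑ i ∈ s, Y i ω) ^ 4 ∂P ≤
      (2 * κ / (3 * r)) ^ 3 / 4 * (3 * (r ^ 2) ^ 2) :=
    mul_le_mul_of_nonneg_left m5 hpos3
  have e1 : 2 * κ / (3 * r) * (κ * r ^ 2) = 2 * κ ^ 2 / 3 * r := by
    field_simp
  have e2 : (2 * κ / (3 * r)) ^ 3 / 4 * (3 * (r ^ 2) ^ 2) = 2 * κ ^ 3 / 9 * r := by
    field_simp
    ring
  rw [e1] at h1
  rw [e2] at h2
  have h3 : 2 * κ ^ 3 / 9 * r ≤ κ ^ 2 / 3 * r := by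
    refine mul_le_mul_of_nonneg_right ?_ hr0.le
    have : κ ^ 3 ≤ κ ^ 2 := pow_le_pow_of_le_one hκ.le hκ1 (by norm_num)
    nlinarith [sq_nonneg κ]
  linarith

end Pool.Agent.Helper79.GR
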