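import Pool.Agent.Helper79.GR.RC
import Pool.Agent.Helper79.GR.BA

/-!
# GR-BB: upper bound for the expected passage time, by two walks

`w₁ = replicate M (i₀, true) ++ [s]`, `w₂ = s :: replicate M (i₀, true)`, both from `0` to
`M • sv (i₀, true) + sv s`; their `2 M + 2` edges are different.  `T ≤ min (cost w₁) (cost w₂) =
(cost w₁ + cost w₂ - |cost w₁ - cost w₂|) / 2`; the means of the costs are `M + 1` (`hmean`), and
`cost w₁ - cost w₂` is `ε` times a sum of `2 M + 2` independent variables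
`± (X e - 1) / ε ∈ [-1, 1]` with mean `0` and second moment at least `κ`:
`abs_sum_lower` (for the variables `Y e = σ e * (X e - 1) / ε`, `σ e = ± 1`, `e ∈ eds w₁ ∪ eds w₂`).
-/

set_option autoImplicit false

namespace Pool.Agent.Helper79.GR

open MeasureTheory ProbabilityTheory

variable {Ω : Type*} [MeasurableSpace Ω] {d : ℕ} {P : Measure Ω} {X : Edge d → Ω → ℝ}
  {ν : Measure ℝ} {ε : ℝ}

/-- the mean of a weight -/
theorem mean_weight (h : Env P X ν (1 - ε) (1 + ε)) (hmean : ∫ x, x ∂ν = 1) (e : Edge d) :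
    ∫ ω, X e ω ∂P = 1 := by
  rw [← hmean, ← h.law e, integral_map (h.meas e).aemeasurable
    (measurable_id.aestronglyMeasurable (f := fun x : ℝ => x))]

private theorem BB_int (h : Env P X ν (1 - ε) (1 + ε)) (e : Edge d) : Integrable (X e) P := by
  have := h.prob
  refine Integrable.of_bound (h.meas e).aestronglyMeasurable (1 + ε)
    (Filter.Eventually.of_forall fun ω => ?_)
  have h1 := h.bd e ω
  have h0 := h.apos
  rw [Real.norm_eq_abs, abs_of_nonneg (by linarith)]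
  exact h1.2

private theorem BB_cost (h : Env P X ν (1 - ε) (1 + ε)) (hmean : ∫ x, x ∂ν = 1) (x : V d)
    (w : List (St d)) : Integrable (fun ω => cost (cf X ω) x w) P ∧
      ∫ ω, cost (cf X ω) x w ∂P = w.length := by
  have := h.prob
  induction w generalizing x with
  | nil => simp [cost]
  | cons s w ih =>
    obtain ⟨h1, h2⟩ := ih (x + sv s)
    have h3 := BB_int h (ed x s)
    refine ⟨h3.add h1, ?_⟩
    have h4 : ∫ ω, cost (cf X ω) x (s :: w) ∂P =
        ∫ ω, X (ed x s) ω ∂P + ∫ ω, cost (cf X ω) (x + sv s) w ∂P := integral_add h3 h1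
    rw [h4, h2, mean_weight h hmean, List.length_cons]
    push_cast
    ring

private theorem BB_rep (c : Edge d → ℝ) (a : St d) (M : ℕ) (x : V d) :
    cost c x (List.replicate M a) = ∑ k : Fin M, c (ed (x + (k : ℕ) • sv a) a) := by
  induction M generalizing x with
  | zero => simp [cost]
  | succ M ih =>
    rw [List.replicate_succ, Fin.sum_univ_succ]
    change c (ed x a) + cost c (x + sv a) (List.replicate M a) = _
    rw [ih (x + sv a)]
    congr 1
    · simp
    · refine Finset.sum_congr rfl fun k _ => ?_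
      have : x + ((k.succ : Fin (M + 1)) : ℕ) • sv a = x + sv a + (k : ℕ) • sv a := by
        rw [Fin.val_succ, succ_nsmul]
        abel
      rw [this]

private theorem BB_pos (a : St d) (M : ℕ) (x : V d) :
    pos x (List.replicate M a) = x + M • sv a := by
  induction M generalizing x with
  | zero => simp [pos]
  | succ M ih =>
    rw [List.replicate_succ]
    change pos (x + sv a) (List.replicate M a) = _
    rw [ih (x + sv a), succ_nsmul]
    abel

/-- the sum of the two ends of an edge -/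
private def BB_phi (e : Edge d) : V d :=
  Sym2.lift ⟨fun x y => x + y, fun x y => add_comm x y⟩ e.1

private theorem BB_phi_ed (x : V d) (s : St d) (j : Fin d) :
    BB_phi (ed x s) j = 2 * x j + sv s j := by
  change (x + (x + sv s)) j = _
  simp only [Pi.add_apply]
  ring

/-- the edges of the two walks -/
private def BB_f (i₀ : Fin d) (s : St d) (M : ℕ) :
    (Fin M ⊕ Unit) ⊕ (Fin M ⊕ Unit) → Edge d :=
  Sum.elim (Sum.elim (fun k => ed (0 + (k : ℕ) • sv (i₀, true)) (i₀, true))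
    (fun _ => ed (M • sv (i₀, true)) s))
    (Sum.elim (fun k => ed (sv s + (k : ℕ) • sv (i₀, true)) (i₀, true)) (fun _ => ed 0 s))

private theorem BB_inj (i₀ : Fin d) (s : St d) (hs : s.1 ≠ i₀) (M : ℕ) (hM : 1 ≤ M) :
    Function.Injective (BB_f i₀ s M) := by
  obtain ⟨u, hu, hu1⟩ : ∃ u : ℤ, sv s s.1 = u ∧ (u = 1 ∨ u = -1) := by
    rcases s with ⟨i, _ | _⟩ <;> simp [sv]
  have ha1 : (sv ((i₀, true) : St d)) i₀ = 1 := by simp [sv]
  have ha2 : (sv ((i₀, true) : St d)) s.1 = 0 := by simp [sv, Pi.single_eq_of_ne hs]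
  have hb : sv s i₀ = 0 := by
    unfold sv
    rw [Pi.single_eq_of_ne (Ne.symm hs)]
  have key : ∀ i j, BB_f i₀ s M i = BB_f i₀ s M j →
      BB_phi (BB_f i₀ s M i) s.1 = BB_phi (BB_f i₀ s M j) s.1 ∧
      BB_phi (BB_f i₀ s M i) i₀ = BB_phi (BB_f i₀ s M j) i₀ := by
    intro i j hij
    rw [hij]
    exact ⟨rfl, rfl⟩
  intro i j hij
  obtain ⟨h1, h2⟩ := key i j hij
  rcases i with (k | ⟨⟩) | (k | ⟨⟩) <;> rcases j with (l | ⟨⟩) | (l | ⟨⟩) <;>
    simp only [BB_f, Sum.elim_inl, Sum.elim_inr, BB_phi_ed, Pi.add_apply, Pi.smul_apply,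
      Pi.zero_apply, ha1, ha2, hb, hu, smul_zero, mul_zero, zero_add, add_zero] at h1 h2 <;>
    try simp only [nsmul_eq_mul, mul_one] at h1 h2
  all_goals
    first
    | rfl
    | (exfalso; omega)
    | (have h3 : k = l := Fin.ext (by omega)
       rw [h3])

theorem mm_sv_le (h : Env P X ν (1 - ε) (1 + ε)) (hmean : ∫ x, x ∂ν = 1) (s : St d) :
    mm P X (sv s) ≤ 1 := by
  have h1 := BB_cost h hmean 0 [s]
  have h2 : mm P X (sv s) ≤ ∫ ω, cost (cf X ω) 0 [s] ∂P := by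
    refine integral_mono (integrable_T h 0 (sv s)) h1.1 fun ω => ?_
    apply T_le_cost (h.cf_bd ω)
    change (0 : V d) + sv s = sv s
    rw [zero_add]
  rw [h1.2] at h2
  simpa using h2

theorem mm_two_walks (h : Env P X ν (1 - ε) (1 + ε)) (hε : 0 < ε) (hmean : ∫ x, x ∂ν = 1)
    (κ : ℝ) (hκ : 0 < κ) (hvar : κ * ε ^ 2 ≤ ∫ x, (x - 1) ^ 2 ∂ν) (i₀ : Fin d) (s : St d)
    (hs : s.1 ≠ i₀) (M : ℕ) (hM : 1 ≤ M) :
    mm P X (M • sv (i₀, true) + sv s) ≤ M + 1 - ε * (κ ^ 2 / 6 * √M) := by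
  have hP := h.prob
  set a : St d := (i₀, true) with ha
  set w₁ : List (St d) := List.replicate M a ++ [s] with hw₁
  set w₂ : List (St d) := s :: List.replicate M a with hw₂
  obtain ⟨hc1, hm1⟩ := BB_cost h hmean 0 w₁
  obtain ⟨hc2, hm2⟩ := BB_cost h hmean 0 w₂
  have hp1 : pos 0 w₁ = M • sv a + sv s := by
    rw [hw₁, pos_append, BB_pos, zero_add]
    rfl
  have hp2 : pos 0 w₂ = M • sv a + sv s := by
    change pos (0 + sv s) (List.replicate M a) = _
    rw [BB_pos, zero_add, add_comm]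
  have hl1 : (w₁.length : ℝ) = M + 1 := by simp [hw₁]
  have hl2 : (w₂.length : ℝ) = M + 1 := by simp [hw₂]
  -- the variables
  set σ : (Fin M ⊕ Unit) ⊕ (Fin M ⊕ Unit) → ℝ := Sum.elim (fun _ => 1) (fun _ => -1) with hσ
  have hσ2 : ∀ i, σ i ^ 2 = 1 := by
    rintro (i | i) <;> simp [hσ]
  have hσa : ∀ i, |σ i| = 1 := by
    rintro (i | i) <;> simp [hσ]
  set Y : (Fin M ⊕ Unit) ⊕ (Fin M ⊕ Unit) → Ω → ℝ := fun i ω =>
    σ i * ((X (BB_f i₀ s M i) ω - 1) / ε) with hY
  have hYm : ∀ i, Measurable (Y i) := fun i =>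
    ((((h.meas _).sub_const 1).div_const ε)).const_mul (σ i)
  have hYi : iIndepFun Y P := by
    have h1 := h.indep.precomp (BB_inj i₀ s hs M hM)
    exact h1.comp (fun i x => σ i * ((x - 1) / ε)) fun i =>
      ((measurable_id.sub_const 1).div_const ε).const_mul (σ i)
  have hYb : ∀ i ω, |Y i ω| ≤ 1 := by
    intro i ω
    have h1 := h.bd (BB_f i₀ s M i) ω
    rw [hY]
    simp only
    rw [abs_mul, hσa, one_mul, abs_div, abs_of_pos hε, div_le_one hε, abs_le]
    constructor <;> linarith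
  have hY0 : ∀ i, ∫ ω, Y i ω ∂P = 0 := by
    intro i
    rw [hY]
    simp only
    rw [integral_const_mul, integral_div, integral_sub (BB_int h _) (integrable_const 1),
      mean_weight h hmean]
    simp
  have hYv : ∀ i, κ ≤ ∫ ω, Y i ω ^ 2 ∂P := by
    intro i
    have h1 : ∫ ω, Y i ω ^ 2 ∂P = (∫ ω, (X (BB_f i₀ s M i) ω - 1) ^ 2 ∂P) / ε ^ 2 := by
      rw [← integral_div]
      refine integral_congr_ae (Filter.Eventually.of_forall fun ω => ?_)
      simp only [hY]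
      rw [mul_pow, hσ2, one_mul, div_pow]
    have h2 : ∫ ω, (X (BB_f i₀ s M i) ω - 1) ^ 2 ∂P = ∫ x, (x - 1) ^ 2 ∂ν := by
      rw [← h.law (BB_f i₀ s M i), integral_map (h.meas _).aemeasurable
        (by fun_prop : Measurable fun x : ℝ => (x - 1) ^ 2).aestronglyMeasurable]
    rw [h1, h2, le_div_iff₀ (by positivity)]
    exact hvar
  have hmain := abs_sum_lower P Finset.univ Y hYm hYi hYb hY0 κ hκ hYv
  have hcard : (((Finset.univ : Finset ((Fin M ⊕ Unit) ⊕ (Fin M ⊕ Unit))).card : ℕ) : ℝ) =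
      2 * M + 2 := by
    simp only [Finset.card_univ, Fintype.card_sum, Fintype.card_fin, Fintype.card_unit]
    push_cast
    ring
  rw [hcard] at hmain
  have hsum : ∀ ω, ∑ i, Y i ω = (cost (cf X ω) 0 w₁ - cost (cf X ω) 0 w₂) / ε := by
    intro ω
    have e1 : cost (cf X ω) 0 w₁ = (∑ k : Fin M, X (ed (0 + (k : ℕ) • sv a) a) ω) +
        X (ed (M • sv a) s) ω := by
      rw [hw₁, cost_append, BB_rep, BB_pos, zero_add]
      change _ + (X (ed (M • sv a) s) ω + 0) = _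
      rw [add_zero]
      rfl
    have e2 : cost (cf X ω) 0 w₂ = X (ed 0 s) ω +
        ∑ k : Fin M, X (ed (sv s + (k : ℕ) • sv a) a) ω := by
      change X (ed 0 s) ω + cost (cf X ω) (0 + sv s) (List.replicate M a) = _
      rw [BB_rep, zero_add]
      rfl
    rw [e1, e2, Fintype.sum_sum_type, Fintype.sum_sum_type, Fintype.sum_sum_type]
    simp only [hY, hσ, Sum.elim_inl, Sum.elim_inr, BB_f, Finset.univ_unique, Finset.sum_singleton,
      ← Finset.mul_sum, ← Finset.sum_div, Finset.sum_sub_distrib]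
    simp only [Finset.sum_const, Finset.card_univ, Fintype.card_fin, nsmul_eq_mul, mul_one]
    ring
  have hI : ∫ ω, |∑ i, Y i ω| ∂P =
      (∫ ω, |cost (cf X ω) 0 w₁ - cost (cf X ω) 0 w₂| ∂P) / ε := by
    rw [← integral_div]
    refine integral_congr_ae (Filter.Eventually.of_forall fun ω => ?_)
    simp only
    rw [hsum ω, abs_div, abs_of_pos hε]
  rw [hI, le_div_iff₀ hε] at hmain
  have hTle : mm P X (M • sv a + sv s) ≤ ∫ ω, (cost (cf X ω) 0 w₁ + cost (cf X ω) 0 w₂ -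
      |cost (cf X ω) 0 w₁ - cost (cf X ω) 0 w₂|) / 2 ∂P := by
    refine integral_mono (integrable_T h 0 _) (((hc1.add hc2).sub (hc1.sub hc2).abs).div_const 2)
      fun ω => ?_
    have t1 := T_le_cost (h.cf_bd ω) hp1
    have t2 := T_le_cost (h.cf_bd ω) hp2
    change T (cf X ω) 0 (M • sv a + sv s) ≤ (cost (cf X ω) 0 w₁ + cost (cf X ω) 0 w₂ -
      |cost (cf X ω) 0 w₁ - cost (cf X ω) 0 w₂|) / 2
    rcases abs_cases (cost (cf X ω) 0 w₁ - cost (cf X ω) 0 w₂) with ⟨h1, _⟩ | ⟨h1, _⟩ <;>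
      rw [h1] <;> linarith
  have hint : ∫ ω, (cost (cf X ω) 0 w₁ + cost (cf X ω) 0 w₂ -
      |cost (cf X ω) 0 w₁ - cost (cf X ω) 0 w₂|) / 2 ∂P =
      ((M + 1) + (M + 1) - ∫ ω, |cost (cf X ω) 0 w₁ - cost (cf X ω) 0 w₂| ∂P) / 2 := by
    have e1 : ∫ ω, (cost (cf X ω) 0 w₁ + cost (cf X ω) 0 w₂ -
        |cost (cf X ω) 0 w₁ - cost (cf X ω) 0 w₂|) ∂P =
        ∫ ω, (cost (cf X ω) 0 w₁ + cost (cf X ω) 0 w₂) ∂P -
          ∫ ω, |cost (cf X ω) 0 w₁ - cost (cf X ω) 0 w₂| ∂P :=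
      integral_sub (hc1.add hc2) (hc1.sub hc2).abs
    have e2 : ∫ ω, (cost (cf X ω) 0 w₁ + cost (cf X ω) 0 w₂) ∂P =
        ∫ ω, cost (cf X ω) 0 w₁ ∂P + ∫ ω, cost (cf X ω) 0 w₂ ∂P := integral_add hc1 hc2
    rw [integral_div, e1, e2, hm1, hm2, hl1, hl2]
  rw [hint] at hTle
  have hsq : √(M : ℝ) ≤ √(2 * M + 2) := by
    apply Real.sqrt_le_sqrt
    have : (0 : ℝ) ≤ M := Nat.cast_nonneg M
    linarith
  have h7 : κ ^ 2 / 3 * √(M : ℝ) * ε ≤ κ ^ 2 / 3 * √(2 * M + 2) * ε :=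
    mul_le_mul_of_nonneg_right (mul_le_mul_of_nonneg_left hsq (by positivity)) hε.le
  linarith

end Pool.Agent.Helper79.GR
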