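import Pool.Agent.Helper79.GR.RA

/-!
# GR-BC: exponential moments of the cost of a walk without repeated edges

The cost is a sum over the edges (`cost_eq_sum`, `eds`), which are different, hence independent;
for each edge `E exp (-(t / ε) (X e - 1)) ≤ exp (t ^ 2 / 2)` by Hoeffding's lemma
(`hasSubgaussianMGF_of_mem_Icc` for `X e - 1 ∈ [-ε, ε]`, or directly: convexity
`exp (-t y) ≤ cosh t - y sinh t` for `y ∈ [-1, 1]` and `cosh t ≤ exp (t ^ 2 / 2)`
(`Real.cosh_le_exp_half_sq`)).
-/

set_option autoImplicit false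

namespace Pool.Agent.Helper79.GR

open MeasureTheory ProbabilityTheory

variable {Ω : Type*} [MeasurableSpace Ω] {d : ℕ} {P : Measure Ω} {X : Edge d → Ω → ℝ}
  {ν : Measure ℝ} {ε : ℝ}

open Classical in
private theorem bc_sub (h : Env P X ν (1 - ε) (1 + ε)) (hε : 0 < ε) (hmean : ∫ x, x ∂ν = 1)
    (x : V d) (w : List (St d)) (hw : (eds x w).Nodup) :
    HasSubgaussianMGF (fun ω => cost (cf X ω) x w - w.length)
      (w.length * (‖ε - -ε‖₊ / 2) ^ 2) P := by
  have := h.prob
  have hmean' : ∀ e, ∫ ω, X e ω ∂P = 1 := by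
    intro e
    rw [← hmean, ← h.law e]
    exact (integral_map (h.meas e).aemeasurable
      (measurable_id.aestronglyMeasurable (f := fun x : ℝ => x))).symm
  have hint : ∀ e, Integrable (X e) P := by
    intro e
    refine Integrable.of_bound (h.meas e).aestronglyMeasurable (1 + ε) ?_
    refine Filter.Eventually.of_forall fun ω => ?_
    have h1 := h.bd e ω
    have h2 := h.apos
    rw [Real.norm_eq_abs, abs_of_nonneg (by linarith)]
    exact h1.2
  have hi : iIndepFun (fun (e : Edge d) ω => X e ω - 1) P :=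
    h.indep.comp (fun _ y => y - 1) (fun _ => measurable_id.sub_const 1)
  have hs : ∀ e ∈ (eds x w).toFinset,
      HasSubgaussianMGF (fun ω => X e ω - 1) ((‖ε - -ε‖₊ / 2) ^ 2) P := by
    intro e _
    refine hasSubgaussianMGF_of_mem_Icc_of_integral_eq_zero ?_ ?_ ?_
    · exact ((h.meas e).sub_const 1).aemeasurable
    · refine Filter.Eventually.of_forall fun ω => ?_
      have h1 := h.bd e ω
      exact ⟨by linarith, by linarith⟩
    · rw [integral_sub (hint e) (integrable_const 1), hmean' e, integral_const]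
      simp
  have h1 := HasSubgaussianMGF.sum_of_iIndepFun hi hs
  have h2 : (fun ω => ∑ e ∈ (eds x w).toFinset, (X e ω - 1)) =
      fun ω => cost (cf X ω) x w - w.length := by
    ext ω
    rw [Finset.sum_sub_distrib, List.sum_toFinset _ hw, cost_eq_sum, Finset.sum_const,
      List.toFinset_card_of_nodup hw, length_eds, nsmul_eq_mul, mul_one]
    rfl
  rw [h2] at h1
  have h3 : ∑ _e ∈ (eds x w).toFinset, (‖ε - -ε‖₊ / 2) ^ 2 =
      (w.length : NNReal) * (‖ε - -ε‖₊ / 2) ^ 2 := by
    rw [Finset.sum_const, List.toFinset_card_of_nodup hw, length_eds, nsmul_eq_mul]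
  rw [h3] at h1
  exact h1

private theorem bc_const (hε : 0 < ε) (n : ℕ) (t : ℝ) :
    (((n : NNReal) * (‖ε - -ε‖₊ / 2) ^ 2 : NNReal) : ℝ) * (-(t / ε)) ^ 2 / 2 =
      t ^ 2 * n / 2 := by
  have h1 : ‖ε - -ε‖ = 2 * ε := by
    rw [Real.norm_eq_abs, abs_of_pos (by linarith)]
    ring
  push_cast
  rw [h1]
  field_simp

theorem mgf_walk (h : Env P X ν (1 - ε) (1 + ε)) (hε : 0 < ε) (hmean : ∫ x, x ∂ν = 1)
    (x : V d) (w : List (St d)) (hw : (eds x w).Nodup) (t : ℝ) :
    ∫ ω, Real.exp (-(t / ε) * (cost (cf X ω) x w - w.length)) ∂P ≤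
      Real.exp (t ^ 2 * w.length / 2) := by
  have h1 := (bc_sub h hε hmean x w hw).mgf_le (-(t / ε))
  rw [bc_const hε] at h1
  exact h1

/-- Markov's inequality -/
theorem prob_walk (h : Env P X ν (1 - ε) (1 + ε)) (hε : 0 < ε) (hmean : ∫ x, x ∂ν = 1)
    (x : V d) (w : List (St d)) (hw : (eds x w).Nodup) (t y : ℝ) (ht : 0 ≤ t) :
    P.real {ω | cost (cf X ω) x w - w.length ≤ -(ε * y)} ≤
      Real.exp (-(t * y) + t ^ 2 * w.length / 2) := by
  have := h.prob
  have h1 := bc_sub h hε hmean x w hw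
  have h2 : -(t / ε) ≤ 0 := neg_nonpos.2 (div_nonneg ht hε.le)
  have h3 := measure_le_le_exp_mul_mgf (-(ε * y)) h2 (h1.integrable_exp_mul (-(t / ε)))
  have h4 := h1.mgf_le (-(t / ε))
  rw [bc_const hε] at h4
  rw [Real.exp_add]
  refine h3.trans ?_
  have h5 : - -(t / ε) * -(ε * y) = -(t * y) := by
    field_simp
  rw [h5]
  exact mul_le_mul_of_nonneg_left h4 (Real.exp_nonneg _)

end Pool.Agent.Helper79.GR
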