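import Pool.Agent.Helper79.GR.BC

/-!
# GR-BD: counting walks with weights

`sum_walks`: `∑ over f : Fin L → St d of ∏ over k of g (f k) = (∑ over s of g s) ^ L`
(`Finset.prod_univ_sum`, `Fintype.piFinset_univ`) with `g s = 1` if `s = (i₀, true)` and `κ⁻¹`
otherwise; `1 + (2 d - 1) / κ ≤ exp (2 d / κ)`.

`union_walks`: union bound over `L ≤ Lm` and `f : Fin L → St d` (`w = List.ofFn f`); for the walks
with `bad i₀ w ≤ J` insert the factor `κ ^ (J - bad) ≥ 1`, i.e. `κ ^ J * κ⁻¹ ^ bad`;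
`prob_walk` bounds each probability by `exp (-(t y) + t ^ 2 Lm / 2)`.
-/

set_option autoImplicit false

namespace Pool.Agent.Helper79.GR

open MeasureTheory ProbabilityTheory

private theorem BD_pow_bad {d : ℕ} (i₀ : Fin d) (c : ℝ) (w : List (St d)) :
    c ^ bad i₀ w = (w.map fun s => if s = (i₀, true) then (1 : ℝ) else c).prod := by
  unfold bad
  induction w with
  | nil => simp
  | cons s w ih =>
    rw [List.countP_cons, List.map_cons, List.prod_cons, ← ih]
    by_cases hs : s = (i₀, true)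
    · simp [hs]
    · simp [hs, pow_succ, mul_comm]

theorem sum_walks {d : ℕ} (i₀ : Fin d) (κ : ℝ) (hκ : 1 ≤ κ) (L : ℕ) :
    ∑ f : Fin L → St d, κ⁻¹ ^ bad i₀ (List.ofFn f) ≤ Real.exp (2 * d * L / κ) := by
  have hκ0 : 0 < κ := by linarith
  have h1 : ∀ f : Fin L → St d, κ⁻¹ ^ bad i₀ (List.ofFn f) =
      ∏ k, (if f k = (i₀, true) then (1 : ℝ) else κ⁻¹) := by
    intro f
    rw [BD_pow_bad, List.map_ofFn, List.prod_ofFn]
    rfl
  simp only [h1]
  rw [← Fintype.sum_pow (fun s : St d => if s = (i₀, true) then (1 : ℝ) else κ⁻¹) L]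
  have h2 : ∑ s : St d, (if s = (i₀, true) then (1 : ℝ) else κ⁻¹) ≤ Real.exp (2 * d / κ) := by
    have e1 : ∀ s : St d, (if s = (i₀, true) then (1 : ℝ) else κ⁻¹) =
        κ⁻¹ + if s = (i₀, true) then 1 - κ⁻¹ else 0 := by
      intro s
      split_ifs <;> ring
    simp only [e1]
    rw [Finset.sum_add_distrib, Finset.sum_const, Finset.sum_ite_eq' Finset.univ,
      if_pos (Finset.mem_univ _), Finset.card_univ, Fintype.card_prod, Fintype.card_fin,
      Fintype.card_bool, nsmul_eq_mul]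
    have e2 : (0 : ℝ) ≤ κ⁻¹ := (inv_pos.2 hκ0).le
    have e3 := Real.add_one_le_exp (2 * d / κ)
    have e4 : ((d * 2 : ℕ) : ℝ) * κ⁻¹ = 2 * d / κ := by
      push_cast
      rw [div_eq_mul_inv]
      ring
    rw [e4]
    linarith
  have h3 : (0 : ℝ) ≤ ∑ s : St d, (if s = (i₀, true) then (1 : ℝ) else κ⁻¹) := by
    refine Finset.sum_nonneg fun s _ => ?_
    split_ifs
    · norm_num
    · exact (inv_pos.2 hκ0).le
  calc (∑ s : St d, (if s = (i₀, true) then (1 : ℝ) else κ⁻¹)) ^ L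
      ≤ Real.exp (2 * d / κ) ^ L := pow_le_pow_left₀ h3 h2 L
    _ = Real.exp (2 * d * L / κ) := by
        rw [← Real.exp_nat_mul]
        congr 1
        ring

variable {Ω : Type*} [MeasurableSpace Ω] {d : ℕ} {P : Measure Ω} {X : Edge d → Ω → ℝ}
  {ν : Measure ℝ} {ε : ℝ}

variable {Ω : Type*} [MeasurableSpace Ω] {d : ℕ} {P : Measure Ω} {X : Edge d → Ω → ℝ}
  {ν : Measure ℝ} {ε : ℝ}

theorem union_walks (h : Env P X ν (1 - ε) (1 + ε)) (hε : 0 < ε) (hmean : ∫ x, x ∂ν = 1)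
    (i₀ : Fin d) (κ t y : ℝ) (hκ : 1 ≤ κ) (ht : 0 ≤ t) (Lm J : ℕ) :
    P.real {ω | ∃ w : List (St d), w.length ≤ Lm ∧ (eds 0 w).Nodup ∧ bad i₀ w ≤ J ∧
      cost (cf X ω) 0 w - w.length ≤ -(ε * y)} ≤
      (Lm + 1) * (κ ^ J * Real.exp (-(t * y) + t ^ 2 * Lm / 2 + 2 * d * Lm / κ)) := by
  have hP := h.prob
  have hκ0 : 0 < κ := by linarith
  set S : (L : ℕ) → (Fin L → St d) → Set Ω := fun L f => {ω | (eds 0 (List.ofFn f)).Nodup ∧
    bad i₀ (List.ofFn f) ≤ J ∧ cost (cf X ω) 0 (List.ofFn f) - (List.ofFn f).length ≤ -(ε * y)}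
    with hS
  have hsub : {ω | ∃ w : List (St d), w.length ≤ Lm ∧ (eds 0 w).Nodup ∧ bad i₀ w ≤ J ∧
      cost (cf X ω) 0 w - w.length ≤ -(ε * y)} ⊆
      ⋃ L ∈ Finset.range (Lm + 1), ⋃ f ∈ (Finset.univ : Finset (Fin L → St d)), S L f := by
    rintro ω ⟨w, h1, h2, h3, h4⟩
    simp only [Set.mem_iUnion]
    refine ⟨w.length, Finset.mem_range.2 (Nat.lt_succ_of_le h1), w.get, Finset.mem_univ _, ?_⟩
    simp only [hS, Set.mem_ofPred_eq, List.ofFn_get]
    exact ⟨h2, h3, h4⟩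
  set E : ℝ := Real.exp (-(t * y) + t ^ 2 * Lm / 2) with hE
  have hprob : ∀ L ≤ Lm, ∀ f : Fin L → St d,
      P.real (S L f) ≤ κ ^ J * κ⁻¹ ^ bad i₀ (List.ofFn f) * E := by
    intro L hL f
    by_cases hgood : (eds 0 (List.ofFn f)).Nodup ∧ bad i₀ (List.ofFn f) ≤ J
    · have e1 : P.real (S L f) ≤ Real.exp (-(t * y) + t ^ 2 * (List.ofFn f).length / 2) := by
        refine le_trans (measureReal_mono ?_) (prob_walk h hε hmean 0 (List.ofFn f) hgood.1 t y ht)
        intro ω hω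
        exact hω.2.2
      have e2 : Real.exp (-(t * y) + t ^ 2 * (List.ofFn f).length / 2) ≤ E := by
        rw [hE]
        apply Real.exp_le_exp.2
        rw [List.length_ofFn]
        have : t ^ 2 * (L : ℝ) ≤ t ^ 2 * Lm :=
          mul_le_mul_of_nonneg_left (by exact_mod_cast hL) (sq_nonneg t)
        linarith
      have e3 : 1 ≤ κ ^ J * κ⁻¹ ^ bad i₀ (List.ofFn f) := by
        rw [inv_pow, ← div_eq_mul_inv, one_le_div (pow_pos hκ0 _)]
        exact pow_le_pow_right₀ hκ hgood.2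
      calc P.real (S L f) ≤ 1 * E := by rw [one_mul]; exact e1.trans e2
        _ ≤ _ := mul_le_mul_of_nonneg_right e3 (Real.exp_pos _).le
    · have e1 : S L f = ∅ := by
        ext ω
        simp only [hS, Set.mem_ofPred_eq, Set.mem_empty_iff_false, iff_false]
        rintro ⟨h1, h2, _⟩
        exact hgood ⟨h1, h2⟩
      rw [e1, measureReal_empty]
      positivity
  have hL : ∀ L ≤ Lm, P.real (⋃ f ∈ (Finset.univ : Finset (Fin L → St d)), S L f) ≤
      κ ^ J * Real.exp (2 * d * Lm / κ) * E := by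
    intro L hL
    refine (measureReal_biUnion_finset_le _ _).trans ?_
    calc ∑ f : Fin L → St d, P.real (S L f)
        ≤ ∑ f : Fin L → St d, κ ^ J * κ⁻¹ ^ bad i₀ (List.ofFn f) * E :=
          Finset.sum_le_sum fun f _ => hprob L hL f
      _ = κ ^ J * (∑ f : Fin L → St d, κ⁻¹ ^ bad i₀ (List.ofFn f)) * E := by
          rw [← Finset.sum_mul, Finset.mul_sum]
      _ ≤ κ ^ J * Real.exp (2 * d * Lm / κ) * E := by
          refine mul_le_mul_of_nonneg_right ?_ (Real.exp_pos _).le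
          refine mul_le_mul_of_nonneg_left ?_ (by positivity)
          refine (sum_walks i₀ κ hκ L).trans (Real.exp_le_exp.2 ?_)
          have : (2 * d * L : ℝ) ≤ 2 * d * Lm :=
            mul_le_mul_of_nonneg_left (by exact_mod_cast hL) (by positivity)
          exact div_le_div_of_nonneg_right this hκ0.le
  refine (measureReal_mono hsub (measure_ne_top P _)).trans
    ((measureReal_biUnion_finset_le _ _).trans ?_)
  calc ∑ L ∈ Finset.range (Lm + 1), P.real (⋃ f ∈ (Finset.univ : Finset (Fin L → St d)), S L f)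
      ≤ ∑ L ∈ Finset.range (Lm + 1), κ ^ J * Real.exp (2 * d * Lm / κ) * E :=
        Finset.sum_le_sum fun L hL' => hL L (Nat.lt_succ_iff.1 (Finset.mem_range.1 hL'))
    _ = (Lm + 1) * (κ ^ J * Real.exp (-(t * y) + t ^ 2 * Lm / 2 + 2 * d * Lm / κ)) := by
        rw [Finset.sum_const, Finset.card_range, nsmul_eq_mul, hE,
          Real.exp_add (-(t * y) + t ^ 2 * Lm / 2) (2 * d * Lm / κ)]
        push_cast
        ring

end Pool.Agent.Helper79.GR
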