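import Pool.Agent.Helper79.GR.DF

/-!
# GR-BE: a cheap passage time forces a cheap nearly straight walk

Take a geodesic `w` from `0` to `z` (`exists_min`), `Geo.nodup`.  `(1 - ε) L ≤ cost = T ≤ n1 z`,
so `L ≤ n1 z / (1 - ε) ≤ (1 + 2 ε) n1 z` for `ε ≤ 1 / 2`.  The number of steps `(i₀, true)` is at least
`z i₀ = n` (each step changes the coordinate `i₀` by at most `1`, and only `(i₀, true)` increases
it), so `bad i₀ w ≤ L - n`.  `cost - L ≤ T - n1 z` because `L ≥ n1 z`.
-/

set_option autoImplicit false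

namespace Pool.Agent.Helper79.GR

theorem bad_add_le {d : ℕ} (i₀ : Fin d) (x : V d) (w : List (St d)) :
    (bad i₀ w : ℤ) + (pos x w i₀ - x i₀) ≤ w.length := by
  induction w generalizing x with
  | nil =>
    change ((bad i₀ [] : ℕ) : ℤ) + (x i₀ - x i₀) ≤ _
    simp [bad]
  | cons s w ih =>
    have h1 := ih (x + sv s)
    have e : pos x (s :: w) i₀ - x i₀ = (pos (x + sv s) w i₀ - (x + sv s) i₀) + sv s i₀ := by
      change pos (x + sv s) w i₀ - x i₀ = _
      rw [Pi.add_apply]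
      ring
    have hb : ((bad i₀ (s :: w) : ℕ) : ℤ) + sv s i₀ ≤ (bad i₀ w : ℤ) + 1 := by
      unfold bad
      rw [List.countP_cons]
      by_cases hs : s = (i₀, true)
      · subst hs
        simp [sv]
      · have h2 : sv s i₀ ≤ 0 := by
          by_cases h3 : s.1 = i₀
          · have h4 : s.2 = false := by
              rcases s with ⟨i, _ | _⟩
              · rfl
              · exact absurd (show (i, true) = (i₀, true) by rw [show i = i₀ from h3]) hs
            unfold sv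
            rw [h4, ← h3]
            simp
          · unfold sv
            rw [Pi.single_eq_of_ne (Ne.symm h3)]
        simp only [ne_eq, hs, not_false_eq_true, decide_true, if_true]
        push_cast
        linarith
    rw [e, List.length_cons]
    push_cast
    linarith

theorem exists_cheap_walk {d : ℕ} (i₀ : Fin d) {ε : ℝ} (hε0 : 0 < ε) (hε : ε ≤ 1 / 2)
    {c : Edge d → ℝ} (h : Bd (1 - ε) (1 + ε) c) (z : V d) (hz : 0 ≤ z i₀) (y : ℝ)
    (hy : 0 ≤ y) (hT : T c 0 z ≤ n1 z - ε * y) :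
    ∃ w : List (St d), (w.length : ℝ) ≤ (1 + 2 * ε) * n1 z ∧ (eds 0 w).Nodup ∧
      (bad i₀ w : ℝ) ≤ (1 + 2 * ε) * n1 z - z i₀ ∧ cost c 0 w - w.length ≤ -(ε * y) := by
  obtain ⟨w, hw, hc⟩ := exists_min h 0 z
  have hg : Geo c 0 w := (geo_iff h 0 w).2 (by rw [hw, hc])
  have h1 : (1 - ε) * w.length ≤ cost c 0 w := le_cost h 0 w
  have h2 : n1 (pos 0 w - 0) ≤ w.length := n1_pos_sub_le 0 w
  rw [hw, sub_zero] at h2
  have hn : 0 ≤ n1 z := n1_nonneg z
  have hey : 0 ≤ ε * y := mul_nonneg hε0.le hy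
  have hL : (w.length : ℝ) ≤ (1 + 2 * ε) * n1 z := by
    have h3 : (1 - ε) * (w.length : ℝ) ≤ n1 z := by linarith
    have h4 : (1 : ℝ) ≤ (1 + 2 * ε) * (1 - ε) := by nlinarith
    have h5 : (w.length : ℝ) ≤ (1 + 2 * ε) * ((1 - ε) * w.length) := by
      have : (0 : ℝ) ≤ w.length := Nat.cast_nonneg _
      nlinarith
    exact h5.trans (mul_le_mul_of_nonneg_left h3 (by linarith))
  have hb := bad_add_le i₀ 0 w
  rw [hw] at hb
  have hb' : (bad i₀ w : ℝ) + z i₀ ≤ w.length := by
    have : ((bad i₀ w : ℤ) : ℝ) + ((z i₀ - (0 : V d) i₀ : ℤ) : ℝ) ≤ ((w.length : ℤ) : ℝ) := by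
      exact_mod_cast hb
    simpa using this
  refine ⟨w, hL, Geo.nodup h hg, by linarith, by linarith⟩

end Pool.Agent.Helper79.GR
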