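import Mathlib

/-!
# GR-BF: the choice of the parameters (reals only)

Let `δ = v + 8 ε ∈ (0, 2]`, `κ = 8 (d + 1) / δ ≥ 1`, `t = θ / 4`, `C = (200 (d + 1)) ^ 2`.  For
`J ≤ n δ + 2 d + 1` and `Lm ≤ 4 n + 4 d` the logarithm of `κ ^ J exp (-(t θ n) + t ^ 2 Lm / 2 + 2 d Lm / κ)` is at
most `n (δ log κ - θ ^ 2 / 8 + δ) + const`, and `δ (1 + log κ) < θ ^ 2 / 8` because
`θ ^ 3 ≥ C δ`, i.e. `θ ^ 2 ≥ C ^ (2 / 3) δ ^ (2 / 3)`, and `log y ≤ 3 y ^ (1 / 3)`.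
-/

set_option autoImplicit false

namespace Pool.Agent.Helper79.GR

open Filter Topology

private theorem bf_log (κ : ℝ) (hκ : 1 ≤ κ) : (1 + Real.log κ) ^ 3 ≤ 27 * κ := by
  have hy : 0 ≤ Real.log κ := Real.log_nonneg hκ
  have h1 : Real.log κ / 3 + 1 ≤ Real.exp (Real.log κ / 3) := Real.add_one_le_exp _
  have h2 : 1 + Real.log κ ≤ 3 * Real.exp (Real.log κ / 3) := by linarith
  calc (1 + Real.log κ) ^ 3 ≤ (3 * Real.exp (Real.log κ / 3)) ^ 3 :=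
        pow_le_pow_left₀ (by linarith) h2 3
    _ = 27 * (Real.exp (Real.log κ / 3)) ^ 3 := by ring
    _ = 27 * κ := by
      rw [← Real.exp_nat_mul]
      have h3 : ((3 : ℕ) : ℝ) * (Real.log κ / 3) = Real.log κ := by push_cast; ring
      rw [h3, Real.exp_log (by linarith)]

private theorem bf_lim {g A B : ℝ} (hg : 0 < g) :
    Tendsto (fun n : ℕ => (A * n + B) * Real.exp (-(g * n))) atTop (𝓝 0) := by
  have hr : |Real.exp (-g)| < 1 := by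
    rw [abs_of_pos (Real.exp_pos _)]
    exact Real.exp_lt_one_iff.2 (by linarith)
  have h1 := tendsto_pow_const_mul_const_pow_of_abs_lt_one 1 hr
  have h2 := tendsto_pow_atTop_nhds_zero_of_abs_lt_one hr
  have h3 := (h1.const_mul A).add (h2.const_mul B)
  rw [mul_zero, mul_zero, add_zero] at h3
  refine h3.congr fun n => ?_
  have h4 : Real.exp (-(g * n)) = Real.exp (-g) ^ n := by
    rw [← Real.exp_nat_mul]
    congr 1
    ring
  rw [h4]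
  ring

theorem params (d : ℕ) : ∃ C : ℝ, 0 < C ∧ ∀ δ θ : ℝ, 0 < δ → δ ≤ 2 → 0 ≤ θ → C * δ ≤ θ ^ 3 →
    ∃ κ t : ℝ, 1 ≤ κ ∧ 0 ≤ t ∧
      Tendsto (fun n : ℕ => ((4 * n + 4 * d : ℝ) + 1) * (κ ^ ((n : ℝ) * δ + 2 * d + 1) *
        Real.exp (-(t * (θ * n)) + t ^ 2 * (4 * n + 4 * d) / 2 +
          2 * d * (4 * n + 4 * d) / κ))) atTop (𝓝 0) := by
  have hd : (0 : ℝ) ≤ d := Nat.cast_nonneg d
  refine ⟨400 * (d + 1), by positivity, ?_⟩
  intro δ θ hδ hδ2 hθ hC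
  set κ : ℝ := 8 * (d + 1) / δ with hκdef
  have hκ4 : 4 * ((d : ℝ) + 1) ≤ κ := by
    rw [hκdef, le_div_iff₀ hδ]
    nlinarith
  have hκ1 : 1 ≤ κ := by linarith
  have hκ0 : 0 < κ := by linarith
  have hκδ : κ * δ = 8 * (d + 1) := by
    rw [hκdef]
    field_simp
  have hlog : 0 ≤ Real.log κ := Real.log_nonneg hκ1
  have hkey : δ * (1 + Real.log κ) < θ ^ 2 / 8 := by
    by_contra hcon
    push Not at hcon
    have h1 : θ ^ 2 ≤ 8 * (δ * (1 + Real.log κ)) := by linarith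
    have h2 : (400 * ((d : ℝ) + 1) * δ) ^ 2 ≤ (8 * (δ * (1 + Real.log κ))) ^ 3 := by
      calc (400 * ((d : ℝ) + 1) * δ) ^ 2 ≤ (θ ^ 3) ^ 2 := pow_le_pow_left₀ (by positivity) hC 2
        _ = (θ ^ 2) ^ 3 := by ring
        _ ≤ (8 * (δ * (1 + Real.log κ))) ^ 3 := pow_le_pow_left₀ (by positivity) h1 3
    have h3 : (8 * (δ * (1 + Real.log κ))) ^ 3 ≤ 512 * δ ^ 3 * (27 * κ) := by
      calc (8 * (δ * (1 + Real.log κ))) ^ 3 = 512 * δ ^ 3 * (1 + Real.log κ) ^ 3 := by ring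
        _ ≤ 512 * δ ^ 3 * (27 * κ) := mul_le_mul_of_nonneg_left (bf_log κ hκ1) (by positivity)
    have h4 : 512 * δ ^ 3 * (27 * κ) = 110592 * (d + 1) * δ ^ 2 := by
      calc 512 * δ ^ 3 * (27 * κ) = 13824 * δ ^ 2 * (κ * δ) := by ring
        _ = 110592 * (d + 1) * δ ^ 2 := by rw [hκδ]; ring
    have h5 : (400 * ((d : ℝ) + 1) * δ) ^ 2 ≤ 110592 * (d + 1) * δ ^ 2 :=
      (h2.trans h3).trans (le_of_eq h4)
    have h6 : 0 < δ ^ 2 := by positivity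
    have h7 : 160000 * ((d : ℝ) + 1) ^ 2 ≤ 110592 * (d + 1) := by
      have : 160000 * ((d : ℝ) + 1) ^ 2 * δ ^ 2 ≤ 110592 * (d + 1) * δ ^ 2 := by
        calc 160000 * ((d : ℝ) + 1) ^ 2 * δ ^ 2 = (400 * ((d : ℝ) + 1) * δ) ^ 2 := by ring
          _ ≤ _ := h5
      exact le_of_mul_le_mul_right this h6
    nlinarith
  refine ⟨κ, θ / 4, hκ1, by positivity, ?_⟩
  set g : ℝ := θ ^ 2 / 8 - δ * Real.log κ - 8 * d / κ with hgdef
  have hdk : 8 * (d : ℝ) / κ ≤ δ := by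
    rw [div_le_iff₀ hκ0, mul_comm δ κ, hκδ]
    linarith
  have hg : 0 < g := by
    rw [hgdef]
    linarith
  set c : ℝ := (2 * d + 1) * Real.log κ + (θ / 4) ^ 2 * (4 * d) / 2 + 2 * d * (4 * d) / κ with hc
  have hlim := (bf_lim (A := 4) (B := 4 * d + 1) hg).mul_const (Real.exp c)
  rw [zero_mul] at hlim
  refine hlim.congr fun n => ?_
  rw [Real.rpow_def_of_pos hκ0, ← Real.exp_add, mul_assoc, ← Real.exp_add]
  have h8 : -(g * n) + c = Real.log κ * ((n : ℝ) * δ + 2 * d + 1) +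
      (-(θ / 4 * (θ * n)) + (θ / 4) ^ 2 * (4 * n + 4 * d) / 2 +
        2 * d * (4 * n + 4 * d) / κ) := by
    rw [hgdef, hc]
    ring
  rw [h8]
  ring

end Pool.Agent.Helper79.GR
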