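import Pool.Agent.Helper79.GR.BD
import Pool.Agent.Helper79.GR.BE
import Pool.Agent.Helper79.GR.BF
import Pool.Agent.Helper79.GR.NC
import Pool.Agent.Helper79.GR.RC

/-!
# GR-BG: lower bound for the time constant near the axis

`z = fl n x`, `z i₀ = n`, `|n1 z - n nr x| ≤ d`.  If `T 0 z ≤ n1 z - ε (θ n)` then
`exists_cheap_walk` gives a walk with length at most `(1 + 2 ε) (2 n + d) ≤ 4 n + 4 d` and
`bad ≤ (1 + 2 ε) (n nr x + d) - n ≤ n (v + 4 ε) + 2 d`, `v = nr x - 1`, so `bad ≤ J` with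
`J = ⌊n (v + 8 ε) + 2 d⌋₊` (`n nr x ≤ 2 n`).  `union_walks`, `params` with `δ = v + 8 ε ≤ 2`: the
probability tends to `0` (`κ ^ J ≤ κ ^ (n δ + 2 d + 1)` real power).  Hence
`mm P X z ≥ (n1 z - ε θ n) (1 - P)` and in the limit `tc ≥ nr x - ε θ` (`tendsto_tc`).
-/

set_option autoImplicit false

namespace Pool.Agent.Helper79.GR

open MeasureTheory ProbabilityTheory Filter Topology

private theorem n1_fl {d : ℕ} (n : ℕ) (x : Fin d → ℝ) : |n1 (fl n x) - n * nr x| ≤ d := by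
  unfold n1 nr
  rw [Finset.mul_sum, ← Finset.sum_sub_distrib]
  refine (Finset.abs_sum_le_sum_abs _ _).trans ?_
  have hb : ∀ i ∈ (Finset.univ : Finset (Fin d)),
      |(|(fl n x i : ℝ)| - n * |x i|)| ≤ (1 : ℝ) := by
    intro i _
    have h1 : (n : ℝ) * |x i| = |n * x i| := by
      rw [abs_mul, abs_of_nonneg (Nat.cast_nonneg n : (0 : ℝ) ≤ n)]
    rw [h1]
    refine (abs_abs_sub_abs_le _ _).trans ?_
    unfold fl
    have h2 := Int.floor_le ((n : ℝ) * x i)
    have h3 := Int.lt_floor_add_one ((n : ℝ) * x i)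
    rw [abs_le]
    constructor <;> linarith
  calc _ ≤ ∑ _i : Fin d, (1 : ℝ) := Finset.sum_le_sum hb
    _ = d := by simp

private theorem tendsto_n1_fl {d : ℕ} (x : Fin d → ℝ) :
    Tendsto (fun n : ℕ => n1 (fl n x) / n) atTop (𝓝 (nr x)) := by
  have h0 : Tendsto (fun n : ℕ => (d : ℝ) / n) atTop (𝓝 0) :=
    tendsto_const_nhds.div_atTop tendsto_natCast_atTop_atTop
  rw [tendsto_iff_norm_sub_tendsto_zero]
  refine squeeze_zero' (Eventually.of_forall fun _ => norm_nonneg _) ?_ h0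
  filter_upwards [eventually_ge_atTop 1] with n hn
  have hn0 : (0 : ℝ) < n := by exact_mod_cast hn
  have h1 : n1 (fl n x) / n - nr x = (n1 (fl n x) - n * nr x) / n := by
    field_simp
  rw [h1, Real.norm_eq_abs, abs_div, abs_of_pos hn0]
  exact div_le_div_of_nonneg_right (n1_fl n x) hn0.le

theorem tc_lower (d : ℕ) : ∃ C : ℝ, 0 < C ∧ ∀ {Ω : Type} [MeasurableSpace Ω] {P : Measure Ω}
    {X : Edge d → Ω → ℝ} {ν : Measure ℝ} {ε : ℝ}, 0 < ε → ε ≤ 1 / 8 →
    Env P X ν (1 - ε) (1 + ε) → ∫ x, x ∂ν = 1 → ∀ (i₀ : Fin d) (x : Fin d → ℝ), x i₀ = 1 →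
    nr x ≤ 2 → ∀ θ : ℝ, 0 ≤ θ → C * (nr x - 1 + 8 * ε) ≤ θ ^ 3 →
    nr x - ε * θ ≤ tc (mm P X) x := by
  obtain ⟨C, hC, hpar⟩ := params d
  refine ⟨C, hC, ?_⟩
  intro Ω _ P X ν ε hε hε8 hE hmean i₀ x hx hx2 θ hθ hCθ
  have hx1 : 1 ≤ nr x := by
    have h : |x i₀| ≤ ∑ i, |x i| :=
      Finset.single_le_sum (f := fun i => |x i|) (fun i _ => abs_nonneg _) (Finset.mem_univ i₀)
    rw [hx, abs_one] at h
    exact h
  obtain ⟨κ, t, hκ, ht, hlim⟩ := hpar (nr x - 1 + 8 * ε) θ (by linarith) (by linarith) hθ hCθ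
  have := hE.prob
  set A : ℕ → Set Ω := fun n =>
    {ω | T (cf X ω) 0 (fl n x) ≤ n1 (fl n x) - ε * (θ * n)} with hA
  have hAm : ∀ n, MeasurableSet (A n) := fun n =>
    measurableSet_le (measurable_T hE _ _) measurable_const
  -- the probability bound
  have hPA : ∀ n : ℕ, P.real (A n) ≤ ((4 * n + 4 * d : ℝ) + 1) *
      (κ ^ ((n : ℝ) * (nr x - 1 + 8 * ε) + 2 * d + 1) *
        Real.exp (-(t * (θ * n)) + t ^ 2 * (4 * n + 4 * d) / 2 +
          2 * d * (4 * n + 4 * d) / κ)) := by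
    intro n
    have hn0 : (0 : ℝ) ≤ n := Nat.cast_nonneg n
    have hd0 : (0 : ℝ) ≤ d := Nat.cast_nonneg d
    have hzi : fl n x i₀ = n := by
      unfold fl
      rw [hx, mul_one]
      exact Int.floor_natCast n
    have habs := abs_le.mp (n1_fl n x)
    set J : ℕ := ⌊(n : ℝ) * (nr x - 1 + 8 * ε) + 2 * d⌋₊ with hJ
    have hJ0 : 0 ≤ (n : ℝ) * (nr x - 1 + 8 * ε) + 2 * d := by
      have : 0 ≤ (n : ℝ) * (nr x - 1 + 8 * ε) := mul_nonneg hn0 (by linarith)
      linarith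
    have hu := union_walks hE hε hmean i₀ κ t (θ * n) hκ ht (4 * n + 4 * d) J
    have hN : n1 (fl n x) ≤ n * nr x + d := by linarith [habs.2]
    have hnx : (n : ℝ) * nr x ≤ n * 2 := mul_le_mul_of_nonneg_left hx2 hn0
    have hN0 : 0 ≤ n1 (fl n x) := n1_nonneg _
    have hsub : A n ⊆ {ω | ∃ w : List (St d), w.length ≤ 4 * n + 4 * d ∧ (eds 0 w).Nodup ∧
        bad i₀ w ≤ J ∧ cost (cf X ω) 0 w - w.length ≤ -(ε * (θ * n))} := by
      intro ω hω
      obtain ⟨w, hw1, hw2, hw3, hw4⟩ := exists_cheap_walk i₀ hε (by linarith) (hE.cf_bd ω)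
        (fl n x) (by rw [hzi]; exact Int.natCast_nonneg n) (θ * n) (mul_nonneg hθ hn0) hω
      refine ⟨w, ?_, hw2, ?_, hw4⟩
      · have h1 : (w.length : ℝ) ≤ ((4 * n + 4 * d : ℕ) : ℝ) := by
          push_cast
          have h2 : (1 + 2 * ε) * n1 (fl n x) ≤ (1 + 2 * ε) * (n * 2 + d) :=
            mul_le_mul_of_nonneg_left (by linarith) (by linarith)
          have h3 : (1 + 2 * ε) * (n * 2 + d) ≤ (5 / 4) * ((n : ℝ) * 2 + d) :=
            mul_le_mul_of_nonneg_right (by linarith) (by linarith)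
          linarith
        exact_mod_cast h1
      · rw [hJ]
        apply Nat.le_floor
        refine hw3.trans ?_
        rw [hzi]
        have h2 : (1 + 2 * ε) * n1 (fl n x) ≤ (1 + 2 * ε) * (n * nr x + d) :=
          mul_le_mul_of_nonneg_left hN (by linarith)
        have h3 : ε * ((n : ℝ) * nr x) ≤ ε * (n * 2) := mul_le_mul_of_nonneg_left hnx hε.le
        have h4 : ε * (d : ℝ) ≤ 1 / 8 * d := mul_le_mul_of_nonneg_right hε8 hd0
        have h5 : 0 ≤ ε * (n : ℝ) := mul_nonneg hε.le hn0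
        push_cast
        nlinarith
    refine (measureReal_mono hsub).trans (hu.trans ?_)
    have hpow : κ ^ J ≤ κ ^ ((n : ℝ) * (nr x - 1 + 8 * ε) + 2 * d + 1) := by
      rw [← Real.rpow_natCast]
      apply Real.rpow_le_rpow_of_exponent_le hκ
      have := Nat.floor_le hJ0
      rw [← hJ] at this
      linarith
    push_cast
    refine mul_le_mul_of_nonneg_left ?_ (by positivity)
    exact mul_le_mul_of_nonneg_right hpow (Real.exp_pos _).le
  have hPA0 : Tendsto (fun n => P.real (A n)) atTop (𝓝 0) :=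
    squeeze_zero (fun n => measureReal_nonneg) hPA hlim
  -- the expectation
  have hmm : ∀ n : ℕ, (n1 (fl n x) - ε * (θ * n)) * (1 - P.real (A n)) ≤ mm P X (fl n x) := by
    intro n
    have h1 : (n1 (fl n x) - ε * (θ * n)) * (1 - P.real (A n)) =
        ∫ ω, (A n)ᶜ.indicator (fun _ => n1 (fl n x) - ε * (θ * n)) ω ∂P := by
      rw [integral_indicator (hAm n).compl, setIntegral_const, smul_eq_mul, mul_comm]
      congr 1
      rw [probReal_compl_eq_one_sub (hAm n)]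
    rw [h1]
    unfold mm
    refine integral_mono_ae ?_ (integrable_T hE _ _) (Eventually.of_forall fun ω => ?_)
    · exact (integrable_const _).indicator (hAm n).compl
    · by_cases hω : ω ∈ A n
      · simp only [Set.indicator_of_notMem (Set.notMem_compl_iff.mpr hω)]
        exact le_trans (mul_nonneg hE.apos.le (n1_nonneg _)) (le_T (hE.cf_bd ω) 0 (fl n x))
      · simp only [Set.indicator_of_mem (Set.mem_compl hω)]
        have : ¬ T (cf X ω) 0 (fl n x) ≤ n1 (fl n x) - ε * (θ * n) := hω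
        exact (not_le.mp this).le
  have hl1 : Tendsto (fun n : ℕ => (n1 (fl n x) / n - ε * θ) * (1 - P.real (A n))) atTop
      (𝓝 ((nr x - ε * θ) * (1 - 0))) :=
    ((tendsto_n1_fl x).sub_const _).mul (tendsto_const_nhds.sub hPA0)
  rw [sub_zero, mul_one] at hl1
  refine le_of_tendsto_of_tendsto hl1 (tendsto_tc (subM_mm hE) x) ?_
  filter_upwards [eventually_ge_atTop 1] with n hn
  have hn0 : (0 : ℝ) < n := by exact_mod_cast hn
  have h1 : (n1 (fl n x) / n - ε * θ) * (1 - P.real (A n)) =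
      ((n1 (fl n x) - ε * (θ * n)) * (1 - P.real (A n))) / n := by
    field_simp
  rw [h1]
  exact div_le_div_of_nonneg_right (hmm n) hn0.le

end Pool.Agent.Helper79.GR
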