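import Pool.Agent.Helper79.GR.DA

/-!
# GR-DB: the passage time, basic facts

`exists_min`: there is a walk `w₀` from `x` to `y` (`exists_walk`); a walk of cost at most the cost
of `w₀` has length at most `L` (`le_cost`), and there are finitely many lists of length at most `L`
(`List.finite_length_le`).  So a cheapest walk exists; the infimum is attained there.
-/

set_option autoImplicit false

namespace Pool.Agent.Helper79.GR

private theorem bdd_db {d : ℕ} {a b : ℝ} {c : Edge d → ℝ} (h : Bd a b c) (x y : V d) :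
    BddBelow (Set.range fun w : {w : List (St d) // pos x w = y} => cost c x w.1) := by
  refine ⟨0, ?_⟩
  rintro _ ⟨w, rfl⟩
  have h1 := le_cost h x w.1
  have h2 : 0 ≤ a * (w.1.length : ℝ) := mul_nonneg h.1.le (Nat.cast_nonneg _)
  exact h2.trans h1

theorem T_le_cost {d : ℕ} {a b : ℝ} {c : Edge d → ℝ} (h : Bd a b c) {x y : V d}
    {w : List (St d)} (hw : pos x w = y) : T c x y ≤ cost c x w :=
  ciInf_le (bdd_db h x y) (⟨w, hw⟩ : {w : List (St d) // pos x w = y})

theorem exists_min {d : ℕ} {a b : ℝ} {c : Edge d → ℝ} (h : Bd a b c) (x y : V d) :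
    ∃ w, pos x w = y ∧ cost c x w = T c x y := by
  obtain ⟨w₀, hw₀, -⟩ := exists_walk x y
  have ha : 0 < a := h.1
  obtain ⟨L, hL⟩ := exists_nat_ge (cost c x w₀ / a)
  -- the finite set of walks to `y` of length at most `L`
  set S : Set (List (St d)) := {w | pos x w = y ∧ w.length ≤ L} with hS
  have hfin : S.Finite := (List.finite_length_le (St d) L).subset fun w hw => hw.2
  have hlen : ∀ w : List (St d), cost c x w ≤ cost c x w₀ → w.length ≤ L := by
    intro w hw
    have h1 : a * (w.length : ℝ) ≤ cost c x w₀ := (le_cost h x w).trans hw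
    have h2 : (w.length : ℝ) ≤ cost c x w₀ / a := by
      rw [le_div_iff₀ ha]; linarith
    exact_mod_cast h2.trans hL
  have hne : S.Nonempty := ⟨w₀, hw₀, hlen w₀ le_rfl⟩
  obtain ⟨w₁, hw₁, hmin⟩ := Set.exists_min_image S (fun w => cost c x w) hfin hne
  have hall : ∀ w : List (St d), pos x w = y → cost c x w₁ ≤ cost c x w := by
    intro w hw
    by_cases hc : cost c x w ≤ cost c x w₀
    · exact hmin w ⟨hw, hlen w hc⟩
    · exact (hmin w₀ ⟨hw₀, hlen w₀ le_rfl⟩).trans (not_le.mp hc).le
  refine ⟨w₁, hw₁.1, le_antisymm ?_ (T_le_cost h hw₁.1)⟩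
  have : Nonempty {w : List (St d) // pos x w = y} := ⟨⟨w₀, hw₀⟩⟩
  exact le_ciInf fun w => hall w.1 w.2

theorem geo_iff {d : ℕ} {a b : ℝ} {c : Edge d → ℝ} (h : Bd a b c) (x : V d)
    (w : List (St d)) : Geo c x w ↔ cost c x w = T c x (pos x w) := by
  constructor
  · intro hg
    obtain ⟨w', hw', hc'⟩ := exists_min h x (pos x w)
    refine le_antisymm ?_ (T_le_cost h rfl)
    rw [← hc']
    exact hg w' hw'
  · intro he w' hw'
    rw [he]
    exact T_le_cost h hw'

theorem T_triangle {d : ℕ} {a b : ℝ} {c : Edge d → ℝ} (h : Bd a b c) (x y z : V d) :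
    T c x z ≤ T c x y + T c y z := by
  obtain ⟨w, hw, hc⟩ := exists_min h x y
  obtain ⟨w', hw', hc'⟩ := exists_min h y z
  have h1 : pos x (w ++ w') = z := by rw [pos_append, hw, hw']
  have h2 := T_le_cost h h1
  rw [cost_append, hw, hc, hc'] at h2
  exact h2

theorem le_T {d : ℕ} {a b : ℝ} {c : Edge d → ℝ} (h : Bd a b c) (x y : V d) :
    a * n1 (y - x) ≤ T c x y := by
  obtain ⟨w, hw, hc⟩ := exists_min h x y
  rw [← hc]
  have h1 := n1_pos_sub_le x w
  rw [hw] at h1
  exact (mul_le_mul_of_nonneg_left h1 h.1.le).trans (le_cost h x w)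

theorem T_le {d : ℕ} {a b : ℝ} {c : Edge d → ℝ} (h : Bd a b c) (x y : V d) :
    T c x y ≤ b * n1 (y - x) := by
  obtain ⟨w, hw, hl⟩ := exists_walk x y
  have h1 := T_le_cost h hw
  have h2 := cost_le h x w
  rw [hl] at h2
  exact h1.trans h2

theorem length_geo {d : ℕ} {a b : ℝ} {c : Edge d → ℝ} (h : Bd a b c) {x : V d}
    {w : List (St d)} (hw : Geo c x w) : a * w.length ≤ b * n1 (pos x w - x) := by
  have h1 := le_cost h x w
  rw [(geo_iff h x w).1 hw] at h1
  exact h1.trans (T_le h x _)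

end Pool.Agent.Helper79.GR
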