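import Mathlib

/-!
# Project GR (MP_13b103_pr, geodesic rays at small noise): definitions
-/

set_option autoImplicit false

namespace Pool.Agent.Helper79.GR

open MeasureTheory ProbabilityTheory Filter

/-- lattice points -/
abbrev V (d : ℕ) : Type := Fin d → ℤ

/-- the `ℓ¹` norm of a lattice point -/
def n1 {d : ℕ} (x : V d) : ℝ := ∑ i, |(x i : ℝ)|

/-- the `ℓ¹` norm of a real vector -/
def nr {d : ℕ} (x : Fin d → ℝ) : ℝ := ∑ i, |x i|

/-- a lattice point as a real vector -/
def rv {d : ℕ} (x : V d) : Fin d → ℝ := fun i => (x i : ℝ)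

/-- steps: a direction and a sign -/
abbrev St (d : ℕ) : Type := Fin d × Bool

/-- the vector of a step -/
def sv {d : ℕ} (s : St d) : V d := Pi.single s.1 (if s.2 then 1 else -1)

/-- the edges (as in the frozen statement) -/
abbrev Edge (d : ℕ) : Type :=
  {e : Sym2 (V d) // ∃ x y : V d, e = s(x, y) ∧ ∑ i, |x i - y i| = 1}

theorem sum_sv {d : ℕ} (x : V d) (s : St d) : ∑ i, |x i - (x + sv s) i| = 1 := by
  rw [Finset.sum_eq_single s.1]
  · rcases s with ⟨i, _ | _⟩ <;> simp [sv]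
  · intro j _ hj
    simp [sv, Pi.single_eq_of_ne hj]
  · intro h
    exact absurd (Finset.mem_univ _) h

/-- the edge from `x` in the direction of the step `s` -/
def ed {d : ℕ} (x : V d) (s : St d) : Edge d := ⟨s(x, x + sv s), x, x + sv s, rfl, sum_sv x s⟩

/-- the end of the walk with the steps `w` from `x` -/
def pos {d : ℕ} : V d → List (St d) → V d
  | x, [] => x
  | x, s :: w => pos (x + sv s) w

/-- the passage time of the walk with the steps `w` from `x` -/
def cost {d : ℕ} (c : Edge d → ℝ) : V d → List (St d) → ℝ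
  | _, [] => 0
  | x, s :: w => c (ed x s) + cost c (x + sv s) w

/-- the edges of the walk with the steps `w` from `x` -/
def eds {d : ℕ} : V d → List (St d) → List (Edge d)
  | _, [] => []
  | x, s :: w => ed x s :: eds (x + sv s) w

/-- the passage time between two points -/
noncomputable def T {d : ℕ} (c : Edge d → ℝ) (x y : V d) : ℝ :=
  ⨅ w : {w : List (St d) // pos x w = y}, cost c x w.1

/-- weights between `a > 0` and `b` -/
def Bd {d : ℕ} (a b : ℝ) (c : Edge d → ℝ) : Prop := 0 < a ∧ ∀ e, a ≤ c e ∧ c e ≤ b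

/-- the walk with the steps `w` from `x` is a geodesic -/
def Geo {d : ℕ} (c : Edge d → ℝ) (x : V d) (w : List (St d)) : Prop :=
  ∀ w', pos x w' = pos x w → cost c x w ≤ cost c x w'

/-- the first `n` steps of an infinite walk -/
def pre {d : ℕ} (s : ℕ → St d) (n : ℕ) : List (St d) := (List.range n).map s

/-- a geodesic ray from `0`, given by its steps -/
def Ray {d : ℕ} (c : Edge d → ℝ) (s : ℕ → St d) : Prop := ∀ n, Geo c 0 (pre s n)

/-- the number of steps of `w` which are not `+ e i₀` -/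
def bad {d : ℕ} (i₀ : Fin d) (w : List (St d)) : ℕ := w.countP fun s => s ≠ (i₀, true)

/-- subadditive functions between `a n1` and `b n1` -/
structure SubM {d : ℕ} (a b : ℝ) (m : V d → ℝ) : Prop where
  apos : 0 < a
  add : ∀ x y, m (x + y) ≤ m x + m y
  lo : ∀ x, a * n1 x ≤ m x
  hi : ∀ x, m x ≤ b * n1 x

/-- the integer part of `n x` -/
noncomputable def fl {d : ℕ} (n : ℕ) (x : Fin d → ℝ) : V d := fun i => ⌊n * x i⌋

/-- the time constant of `m` -/
noncomputable def tc {d : ℕ} (m : V d → ℝ) (x : Fin d → ℝ) : ℝ :=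
  limUnder atTop fun n : ℕ => m (fl n x) / n

section

variable {Ω : Type*} [MeasurableSpace Ω]

/-- independent identically distributed weights with values in `[a, b]`, `a > 0` -/
structure Env {d : ℕ} (P : Measure Ω) (X : Edge d → Ω → ℝ) (ν : Measure ℝ) (a b : ℝ) : Prop where
  prob : IsProbabilityMeasure P
  meas : ∀ e, Measurable (X e)
  indep : iIndepFun X P
  law : ∀ e, P.map (X e) = ν
  apos : 0 < a
  bd : ∀ e ω, a ≤ X e ω ∧ X e ω ≤ b

/-- the weights at `ω` -/
def cf {d : ℕ} (X : Edge d → Ω → ℝ) (ω : Ω) : Edge d → ℝ := fun e => X e ω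

/-- the expected passage time from `0` to `v` -/
noncomputable def mm {d : ℕ} (P : Measure Ω) (X : Edge d → Ω → ℝ) (v : V d) : ℝ :=
  ∫ ω, T (cf X ω) 0 v ∂P

theorem Env.cf_bd {d : ℕ} {P : Measure Ω} {X : Edge d → Ω → ℝ} {ν : Measure ℝ} {a b : ℝ}
    (h : Env P X ν a b) (ω : Ω) : Bd a b (cf X ω) := ⟨h.apos, fun e => h.bd e ω⟩

end

/-- `w` is a direction such that the point `x` does not share a face of the unit ball of `μ` with
`w` -/
def NoShare {d : ℕ} (μ : (Fin d → ℝ) → ℝ) (w x : Fin d → ℝ) : Prop := μ (x + w) < μ x + μ w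

/-- the properties of the time constant at noise level `ε` (`i₀` is the first coordinate) -/
structure Nm {d : ℕ} (i₀ : Fin d) (ε c C : ℝ) (μ : (Fin d → ℝ) → ℝ) : Prop where
  add : ∀ x y, μ (x + y) ≤ μ x + μ y
  smul : ∀ t : ℝ, 0 ≤ t → ∀ x, μ (t • x) = t * μ x
  lo : ∀ x, (1 - ε) * nr x ≤ μ x
  one : ∀ s : St d, μ (rv (sv s)) ≤ 1
  up : ∀ s : St d, s.1 ≠ i₀ → ∀ M : ℕ, 1 ≤ M →
    μ (rv (M • sv (i₀, true) + sv s)) ≤ M + 1 - ε * (c * √M)
  dn : ∀ x : Fin d → ℝ, x i₀ = 1 → nr x ≤ 2 → ∀ θ : ℝ, 0 ≤ θ →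
    C * (nr x - 1 + 8 * ε) ≤ θ ^ 3 → nr x - ε * θ ≤ μ x

end Pool.Agent.Helper79.GR
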