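import Pool.Agent.Helper79.GR.GE

/-!
# GR-GF: many directions without common shared points

Choose `M 0 < M 1 < …` recursively above `M₀` of `window` with
`64 C / (c ^ 3 √(M (k + 1))) < c ^ 6 / (864 C ^ 2 (M k) ^ 2)` (so the windows are disjoint and
decreasing, for all pairs), `ε₀` = minimum of the finitely many `ε₀` of `window`.
-/

set_option autoImplicit false

namespace Pool.Agent.Helper79.GR

private theorem gf_next {c C : ℝ} (hc : 0 < c) (hC : 0 < C) (M : ℕ) :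
    ∃ M' : ℕ, M < M' ∧ (1 ≤ M → 64 * C / (c ^ 3 * √M') < c ^ 6 / (864 * C ^ 2 * M ^ 2)) := by
  by_cases hM : 1 ≤ M
  · have hM' : (0 : ℝ) < M := by exact_mod_cast hM
    obtain ⟨δ, hδ⟩ : ∃ δ : ℝ, δ = c ^ 6 / (864 * C ^ 2 * M ^ 2) := ⟨_, rfl⟩
    have hδ0 : 0 < δ := by rw [hδ]; positivity
    obtain ⟨B, hB⟩ : ∃ B : ℝ, B = 64 * C / (c ^ 3 * δ) := ⟨_, rfl⟩
    have hB0 : 0 < B := by rw [hB]; positivity
    obtain ⟨m, hm⟩ := exists_nat_gt (B ^ 2)
    refine ⟨max m (M + 1), lt_of_lt_of_le (Nat.lt_succ_self M) (le_max_right _ _), fun _ => ?_⟩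
    have h1 : B < √((max m (M + 1) : ℕ) : ℝ) := by
      rw [Real.lt_sqrt hB0.le]
      refine hm.trans_le ?_
      exact_mod_cast le_max_left m (M + 1)
    rw [← hδ]
    have h2 : 0 < √((max m (M + 1) : ℕ) : ℝ) := hB0.trans h1
    rw [div_lt_iff₀ (by positivity)]
    have h3 : 64 * C = B * (c ^ 3 * δ) := by
      rw [hB, div_mul_cancel₀]
      positivity
    rw [h3]
    have h4 : 0 < c ^ 3 * δ := by positivity
    calc B * (c ^ 3 * δ) < √((max m (M + 1) : ℕ) : ℝ) * (c ^ 3 * δ) :=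
          mul_lt_mul_of_pos_right h1 h4
      _ = δ * (c ^ 3 * √((max m (M + 1) : ℕ) : ℝ)) := by ring
  · exact ⟨M + 1, Nat.lt_succ_self M, fun h => absurd h hM⟩

private theorem gf_min {N : ℕ} (e : Fin N → ℝ) (he : ∀ i, 0 < e i) :
    ∃ ε₀ : ℝ, 0 < ε₀ ∧ ∀ i, ε₀ ≤ e i := by
  rcases isEmpty_or_nonempty (Fin N) with h | h
  · exact ⟨1, one_pos, fun i => (h.false i).elim⟩
  · obtain ⟨i, hi⟩ := Finite.exists_min e
    exact ⟨e i, he i, hi⟩

theorem many_directions {d : ℕ} (i₀ i₁ : Fin d) (hi : i₁ ≠ i₀) (c C : ℝ) (hc : 0 < c)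
    (hC : 0 < C) (N : ℕ) :
    ∃ (w : Fin N → V d) (ε₀ : ℝ), (∀ i, w i ≠ 0) ∧ 0 < ε₀ ∧ ∀ ε : ℝ, 0 < ε → ε < ε₀ →
      ∀ μ : (Fin d → ℝ) → ℝ, Nm i₀ ε c C μ → ∀ i j, i ≠ j → ∀ x : Fin d → ℝ, x ≠ 0 →
        NoShare μ (rv (w i)) x ∨ NoShare μ (rv (w j)) x := by
  obtain ⟨M₀, hM₀, hwin⟩ := window i₀ i₁ hi c C hc hC
  choose g hg1 hg2 using gf_next hc hC
  obtain ⟨M, hM⟩ : ∃ M : ℕ → ℕ, ∀ k, M k = g^[k] M₀ := ⟨_, fun _ => rfl⟩
  have hM0 : M 0 = M₀ := by rw [hM]; rfl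
  have hMs : ∀ k, M (k + 1) = g (M k) := fun k => by
    rw [hM, hM, Function.iterate_succ_apply']
  have hmono : StrictMono M := strictMono_nat_of_lt_succ fun k => by
    rw [hMs]
    exact hg1 _
  have hge : ∀ k, M₀ ≤ M k := fun k => hM0 ▸ hmono.monotone (Nat.zero_le k)
  have hge1 : ∀ k, 1 ≤ M k := fun k => hM₀.trans (hge k)
  have hsep : ∀ i j : ℕ, i < j →
      64 * C / (c ^ 3 * √(M j)) < c ^ 6 / (864 * C ^ 2 * (M i : ℝ) ^ 2) := by
    intro i j hij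
    obtain ⟨k, rfl⟩ : ∃ k, j = k + 1 := ⟨j - 1, by omega⟩
    have h1 := hg2 (M k) (hge1 k)
    rw [← hMs] at h1
    refine h1.trans_le ?_
    have h2 : (M i : ℝ) ≤ M k := by exact_mod_cast hmono.monotone (Nat.le_of_lt_succ hij)
    have h3 : (0 : ℝ) < M i := by exact_mod_cast hge1 i
    have h4 : (0 : ℝ) < M k := h3.trans_le h2
    apply div_le_div_of_nonneg_left (by positivity) (by positivity)
    exact mul_le_mul_of_nonneg_left (pow_le_pow_left₀ h3.le h2 2) (by positivity)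
  choose e he hew using fun k : Fin N => hwin (M k) (hge k)
  obtain ⟨ε₀, hε₀, hle⟩ := gf_min e he
  refine ⟨fun i => M i • sv (i₀, true) + sv (i₁, true), ε₀, fun i h => ?_, hε₀, ?_⟩
  · have h1 := congrFun h i₁
    simp [sv, Pi.single_eq_of_ne hi] at h1
  · intro ε hε0 hε μ hμ
    have key : ∀ i j : Fin N, i < j → ∀ x : Fin d → ℝ, x ≠ 0 →
        NoShare μ (rv (M i • sv (i₀, true) + sv (i₁, true))) x ∨
          NoShare μ (rv (M j • sv (i₀, true) + sv (i₁, true))) x := by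
      intro i j hij x hx
      by_contra hcon
      rw [not_or] at hcon
      obtain ⟨h1, h2, -⟩ := hew i ε hε0 (hε.trans_le (hle i)) μ hμ x hx hcon.1
      obtain ⟨-, -, h3⟩ := hew j ε hε0 (hε.trans_le (hle j)) μ hμ x hx hcon.2
      have h4 := hsep i j hij
      have h5 := mul_lt_mul_of_pos_right h4 h1
      linarith
    intro i j hij x hx
    rcases lt_or_gt_of_ne hij with h | h
    · exact key i j h x hx
    · exact (key j i h x hx).symm

end Pool.Agent.Helper79.GR
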