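import Pool.Agent.Helper79.GR.RN
import Pool.Agent.Helper79.GR.GF
import Pool.Agent.Helper79.GR.BB
import Pool.Agent.Helper79.GR.BG

/-!
# GR-FB: many rays at small noise, normalised weights

`Nm i₀ ε (κ ^ 2 / 6) C (tc (mm P X))`: `tc_add_le`, `tc_smul`, `le_tc`, `mul_tc_le` with
`mm_sv_le` and `mm_two_walks` (`k = 1`), `tc_lower`.  Then `many_directions` and `theorem_A`.
-/

set_option autoImplicit false

namespace Pool.Agent.Helper79.GR

open MeasureTheory ProbabilityTheory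

theorem rays_normalised (d : ℕ) (hd : 2 ≤ d) (N : ℕ) (κ : ℝ) (hκ : 0 < κ) :
    ∃ ε₀ : ℝ, 0 < ε₀ ∧ ∀ {Ω : Type} [MeasurableSpace Ω] {P : Measure Ω}
      {X : Edge d → Ω → ℝ} {ν : Measure ℝ} {ε : ℝ}, 0 < ε → ε < ε₀ →
      Env P X ν (1 - ε) (1 + ε) → ∫ x, x ∂ν = 1 → κ * ε ^ 2 ≤ ∫ x, (x - 1) ^ 2 ∂ν →
      ∀ᵐ ω ∂P, ∃ s : Fin N → ℕ → St d, Function.Injective s ∧ ∀ i, Ray (cf X ω) (s i) := by
  obtain ⟨C, hC, hlow⟩ := tc_lower d
  obtain ⟨w, ε₁, hw0, hε₁, hdir⟩ := many_directions (d := d) ⟨0, by omega⟩ ⟨1, by omega⟩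
    (fun h => by simpa using congrArg Fin.val h) (κ ^ 2 / 6) C (by positivity) hC N
  refine ⟨min ε₁ (1 / 8), lt_min hε₁ (by norm_num), ?_⟩
  intro Ω _ P X ν ε hε hεlt h hmean hvar
  have hS := subM_mm h
  have hNm : Nm (d := d) ⟨0, by omega⟩ ε (κ ^ 2 / 6) C (tc (mm P X)) := by
    refine ⟨fun x y => tc_add_le hS x y, fun t ht x => tc_smul hS t ht x,
      fun x => le_tc hS x, fun s => ?_, fun s hs M hM => ?_, ?_⟩
    · have h1 := mul_tc_le hS (sv s) 1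
      rw [Nat.cast_one, one_mul, one_smul] at h1
      exact h1.trans (mm_sv_le h hmean s)
    · have h1 := mul_tc_le hS (M • sv (⟨0, by omega⟩, true) + sv s) 1
      rw [Nat.cast_one, one_mul, one_smul] at h1
      exact h1.trans (mm_two_walks h hε hmean κ hκ hvar _ s hs M hM)
    · intro x hx hnr θ hθ hCθ
      exact hlow hε (hεlt.le.trans (min_le_right _ _)) h hmean _ x hx hnr θ hθ hCθ
  exact theorem_A h w hw0 fun i j hij x hx =>
    hdir ε hε (hεlt.trans_le (min_le_left _ _)) _ hNm i j hij x hx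

end Pool.Agent.Helper79.GR
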