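import Pool.Agent.Helper79.GR.FA
import Pool.Agent.Helper79.GR.FB

/-!
# GR-FC: the final theorem in the form of the frozen statement

Given `C` and `N` let `ε₀ ≤ 1 / 2` be the number of `rays_normalised` for `κ = 1 / C ^ 2` and
`δ = ε₀ / (2 C)` (`C ≥ 1` unless the hypotheses are contradictory: `σ ^ 2 = E (t - m) ^ 2 ≤ C ^ 2 σ ^ 2`;
take `δ = 1` if `C < 1`).  `ε = C σ / m ≤ ε₀ / 2`.  Normalised weights
`X e ω = max (1 - ε) (min (1 + ε) (t e ω / m))`: for all edges almost surely equal to `t e ω / m`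
(countably many edges), independent (`iIndepFun.comp`), law `ν` = the image of `μ` under
`x ↦ max (1 - ε) (min (1 + ε) (x / m))`, mean `1`, variance `σ ^ 2 / m ^ 2 = ε ^ 2 / C ^ 2`.
`rays_to_paths` with `c e = X e ω`, `t e = t e ω / m`, and multiply the inequalities by `m`.
-/

set_option autoImplicit false

namespace Pool.Agent.Helper79.GR

open MeasureTheory ProbabilityTheory

private theorem FC_ae {μ : Measure ℝ} {m σ C : ℝ}
    (h : μ (Set.Icc (m - C * σ) (m + C * σ))ᶜ = 0) :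
    ∀ᵐ x ∂μ, x ∈ Set.Icc (m - C * σ) (m + C * σ) := by
  rw [ae_iff]
  exact h

private theorem FC_small {μ : Measure ℝ} (hμ : IsProbabilityMeasure μ) {m σ C : ℝ} (hσ : 0 < σ)
    (hC : C < 1) (h : μ (Set.Icc (m - C * σ) (m + C * σ))ᶜ = 0)
    (hv : ∫ x, (x - m) ^ 2 ∂μ = σ ^ 2) : False := by
  have hae := FC_ae h
  have hC0 : 0 ≤ C := by
    by_contra hneg
    push Not at hneg
    obtain ⟨x, hx⟩ := hae.exists
    have h1 : C * σ < 0 := mul_neg_of_neg_of_pos hneg hσ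
    linarith [hx.1, hx.2]
  have h2 : ∫ x, (x - m) ^ 2 ∂μ ≤ ∫ _x, (C * σ) ^ 2 ∂μ := by
    refine integral_mono_of_nonneg (Filter.Eventually.of_forall fun x => sq_nonneg _)
      (integrable_const _) ?_
    filter_upwards [hae] with x hx
    exact sq_le_sq' (by linarith [hx.1]) (by linarith [hx.2])
  rw [hv, integral_const, probReal_univ, one_smul] at h2
  have h3 : C * σ < σ := by nlinarith
  have h4 : 0 ≤ C * σ := mul_nonneg hC0 hσ.le
  nlinarith

private noncomputable def FC_g (m ε x : ℝ) : ℝ := max (1 - ε) (min (1 + ε) (x / m))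

private theorem FC_g_meas (m ε : ℝ) : Measurable (FC_g m ε) := by
  unfold FC_g
  fun_prop

private theorem FC_g_bd {m ε : ℝ} (hε : 0 < ε) (x : ℝ) :
    1 - ε ≤ FC_g m ε x ∧ FC_g m ε x ≤ 1 + ε := by
  unfold FC_g
  exact ⟨le_max_left _ _, max_le (by linarith) (min_le_left _ _)⟩

private theorem FC_g_eq {m σ C : ℝ} (hm : 0 < m) {x : ℝ}
    (hx : x ∈ Set.Icc (m - C * σ) (m + C * σ)) : FC_g m (C * σ / m) x = x / m := by
  have h1 : x / m ≤ 1 + C * σ / m := by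
    rw [div_le_iff₀ hm, add_mul, div_mul_cancel₀ _ hm.ne', one_mul]
    exact hx.2
  have h2 : 1 - C * σ / m ≤ x / m := by
    rw [le_div_iff₀ hm, sub_mul, div_mul_cancel₀ _ hm.ne', one_mul]
    exact hx.1
  unfold FC_g
  rw [min_eq_right h1, max_eq_right h2]

theorem final : ∀ (d : ℕ), 2 ≤ d → ∀ (N : ℕ) (C : ℝ), ∃ δ : ℝ, 0 < δ ∧
  ∀ (μ : Measure ℝ), IsProbabilityMeasure μ → ∀ (m σ : ℝ), 0 < σ → σ ≤ δ * m →
  μ (Set.Icc (m - C * σ) (m + C * σ))ᶜ = 0 → ∫ x, x ∂μ = m → ∫ x, (x - m) ^ 2 ∂μ = σ ^ 2 →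
  ∀ (Ω : Type) (mΩ : MeasurableSpace Ω) (P : Measure Ω), IsProbabilityMeasure P →
  ∀ (t : Sym2 (Fin d → ℤ) → Ω → ℝ),
    (∀ e, Measurable (t e)) →
    iIndepFun
      (fun e : {e : Sym2 (Fin d → ℤ) //
          ∃ x y : Fin d → ℤ, e = s(x, y) ∧ ∑ i, |x i - y i| = 1} => t e.1)
      P →
    (∀ x y : Fin d → ℤ, ∑ i, |x i - y i| = 1 →
      Measure.map (t s(x, y)) P = μ) →
    ∀ᵐ ω ∂P,
      (N : ℕ∞) ≤ Set.encard {γ : ℕ → (Fin d → ℤ) |
        γ 0 = 0 ∧ Function.Injective γ ∧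
        (∀ k, ∑ i, |γ k i - γ (k + 1) i| = 1) ∧
        ∀ m n : ℕ, m ≤ n →
          ∀ (L : ℕ) (q : ℕ → (Fin d → ℤ)), q 0 = γ m → q L = γ n →
            (∀ k < L, ∑ i, |q k i - q (k + 1) i| = 1) →
            ∑ k ∈ Finset.range (n - m), t s(γ (m + k), γ (m + k + 1)) ω ≤
              ∑ k ∈ Finset.range L, t s(q k, q (k + 1)) ω} := by
  intro d hd N C
  rcases lt_or_ge C 1 with hC | hC
  · refine ⟨1, one_pos, ?_⟩
    intro μ hμ m σ hσ _ hsupp _ hvar
    exact (FC_small hμ hσ hC hsupp hvar).elim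
  have hC0 : 0 < C := by linarith
  obtain ⟨ε₀, hε₀, hmain⟩ := rays_normalised d hd N (1 / C ^ 2) (by positivity)
  have hε₁ : 0 < min ε₀ (1 / 2) := lt_min hε₀ (by norm_num)
  refine ⟨min ε₀ (1 / 2) / (2 * C), by positivity, ?_⟩
  intro μ hμ m σ hσ hσm hsupp hmean hvar Ω mΩ P hP t htm hti htl
  have hm : 0 < m := by
    by_contra hneg
    push Not at hneg
    have h1 : min ε₀ (1 / 2) / (2 * C) * m ≤ 0 :=
      mul_nonpos_of_nonneg_of_nonpos (by positivity) hneg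
    linarith
  obtain ⟨ε, hε⟩ : ∃ ε, ε = C * σ / m := ⟨_, rfl⟩
  have hεpos : 0 < ε := by
    rw [hε]
    positivity
  have hεle : ε ≤ min ε₀ (1 / 2) / 2 := by
    rw [hε, div_le_iff₀ hm]
    have h1 : C * σ ≤ C * (min ε₀ (1 / 2) / (2 * C) * m) := mul_le_mul_of_nonneg_left hσm hC0.le
    have h2 : C * (min ε₀ (1 / 2) / (2 * C) * m) = min ε₀ (1 / 2) / 2 * m := by
      field_simp
    rwa [h2] at h1
  have hεε₀ : ε < ε₀ := by
    have h1 := min_le_left ε₀ (1 / 2)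
    linarith
  have hε1 : ε < 1 := by
    have h1 := min_le_right ε₀ (1 / 2 : ℝ)
    linarith
  have hae := FC_ae hsupp
  have hgm := FC_g_meas m ε
  have hgae : ∀ᵐ x ∂μ, FC_g m ε x = x / m := by
    filter_upwards [hae] with x hx
    rw [hε]
    exact FC_g_eq hm hx
  have hlaw : ∀ e : Edge d, P.map (t e.1) = μ := by
    rintro ⟨e, x, y, rfl, hxy⟩
    exact htl x y hxy
  have henv : Env P (fun (e : Edge d) ω => FC_g m ε (t e.1 ω)) (μ.map (FC_g m ε))
      (1 - ε) (1 + ε) := by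
    refine ⟨hP, fun e => hgm.comp (htm e.1), ?_, ?_, by linarith, fun e ω => FC_g_bd hεpos _⟩
    · exact hti.comp (fun _ => FC_g m ε) (fun _ => hgm)
    · intro e
      have h1 : P.map (fun ω => FC_g m ε (t e.1 ω)) = (P.map (t e.1)).map (FC_g m ε) := by
        rw [Measure.map_map hgm (htm e.1)]
        rfl
      rw [h1, hlaw e]
  have hmean' : ∫ x, x ∂(μ.map (FC_g m ε)) = 1 := by
    rw [integral_map hgm.aemeasurable (by fun_prop)]
    rw [integral_congr_ae hgae, integral_div, hmean, div_self hm.ne']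
  have hvar' : 1 / C ^ 2 * ε ^ 2 ≤ ∫ x, (x - 1) ^ 2 ∂(μ.map (FC_g m ε)) := by
    rw [integral_map hgm.aemeasurable (by fun_prop)]
    have h1 : ∫ x, (FC_g m ε x - 1) ^ 2 ∂μ = ∫ x, (x - m) ^ 2 / m ^ 2 ∂μ := by
      refine integral_congr_ae ?_
      filter_upwards [hgae] with x hx
      rw [hx]
      field_simp
    rw [h1, integral_div, hvar, hε]
    apply le_of_eq
    field_simp
  have hrays := hmain hεpos hεε₀ henv hmean' hvar'
  have hedge : ∀ᵐ ω ∂P, ∀ e : Edge d, FC_g m ε (t e.1 ω) = t e.1 ω / m := by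
    rw [ae_all_iff]
    intro e
    have h1 : ∀ᵐ x ∂(P.map (t e.1)), FC_g m ε x = x / m := by
      rw [hlaw e]
      exact hgae
    exact ae_of_ae_map (htm e.1).aemeasurable h1
  filter_upwards [hrays, hedge] with ω hω hω2
  obtain ⟨s, hs, hr⟩ := hω
  have h1 := rays_to_paths (henv.cf_bd ω) (fun e => t e ω / m) (fun e => (hω2 e).symm) N s hs hr
  refine h1.trans (Set.encard_le_encard ?_)
  rintro γ ⟨g1, g2, g3, g4⟩
  refine ⟨g1, g2, g3, ?_⟩
  intro a b hab L q hq0 hqL hq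
  have h2 := g4 a b hab L q hq0 hqL hq
  rw [← Finset.sum_div, ← Finset.sum_div, div_le_div_iff_of_pos_right hm] at h2
  exact h2

end Pool.Agent.Helper79.GR
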