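import Pool.Agent.Helper79.GR.Defs

/-!
# GR-GB: the coefficients of a supporting functional

`ρ` is a linear functional below `μ`; `al ρ ε j = (1 - |ρ (e j)|) / ε`.
-/

set_option autoImplicit false

namespace Pool.Agent.Helper79.GR

/-- the deficit of the coefficient `j` -/
noncomputable def al {d : ℕ} (ρ : (Fin d → ℝ) →ₗ[ℝ] ℝ) (ε : ℝ) (j : Fin d) : ℝ :=
  (1 - |ρ (Pi.single j 1)|) / ε

variable {d : ℕ} {i₀ : Fin d} {ε c C : ℝ} {μ : (Fin d → ℝ) → ℝ}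

private theorem GB_rvt (j : Fin d) : rv (sv (j, true)) = (Pi.single j 1 : Fin d → ℝ) := by
  funext k
  by_cases hk : k = j
  · subst hk
    simp [rv, sv]
  · simp [rv, sv, Pi.single_eq_of_ne hk]

private theorem GB_rvf (j : Fin d) : rv (sv (j, false)) = -(Pi.single j 1 : Fin d → ℝ) := by
  funext k
  by_cases hk : k = j
  · subst hk
    simp [rv, sv]
  · simp [rv, sv, Pi.single_eq_of_ne hk]

private theorem GB_rvM (M : ℕ) (s : St d) :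
    rv (M • sv (i₀, true) + sv s) = (M : ℝ) • (Pi.single i₀ 1 : Fin d → ℝ) + rv (sv s) := by
  rw [← GB_rvt]
  funext k
  simp [rv]

private theorem GB_abs (h : Nm i₀ ε c C μ) (ρ : (Fin d → ℝ) →ₗ[ℝ] ℝ)
    (hρ : ∀ y, ρ y ≤ μ y) (j : Fin d) : |ρ (Pi.single j 1)| ≤ 1 := by
  have h1 := (hρ _).trans (h.one (j, true))
  have h2 := (hρ _).trans (h.one (j, false))
  rw [GB_rvt] at h1
  rw [GB_rvf, map_neg] at h2
  exact abs_le.2 ⟨by linarith, h1⟩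

private theorem GB_dn (h : Nm i₀ ε c C μ) (ρ : (Fin d → ℝ) →ₗ[ℝ] ℝ)
    (i₁ : Fin d) (hi : i₁ ≠ i₀) (M : ℕ) (hM : 1 ≤ M)
    (hw : ρ (rv (M • sv (i₀, true) + sv (i₁, true))) =
      μ (rv (M • sv (i₀, true) + sv (i₁, true))))
    (θ : ℝ) (hθ : 0 ≤ θ) (hθC : C * (1 / M + 8 * ε) ≤ θ ^ 3) :
    M + 1 - ε * (M * θ) ≤ M * ρ (Pi.single i₀ 1) + ρ (Pi.single i₁ 1) := by
  have hM0 : (0 : ℝ) < M := by exact_mod_cast hM
  have hM1 : (1 : ℝ) ≤ M := by exact_mod_cast hM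
  set x : Fin d → ℝ := Pi.single i₀ 1 + (1 / (M : ℝ)) • Pi.single i₁ 1 with hx
  have hx0 : x i₀ = 1 := by
    simp [hx, Pi.single_eq_of_ne hi.symm]
  have hnr : nr x = 1 + 1 / M := by
    unfold nr
    have h1 : ∀ k, |x k| = (Pi.single i₀ 1 : Fin d → ℝ) k +
        (1 / (M : ℝ)) * (Pi.single i₁ 1 : Fin d → ℝ) k := by
      intro k
      have h2 : x k = (Pi.single i₀ 1 : Fin d → ℝ) k +
        (1 / (M : ℝ)) * (Pi.single i₁ 1 : Fin d → ℝ) k := by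
        simp [hx]
      rw [h2]
      apply abs_of_nonneg
      have h3 : 0 ≤ (Pi.single i₀ 1 : Fin d → ℝ) k := by
        by_cases hk : k = i₀
        · subst hk
          simp
        · rw [Pi.single_eq_of_ne hk]
      have h4 : 0 ≤ (Pi.single i₁ 1 : Fin d → ℝ) k := by
        by_cases hk : k = i₁
        · subst hk
          simp
        · rw [Pi.single_eq_of_ne hk]
      positivity
    rw [Finset.sum_congr rfl fun k _ => h1 k, Finset.sum_add_distrib, ← Finset.mul_sum,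
      Finset.sum_pi_single', Finset.sum_pi_single']
    simp
  have hle : nr x ≤ 2 := by
    rw [hnr]
    have : 1 / (M : ℝ) ≤ 1 := by
      rw [div_le_one hM0]
      exact hM1
    linarith
  have h1 := h.dn x hx0 hle θ hθ (by
    rw [hnr]
    have e : (1 : ℝ) + 1 / M - 1 + 8 * ε = 1 / M + 8 * ε := by ring
    rw [e]
    exact hθC)
  have hwx : rv (M • sv (i₀, true) + sv (i₁, true)) = (M : ℝ) • x := by
    rw [GB_rvM, GB_rvt, hx, smul_add, smul_smul, mul_one_div_cancel hM0.ne', one_smul]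
  have h2 : μ (rv (M • sv (i₀, true) + sv (i₁, true))) = M * μ x := by
    rw [hwx, h.smul _ hM0.le]
  have h3 : ρ (rv (M • sv (i₀, true) + sv (i₁, true))) =
      M * ρ (Pi.single i₀ 1) + ρ (Pi.single i₁ 1) := by
    rw [GB_rvM, GB_rvt, map_add, map_smul, smul_eq_mul]
  rw [h3, h2] at hw
  rw [hw]
  rw [hnr] at h1
  have h4 : (M : ℝ) * (1 + 1 / M - ε * θ) ≤ M * μ x := mul_le_mul_of_nonneg_left h1 hM0.le
  have h5 : (M : ℝ) * (1 + 1 / M - ε * θ) = M + 1 - ε * (M * θ) := by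
    field_simp
  linarith

/-- `|ρ (e j)| = max (ρ (e j)) (ρ (- e j)) ≤ 1` (`Nm.one`) -/
theorem al_nonneg (h : Nm i₀ ε c C μ) (hε : 0 < ε) (ρ : (Fin d → ℝ) →ₗ[ℝ] ℝ)
    (hρ : ∀ y, ρ y ≤ μ y) (j : Fin d) : 0 ≤ al ρ ε j := by
  unfold al
  have := GB_abs h ρ hρ j
  exact div_nonneg (by linarith) hε.le

/-- `Nm.up` for the sign `s.2` of `ρ (e j)`: `M ρ (e i₀) + |ρ (e j)| ≤ M + 1 - ε c √M`, and
`ρ (e i₀) = |ρ (e i₀)|` because `ρ (e i₀)` is nonnegative. -/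
theorem al_up (h : Nm i₀ ε c C μ) (hε : 0 < ε) (ρ : (Fin d → ℝ) →ₗ[ℝ] ℝ)
    (hρ : ∀ y, ρ y ≤ μ y) (h0 : 0 ≤ ρ (Pi.single i₀ 1)) (j : Fin d) (hj : j ≠ i₀) (M : ℕ)
    (hM : 1 ≤ M) : c * √M ≤ M * al ρ ε i₀ + al ρ ε j := by
  obtain ⟨s, hs1, hs2⟩ : ∃ s : St d, s.1 = j ∧ ρ (rv (sv s)) = |ρ (Pi.single j 1)| := by
    rcases le_total 0 (ρ (Pi.single j 1)) with h1 | h1
    · exact ⟨(j, true), rfl, by rw [GB_rvt, abs_of_nonneg h1]⟩
    · exact ⟨(j, false), rfl, by rw [GB_rvf, map_neg, abs_of_nonpos h1]⟩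
  have h1 := (hρ _).trans (h.up s (by rw [hs1]; exact hj) M hM)
  rw [GB_rvM, map_add, map_smul, smul_eq_mul, hs2] at h1
  unfold al
  rw [abs_of_nonneg h0, ← mul_div_assoc, ← add_div, le_div_iff₀ hε]
  linarith

/-- For `w = M e i₀ + e i₁` and a `ρ` with equality at `w`: `Nm.dn` for `w / M` (norm
`1 + 1 / M ≤ 2`) gives `ρ w = μ w ≥ M + 1 - ε M θ`. -/
theorem al_dn (h : Nm i₀ ε c C μ) (hε : 0 < ε) (ρ : (Fin d → ℝ) →ₗ[ℝ] ℝ)
    (hρ : ∀ y, ρ y ≤ μ y) (i₁ : Fin d) (hi : i₁ ≠ i₀) (M : ℕ) (hM : 1 ≤ M)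
    (hw : ρ (rv (M • sv (i₀, true) + sv (i₁, true))) =
      μ (rv (M • sv (i₀, true) + sv (i₁, true))))
    (θ : ℝ) (hθ : 0 ≤ θ) (hθC : C * (1 / M + 8 * ε) ≤ θ ^ 3) :
    M * al ρ ε i₀ + al ρ ε i₁ ≤ M * θ := by
  have h1 := GB_dn h ρ i₁ hi M hM hw θ hθ hθC
  have hM0 : (0 : ℝ) ≤ M := Nat.cast_nonneg M
  have h2 := mul_le_mul_of_nonneg_left (le_abs_self (ρ (Pi.single i₀ 1))) hM0
  have h3 := le_abs_self (ρ (Pi.single i₁ 1))
  unfold al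
  rw [← mul_div_assoc, ← add_div, div_le_iff₀ hε]
  linarith

/-- Under the hypotheses of `al_dn` and `ε θ ≤ 1`: `ρ (e i₀) ≥ 0`
(`M ρ (e i₀) ≥ M + 1 - ε M θ - ρ (e i₁) ≥ M (1 - ε θ)`). -/
theorem coef_nonneg (h : Nm i₀ ε c C μ) (hε : 0 < ε) (ρ : (Fin d → ℝ) →ₗ[ℝ] ℝ)
    (hρ : ∀ y, ρ y ≤ μ y) (i₁ : Fin d) (hi : i₁ ≠ i₀) (M : ℕ) (hM : 1 ≤ M)
    (hw : ρ (rv (M • sv (i₀, true) + sv (i₁, true))) =
      μ (rv (M • sv (i₀, true) + sv (i₁, true))))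
    (θ : ℝ) (hθ : 0 ≤ θ) (hθC : C * (1 / M + 8 * ε) ≤ θ ^ 3) (hεθ : ε * θ ≤ 1) :
    0 ≤ ρ (Pi.single i₀ 1) := by
  have h1 := GB_dn h ρ i₁ hi M hM hw θ hθ hθC
  have hM0 : (0 : ℝ) < M := by exact_mod_cast hM
  have h2 := (le_abs_self _).trans (GB_abs h ρ hρ i₁)
  have h3 : (M : ℝ) * (ε * θ) ≤ M * 1 := mul_le_mul_of_nonneg_left hεθ hM0.le
  have h4 : 0 ≤ (M : ℝ) * ρ (Pi.single i₀ 1) := by linarith
  exact nonneg_of_mul_nonneg_right h4 hM0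

end Pool.Agent.Helper79.GR
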