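import Mathlib

/-!
# GR-GC: two elementary optimisations (reals only)

`opt_K`: `y = (c / (2 θ)) ^ 2 ≥ 1`, `M = ⌊y⌋₊ ≥ 1`, `y / 2 ≤ M ≤ y`:
`c √M - M θ ≥ c (c / (2 θ)) / √2 - c ^ 2 / (4 θ) ≥ c ^ 2 / (10 θ)`.

`opt_low`: `y = (2 M θ / c) ^ 2`, `M' = ⌈y⌉₊`, `y ≤ M' ≤ 2 y` (if `y ≥ 1`):
`c √M' ≥ 2 M θ`, so `M' a ≥ c √M' - M θ ≥ c √M' / 2`, `a ≥ c / (2 √M') ≥ c ^ 2 / (6 M θ)`
(`√M' ≤ √2 * 2 M θ / c`).
-/

set_option autoImplicit false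

namespace Pool.Agent.Helper79.GR

theorem opt_K (c θ a A : ℝ) (hc : 0 < c) (hθ : 0 < θ) (hθc : 2 * θ ≤ c) (ha : a ≤ θ)
    (h : ∀ M : ℕ, 1 ≤ M → c * √M ≤ M * a + A) : c ^ 2 / (10 * θ) ≤ A := by
  obtain ⟨S, hS⟩ : ∃ S : ℝ, c = 2 * θ * S := ⟨c / (2 * θ), by field_simp⟩
  have hS1 : 1 ≤ S := by
    rw [hS] at hθc
    nlinarith
  have hy1 : 1 ≤ S ^ 2 := by nlinarith
  have hM1 : 1 ≤ ⌊S ^ 2⌋₊ := by
    rw [Nat.one_le_floor_iff]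
    exact hy1
  have hMle : ((⌊S ^ 2⌋₊ : ℕ) : ℝ) ≤ S ^ 2 := Nat.floor_le (by positivity)
  have hMge : S ^ 2 / 2 ≤ ((⌊S ^ 2⌋₊ : ℕ) : ℝ) := by
    have h1 : S ^ 2 < ((⌊S ^ 2⌋₊ : ℕ) : ℝ) + 1 := Nat.lt_floor_add_one _
    have h2 : (1 : ℝ) ≤ ((⌊S ^ 2⌋₊ : ℕ) : ℝ) := by exact_mod_cast hM1
    linarith
  have h3 := h _ hM1
  set N : ℝ := ((⌊S ^ 2⌋₊ : ℕ) : ℝ) with hN
  have hN0 : 0 ≤ N := by linarith [sq_nonneg S]
  have hs : √N * √N = N := Real.mul_self_sqrt hN0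
  have hs0 : 0 ≤ √N := Real.sqrt_nonneg _
  have hsS : √N ≤ S := by
    rw [Real.sqrt_le_left (by linarith)]
    exact hMle
  have h4 : N * a ≤ N * θ := mul_le_mul_of_nonneg_left ha hN0
  have h5 : S ^ 2 / 2 ≤ √N * S := by nlinarith
  have h6 : θ * (S ^ 2 / 2) ≤ A := by
    have h7 : θ * (√N * (2 * S - √N)) ≤ A := by
      rw [hS] at h3
      nlinarith
    refine le_trans (mul_le_mul_of_nonneg_left ?_ hθ.le) h7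
    nlinarith
  rw [hS, div_le_iff₀ (by positivity)]
  nlinarith [mul_pos hθ hθ, mul_nonneg hθ.le (sq_nonneg S)]

theorem opt_low (c θ a A : ℝ) (M : ℕ) (hM : 1 ≤ M) (hc : 0 < c) (hθ : 0 < θ)
    (hy : c ≤ 2 * M * θ) (hA : A ≤ M * θ)
    (h : ∀ M' : ℕ, 1 ≤ M' → c * √M' ≤ M' * a + A) : c ^ 2 / (6 * M * θ) ≤ a := by
  have hMR : (1 : ℝ) ≤ M := by exact_mod_cast hM
  obtain ⟨S, hS⟩ : ∃ S : ℝ, 2 * M * θ = c * S := ⟨2 * M * θ / c, by field_simp⟩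
  have hS1 : 1 ≤ S := by
    rw [hS] at hy
    nlinarith
  have hy1 : 1 ≤ S ^ 2 := by nlinarith
  have hM1 : 1 ≤ ⌈S ^ 2⌉₊ := by
    rw [Nat.one_le_ceil_iff]
    linarith
  have hMge : S ^ 2 ≤ ((⌈S ^ 2⌉₊ : ℕ) : ℝ) := Nat.le_ceil _
  have hMle : ((⌈S ^ 2⌉₊ : ℕ) : ℝ) ≤ 2 * S ^ 2 := by
    have h1 : ((⌈S ^ 2⌉₊ : ℕ) : ℝ) < S ^ 2 + 1 := Nat.ceil_lt_add_one (by positivity)
    linarith
  have h3 := h _ hM1
  set N : ℝ := ((⌈S ^ 2⌉₊ : ℕ) : ℝ) with hN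
  have hN0 : 0 ≤ N := by linarith [sq_nonneg S]
  have hs : √N * √N = N := Real.mul_self_sqrt hN0
  have hs0 : 0 ≤ √N := Real.sqrt_nonneg _
  have hsS : S ≤ √N := Real.le_sqrt_of_sq_le hMge
  have hs1 : 0 < √N := by linarith
  have hsS2 : √N ≤ 3 / 2 * S := by
    rw [Real.sqrt_le_left (by linarith)]
    nlinarith
  have h4 : c / 2 ≤ √N * a := by
    have h5 : √N * (c / 2) ≤ √N * (√N * a) := by
      have e1 : √N * (√N * a) = N * a := by rw [← mul_assoc, hs]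
      have e2 : c * S ≤ c * √N := mul_le_mul_of_nonneg_left hsS hc.le
      have e3 : (M : ℝ) * θ = c * S / 2 := by linarith
      rw [e1]
      linarith
    exact le_of_mul_le_mul_left h5 hs1
  have ha0 : 0 < a := by
    by_contra hcon
    push Not at hcon
    nlinarith
  have h6 : c / 2 ≤ 3 / 2 * S * a := h4.trans (mul_le_mul_of_nonneg_right hsS2 ha0.le)
  have h7 : 6 * M * θ = 3 * (c * S) := by rw [← hS]; ring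
  rw [h7, div_le_iff₀ (by positivity)]
  nlinarith

end Pool.Agent.Helper79.GR
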