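import Pool.Agent.Helper79.GR.GB

/-!
# GR-GD: the position of a point which shares a face
-/

set_option autoImplicit false

namespace Pool.Agent.Helper79.GR

variable {d : ℕ} {i₀ : Fin d} {ε c C : ℝ} {μ : (Fin d → ℝ) → ℝ}

private theorem gd_expand (ρ : (Fin d → ℝ) →ₗ[ℝ] ℝ) (x : Fin d → ℝ) :
    ρ x = ∑ j, x j * ρ (Pi.single j 1) := by
  have h1 : x = ∑ j, x j • (Pi.single j (1 : ℝ) : Fin d → ℝ) := by
    funext i
    rw [Finset.sum_apply, Finset.sum_eq_single i]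
    · simp
    · intro j _ hj
      simp [Pi.single_apply, Ne.symm hj]
    · intro h
      exact absurd (Finset.mem_univ i) h
  conv_lhs => rw [h1]
  rw [map_sum]
  refine Finset.sum_congr rfl fun j _ => ?_
  rw [map_smul, smul_eq_mul]

private theorem gd_abs (ρ : (Fin d → ℝ) →ₗ[ℝ] ℝ) (hε : 0 < ε) (j : Fin d) :
    |ρ (Pi.single j 1)| = 1 - ε * al ρ ε j := by
  unfold al
  rw [mul_div_cancel₀ _ hε.ne']
  ring

private theorem gd_nr (i₀ : Fin d) (x : Fin d → ℝ) :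
    nr x = |x i₀| + ∑ j ∈ Finset.univ.erase i₀, |x j| := by
  unfold nr
  rw [← Finset.add_sum_erase _ _ (Finset.mem_univ i₀)]

private theorem gd_le (ρ : (Fin d → ℝ) →ₗ[ℝ] ℝ) (hε : 0 < ε) (K : ℝ)
    (hal : ∀ j, j ≠ i₀ → K ≤ al ρ ε j) (x : Fin d → ℝ) :
    ρ x ≤ x i₀ * ρ (Pi.single i₀ 1) + (1 - ε * K) * ∑ j ∈ Finset.univ.erase i₀, |x j| := by
  rw [gd_expand, ← Finset.add_sum_erase _ _ (Finset.mem_univ i₀), Finset.mul_sum]
  refine add_le_add le_rfl (Finset.sum_le_sum fun j hj => ?_)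
  have h1 : |ρ (Pi.single j 1)| ≤ 1 - ε * K := by
    rw [gd_abs ρ hε j]
    have := mul_le_mul_of_nonneg_left (hal j (Finset.ne_of_mem_erase hj)) hε.le
    linarith
  calc x j * ρ (Pi.single j 1) ≤ |x j * ρ (Pi.single j 1)| := le_abs_self _
    _ = |x j| * |ρ (Pi.single j 1)| := abs_mul _ _
    _ ≤ |x j| * (1 - ε * K) := mul_le_mul_of_nonneg_left h1 (abs_nonneg _)
    _ = (1 - ε * K) * |x j| := mul_comm _ _

/-- `ρ x = ∑ x j ρ (e j)`.  If `x i₀ ≤ 0` then `(1 - ε) nr x ≤ ρ x ≤ ∑ j ≠ i₀, |x j| (1 - ε K)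
≤ (1 - ε K) nr x` (if `1 - ε K < 0`, even `≤ 0`), impossible for `K ≥ 2`, `x ≠ 0`.  If `x i₀ > 0`:
`(1 - ε) (x i₀ + v) ≤ x i₀ + (1 - ε K) v` with `v = nr x - x i₀` gives `(K - 1) v ≤ x i₀`. -/
theorem share_pos (h : Nm i₀ ε c C μ) (hε : 0 < ε) (hε1 : ε < 1) (ρ : (Fin d → ℝ) →ₗ[ℝ] ℝ)
    (hρ : ∀ y, ρ y ≤ μ y) (h0 : 0 ≤ ρ (Pi.single i₀ 1)) (K : ℝ) (hK : 2 ≤ K)
    (hal : ∀ j, j ≠ i₀ → K ≤ al ρ ε j) (x : Fin d → ℝ) (hx : x ≠ 0) (hρx : ρ x = μ x) :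
    0 < x i₀ ∧ nr x ≤ 2 * x i₀ := by
  have h1 := gd_le (i₀ := i₀) ρ hε K hal x
  have h2 := h.lo x
  rw [← hρx] at h2
  have h3 := gd_nr i₀ x
  set v := ∑ j ∈ Finset.univ.erase i₀, |x j| with hv
  have hv0 : 0 ≤ v := Finset.sum_nonneg fun _ _ => abs_nonneg _
  have hf1 : ρ (Pi.single i₀ 1) ≤ 1 := by
    have h4 := gd_abs ρ hε i₀
    rw [abs_of_nonneg h0] at h4
    have h5 := mul_nonneg hε.le (al_nonneg h hε ρ hρ i₀)
    linarith
  have hnr : 0 < nr x := by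
    obtain ⟨i, hi⟩ := Function.ne_iff.1 hx
    have h6 : |x i| ≤ nr x :=
      Finset.single_le_sum (f := fun i => |x i|) (fun _ _ => abs_nonneg _) (Finset.mem_univ i)
    have h7 : 0 < |x i| := abs_pos.2 hi
    linarith
  have hKv : 2 * (ε * v) ≤ ε * K * v := by
    have h8 : 0 ≤ ε * v := mul_nonneg hε.le hv0
    nlinarith
  rcases le_or_gt (x i₀) 0 with hneg | hpos
  · exfalso
    have h4 : x i₀ * ρ (Pi.single i₀ 1) ≤ 0 := mul_nonpos_of_nonpos_of_nonneg hneg h0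
    have h5 : 0 ≤ |x i₀| := abs_nonneg _
    have h6 : (1 - ε) * |x i₀| + ε * v ≤ 0 := by
      rw [h3] at h2
      nlinarith
    have h7 : 0 ≤ (1 - ε) * |x i₀| := mul_nonneg (by linarith) h5
    have h8 : 0 ≤ ε * v := mul_nonneg hε.le hv0
    have h9 : v = 0 := by
      have : ε * v = 0 := le_antisymm (by linarith) h8
      rcases mul_eq_zero.1 this with h | h
      · exact absurd h hε.ne'
      · exact h
    have h10 : |x i₀| = 0 := by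
      have : (1 - ε) * |x i₀| = 0 := le_antisymm (by linarith) h7
      rcases mul_eq_zero.1 this with h | h
      · linarith
      · exact h
    rw [h3, h9, h10] at hnr
    linarith
  · refine ⟨hpos, ?_⟩
    have h4 : x i₀ * ρ (Pi.single i₀ 1) ≤ x i₀ := by
      have := mul_le_mul_of_nonneg_left hf1 hpos.le
      linarith
    rw [abs_of_pos hpos] at h3
    rw [h3] at h2
    have h5 : ε * v ≤ ε * x i₀ := by nlinarith
    have h6 : v ≤ x i₀ := le_of_mul_le_mul_left h5 hε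
    rw [h3]
    linarith

/-- Normalised: `x i₀ = 1`, `v = nr x - 1 ≤ 1`.  `Nm.dn`: `1 + v - ε θ ≤ μ x = ρ x ≤
(1 - ε al i₀) + (1 - ε K) v`. -/
theorem share_bound (h : Nm i₀ ε c C μ) (hε : 0 < ε) (ρ : (Fin d → ℝ) →ₗ[ℝ] ℝ)
    (hρ : ∀ y, ρ y ≤ μ y) (h0 : 0 ≤ ρ (Pi.single i₀ 1)) (K : ℝ)
    (hal : ∀ j, j ≠ i₀ → K ≤ al ρ ε j) (x : Fin d → ℝ) (hx : x i₀ = 1) (hx2 : nr x ≤ 2)
    (hρx : ρ x = μ x) (θ : ℝ) (hθ : 0 ≤ θ) (hθC : C * (nr x - 1 + 8 * ε) ≤ θ ^ 3) :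
    al ρ ε i₀ + K * (nr x - 1) ≤ θ := by
  have h1 := gd_le (i₀ := i₀) ρ hε K hal x
  have h2 := h.dn x hx hx2 θ hθ hθC
  rw [← hρx] at h2
  have h3 := gd_nr i₀ x
  rw [hx, abs_one] at h3
  set v := ∑ j ∈ Finset.univ.erase i₀, |x j| with hv
  have h4 := gd_abs ρ hε i₀
  rw [abs_of_nonneg h0] at h4
  rw [hx, one_mul, h4] at h1
  have h5 : ε * (al ρ ε i₀ + K * (nr x - 1)) ≤ ε * θ := by
    rw [h3] at h2 ⊢
    nlinarith
  exact le_of_mul_le_mul_left h5 hε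

end Pool.Agent.Helper79.GR
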