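import Pool.Agent.Helper79.GR.GA
import Pool.Agent.Helper79.GR.GC
import Pool.Agent.Helper79.GR.GD

/-!
# GR-GE: the window of a scale

For `x ≠ 0` sharing a face with `w = M e i₀ + e i₁` (not `NoShare`): take `ρ` of `exists_support`
and `θ` with `θ ^ 3 = 2 C / M` (real cube root), so `C (1 / M + 8 ε) ≤ θ ^ 3` if `8 ε M ≤ 1`.
If `M` is large and `ε` is small (depending on `M`) then `2 θ ≤ c`, `K = c ^ 2 / (10 θ) ≥ 2`,
`c ≤ 2 M θ`, `ε θ ≤ 1`.  `al_dn`: `al i₀ ≤ θ`, `al i₁ ≤ M θ` (`al_nonneg`), `opt_K`: `K ≤ al j` for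
`j ≠ i₀` (`al_up`), `opt_low` (with `A = al i₁`): `c ^ 2 / (6 M θ) ≤ al i₀`.  `share_pos`; normalise
`x' = x / x i₀` (`ρ x' = μ x'`), `v = nr x' - 1`; `share_bound` with
`θ' = (C (v + 8 ε)) ^ (1 / 3)`: `al i₀ + K v ≤ θ'`.
Upper bound: `(K v) ^ 3 ≤ C (v + 8 ε)`; if `v ≥ 8 ε` then `v ^ 2 ≤ 2 C / K ^ 3 =
2000 C θ ^ 3 / c ^ 6 = 4000 C ^ 2 / (c ^ 6 M)`; if `v < 8 ε` it is small anyway.
Lower bound: `(c ^ 2 / (6 M θ)) ^ 3 ≤ C (v + 8 ε)`, the left side is `c ^ 6 / (432 C M ^ 2)`.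
-/

set_option autoImplicit false

namespace Pool.Agent.Helper79.GR

private theorem GE_root {a : ℝ} (ha : 0 ≤ a) : ∃ t : ℝ, 0 ≤ t ∧ t ^ 3 = a := by
  refine ⟨a ^ (1 / 3 : ℝ), Real.rpow_nonneg ha _, ?_⟩
  rw [← Real.rpow_natCast, ← Real.rpow_mul ha]
  norm_num

private theorem GE_le {a b : ℝ} (ha : 0 ≤ a) (hb : 0 ≤ b) (h : a ^ 3 ≤ b ^ 3) : a ≤ b :=
  (pow_le_pow_iff_left₀ ha hb (by norm_num)).1 h

private theorem GE_nr_nonneg {d : ℕ} (x : Fin d → ℝ) : 0 ≤ nr x :=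
  Finset.sum_nonneg fun _ _ => abs_nonneg _

private theorem GE_nr_smul {d : ℕ} (t : ℝ) (ht : 0 ≤ t) (x : Fin d → ℝ) : nr (t • x) = t * nr x := by
  unfold nr
  rw [Finset.mul_sum]
  refine Finset.sum_congr rfl fun i _ => ?_
  rw [Pi.smul_apply, smul_eq_mul, abs_mul, abs_of_nonneg ht]

/-- the upper end -/
private theorem GE_up {c C θ v ε M : ℝ} (hc : 0 < c) (hC : 0 < C) (hM : 0 < M) (hθ : 0 < θ)
    (hθ3 : θ ^ 3 = 2 * C / M) (hv : 0 ≤ v) (hε : 8 * ε ≤ 64 * C / (c ^ 3 * √M))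
    (h : (c ^ 2 / (10 * θ) * v) ^ 3 ≤ C * (v + 8 * ε)) : v ≤ 64 * C / (c ^ 3 * √M) := by
  by_contra hlt
  push Not at hlt
  have hv8 : 8 * ε ≤ v := hε.trans hlt.le
  have hv0 : 0 < v := lt_of_lt_of_le (by positivity) hlt.le
  have h1 : (c ^ 2 / (10 * θ) * v) ^ 3 = c ^ 6 * M / (2000 * C) * v ^ 3 := by
    rw [mul_pow, div_pow, mul_pow, hθ3]
    field_simp
    norm_num
  have h2 : c ^ 6 * M / (2000 * C) * v ^ 3 ≤ 2 * C * v := by
    rw [← h1]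
    nlinarith
  have h3 : c ^ 6 * M / (2000 * C) * v ^ 2 ≤ 2 * C := by
    have : c ^ 6 * M / (2000 * C) * v ^ 2 * v ≤ 2 * C * v := by
      calc c ^ 6 * M / (2000 * C) * v ^ 2 * v = c ^ 6 * M / (2000 * C) * v ^ 3 := by ring
        _ ≤ _ := h2
    exact le_of_mul_le_mul_right this hv0
  have h4 : (64 * C / (c ^ 3 * √M)) ^ 2 ≤ v ^ 2 := pow_le_pow_left₀ (by positivity) hlt.le 2
  have h5 : (64 * C / (c ^ 3 * √M)) ^ 2 = 4096 * C ^ 2 / (c ^ 6 * M) := by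
    rw [div_pow, mul_pow, mul_pow, Real.sq_sqrt hM.le]
    ring
  rw [h5] at h4
  have h6 : c ^ 6 * M / (2000 * C) * (4096 * C ^ 2 / (c ^ 6 * M)) ≤ 2 * C :=
    (mul_le_mul_of_nonneg_left h4 (by positivity)).trans h3
  have h7 : c ^ 6 * M / (2000 * C) * (4096 * C ^ 2 / (c ^ 6 * M)) = 4096 / 2000 * C := by
    field_simp
  rw [h7] at h6
  linarith

/-- the lower end -/
private theorem GE_low {c C θ v ε M : ℝ} (hc : 0 < c) (hC : 0 < C) (hM : 0 < M) (hθ : 0 < θ)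
    (hθ3 : θ ^ 3 = 2 * C / M) (hε : 8 * ε ≤ c ^ 6 / (864 * C ^ 2 * M ^ 2))
    (h : (c ^ 2 / (6 * M * θ)) ^ 3 ≤ C * (v + 8 * ε)) : c ^ 6 / (864 * C ^ 2 * M ^ 2) ≤ v := by
  have h1 : (c ^ 2 / (6 * M * θ)) ^ 3 = C * (2 * (c ^ 6 / (864 * C ^ 2 * M ^ 2))) := by
    rw [div_pow, mul_pow, hθ3]
    field_simp
    norm_num
  rw [h1] at h
  have h2 := le_of_mul_le_mul_left h hC
  linarith

/-- the window of the scale `M` -/
theorem window {d : ℕ} (i₀ i₁ : Fin d) (hi : i₁ ≠ i₀) (c C : ℝ) (hc : 0 < c) (hC : 0 < C) :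
    ∃ M₀ : ℕ, 1 ≤ M₀ ∧ ∀ M ≥ M₀, ∃ ε₀ > 0, ∀ ε : ℝ, 0 < ε → ε < ε₀ →
      ∀ μ : (Fin d → ℝ) → ℝ, Nm i₀ ε c C μ → ∀ x : Fin d → ℝ, x ≠ 0 →
      ¬ NoShare μ (rv (M • sv (i₀, true) + sv (i₁, true))) x →
      0 < x i₀ ∧ c ^ 6 / (864 * C ^ 2 * M ^ 2) * x i₀ ≤ nr x - x i₀ ∧
        nr x - x i₀ ≤ 64 * C / (c ^ 3 * √M) * x i₀ := by
  set κ : ℝ := min (c / 2) (c ^ 2 / 20) with hκ
  have hκ0 : 0 < κ := lt_min (by positivity) (by positivity)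
  obtain ⟨m1, hm1⟩ := exists_nat_ge (2 * C / κ ^ 3)
  obtain ⟨m2, hm2⟩ := exists_nat_ge (c ^ 3 / (16 * C))
  refine ⟨max 1 (max m1 m2), le_max_left _ _, ?_⟩
  intro M hM
  have hM1 : 1 ≤ M := (le_max_left _ _).trans hM
  have hMm1 : m1 ≤ M := ((le_max_left _ _).trans (le_max_right _ _)).trans hM
  have hMm2 : m2 ≤ M := ((le_max_right _ _).trans (le_max_right _ _)).trans hM
  have hMr : (1 : ℝ) ≤ M := by exact_mod_cast hM1
  have hM0 : (0 : ℝ) < M := by linarith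
  have hMm1' : 2 * C / κ ^ 3 ≤ M := hm1.trans (by exact_mod_cast hMm1)
  have hMm2' : c ^ 3 / (16 * C) ≤ M := hm2.trans (by exact_mod_cast hMm2)
  obtain ⟨θ, hθ0, hθ3⟩ := GE_root (a := 2 * C / M) (by positivity)
  have hθ : 0 < θ := by
    rcases hθ0.eq_or_lt with h | h
    · exfalso
      rw [← h] at hθ3
      have : 0 < 2 * C / (M : ℝ) := by positivity
      rw [← hθ3] at this
      norm_num at this
    · exact h
  have hθκ : θ ≤ κ := by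
    apply GE_le hθ0 hκ0.le
    rw [hθ3, div_le_iff₀ hM0]
    rw [div_le_iff₀ (by positivity)] at hMm1'
    linarith
  have hθc : 2 * θ ≤ c := by
    have := hθκ.trans (min_le_left _ _)
    linarith
  have hθc2 : θ ≤ c ^ 2 / 20 := hθκ.trans (min_le_right _ _)
  have hK : 2 ≤ c ^ 2 / (10 * θ) := by
    rw [le_div_iff₀ (by positivity)]
    linarith
  have hy : c ≤ 2 * M * θ := by
    apply GE_le hc.le (by positivity)
    rw [mul_pow, hθ3]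
    rw [div_le_iff₀ (by positivity)] at hMm2'
    have h1 : (2 * (M : ℝ)) ^ 3 * (2 * C / M) = 16 * C * M ^ 2 := by
      field_simp
      ring
    rw [h1]
    nlinarith [mul_le_mul_of_nonneg_left hMr (by positivity : (0 : ℝ) ≤ 16 * C * M)]
  set ε₀ : ℝ := min (min 1 (1 / (8 * M))) (min (1 / θ)
    (min (8 * C / (c ^ 3 * √M)) (c ^ 6 / (6912 * C ^ 2 * M ^ 2)))) with hε₀
  refine ⟨ε₀, ?_, ?_⟩
  · refine lt_min (lt_min one_pos (by positivity)) (lt_min (by positivity)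
      (lt_min (by positivity) (by positivity)))
  intro ε hε hεlt μ hμ x hx hns
  have e1 : ε < 1 := hεlt.trans_le ((min_le_left _ _).trans (min_le_left _ _))
  have e2 : ε < 1 / (8 * M) := hεlt.trans_le ((min_le_left _ _).trans (min_le_right _ _))
  have e3 : ε < 1 / θ := hεlt.trans_le ((min_le_right _ _).trans (min_le_left _ _))
  have e4 : ε < 8 * C / (c ^ 3 * √M) :=
    hεlt.trans_le ((min_le_right _ _).trans ((min_le_right _ _).trans (min_le_left _ _)))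
  have e5 : ε < c ^ 6 / (6912 * C ^ 2 * M ^ 2) :=
    hεlt.trans_le ((min_le_right _ _).trans ((min_le_right _ _).trans (min_le_right _ _)))
  have hnn : ∀ y, 0 ≤ μ y := fun y =>
    (mul_nonneg (by linarith) (GE_nr_nonneg y)).trans (hμ.lo y)
  have hsh : μ x + μ (rv (M • sv (i₀, true) + sv (i₁, true))) ≤
      μ (x + rv (M • sv (i₀, true) + sv (i₁, true))) := not_lt.1 hns
  obtain ⟨ρ, hρ, hρx, hρw⟩ := exists_support μ hμ.add hμ.smul hnn x _ hsh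
  have hθC : C * (1 / M + 8 * ε) ≤ θ ^ 3 := by
    rw [hθ3]
    have h1 : 8 * ε ≤ 1 / M := by
      have h2 : 1 / (8 * (M : ℝ)) = 1 / M / 8 := by
        field_simp
      rw [h2] at e2
      linarith
    have h3 : 2 * C / (M : ℝ) = C * (1 / M + 1 / M) := by ring
    rw [h3]
    exact mul_le_mul_of_nonneg_left (by linarith) hC.le
  have hεθ : ε * θ ≤ 1 := by
    rw [lt_div_iff₀ hθ] at e3
    exact e3.le
  have h0 := coef_nonneg hμ hε ρ hρ i₁ hi M hM1 hρw θ hθ0 hθC hεθ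
  have hdn := al_dn hμ hε ρ hρ i₁ hi M hM1 hρw θ hθ0 hθC
  have hnn0 := al_nonneg hμ hε ρ hρ i₀
  have hnn1 := al_nonneg hμ hε ρ hρ i₁
  have ha : al ρ ε i₀ ≤ θ := by
    have : M * al ρ ε i₀ ≤ M * θ := by linarith
    exact le_of_mul_le_mul_left this hM0
  have hA : al ρ ε i₁ ≤ M * θ := by
    have : 0 ≤ M * al ρ ε i₀ := by positivity
    linarith
  have hal : ∀ j, j ≠ i₀ → c ^ 2 / (10 * θ) ≤ al ρ ε j := fun j hj =>
    opt_K c θ (al ρ ε i₀) (al ρ ε j) hc hθ hθc ha fun M' hM' => al_up hμ hε ρ hρ h0 j hj M' hM'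
  have hlow : c ^ 2 / (6 * M * θ) ≤ al ρ ε i₀ :=
    opt_low c θ (al ρ ε i₀) (al ρ ε i₁) M hM1 hc hθ hy hA
      fun M' hM' => al_up hμ hε ρ hρ h0 i₁ hi M' hM'
  obtain ⟨hx0, hx2⟩ := share_pos hμ hε e1 ρ hρ h0 _ hK hal x hx hρx
  set x' : Fin d → ℝ := (x i₀)⁻¹ • x with hx'
  have hx'1 : x' i₀ = 1 := by
    rw [hx', Pi.smul_apply, smul_eq_mul, inv_mul_cancel₀ hx0.ne']
  have hinv : 0 ≤ (x i₀)⁻¹ := (inv_pos.2 hx0).le
  have hnr : nr x' = (x i₀)⁻¹ * nr x := GE_nr_smul _ hinv x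
  have hx'2 : nr x' ≤ 2 := by
    rw [hnr, inv_mul_le_iff₀ hx0]
    linarith
  have hρx' : ρ x' = μ x' := by
    rw [hx', map_smul, hμ.smul _ hinv, hρx, smul_eq_mul]
  have hv0 : 0 ≤ nr x' - 1 := by
    have h1 : |x' i₀| ≤ nr x' := Finset.single_le_sum (f := fun i => |x' i|)
      (fun i _ => abs_nonneg _) (Finset.mem_univ i₀)
    rw [hx'1, abs_one] at h1
    linarith
  obtain ⟨θ', hθ'0, hθ'3⟩ := GE_root (a := C * (nr x' - 1 + 8 * ε)) (by positivity)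
  have hb := share_bound hμ hε ρ hρ h0 _ hal x' hx'1 hx'2 hρx' θ' hθ'0 hθ'3.ge
  have hKv : 0 ≤ c ^ 2 / (10 * θ) * (nr x' - 1) := by positivity
  have hup : nr x' - 1 ≤ 64 * C / (c ^ 3 * √M) := by
    apply GE_up (ε := ε) hc hC hM0 hθ hθ3 hv0
    · have : 64 * C / (c ^ 3 * √M) = 8 * (8 * C / (c ^ 3 * √M)) := by ring
      rw [this]
      linarith
    · rw [← hθ'3]
      exact pow_le_pow_left₀ hKv (by linarith) 3
  have hlo : c ^ 6 / (864 * C ^ 2 * M ^ 2) ≤ nr x' - 1 := by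
    apply GE_low (ε := ε) hc hC hM0 hθ hθ3
    · have : c ^ 6 / (864 * C ^ 2 * M ^ 2) = 8 * (c ^ 6 / (6912 * C ^ 2 * M ^ 2)) := by
        field_simp
        norm_num
      rw [this]
      linarith
    · rw [← hθ'3]
      exact pow_le_pow_left₀ (by positivity) (by linarith) 3
  have hfin : nr x - x i₀ = (nr x' - 1) * x i₀ := by
    rw [hnr]
    field_simp
  refine ⟨hx0, ?_, ?_⟩
  · rw [hfin]
    exact mul_le_mul_of_nonneg_right hlo hx0.le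
  · rw [hfin]
    exact mul_le_mul_of_nonneg_right hup hx0.le

end Pool.Agent.Helper79.GR
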