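import Pool.Agent.Helper79.GR.DA

/-!
# GR-NA: existence of the time constant

`u n = m (fl n x) + b * d` is subadditive: `fl (n + k) x = fl n x + fl k x + e` with all
coordinates of `e` in `{0, 1}`, so `n1 e ≤ d` and `m e ≤ b * d`.  Use `Subadditive.tendsto_lim`
(bounded below by `0`).
-/

set_option autoImplicit false

namespace Pool.Agent.Helper79.GR

open Filter Topology

private theorem na_n1_nonneg {d : ℕ} (x : V d) : 0 ≤ n1 x :=
  Finset.sum_nonneg fun i _ => abs_nonneg _

theorem SubM.nonneg {d : ℕ} {a b : ℝ} {m : V d → ℝ} (h : SubM a b m) (x : V d) : 0 ≤ m x :=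
  le_trans (mul_nonneg h.apos.le (na_n1_nonneg x)) (h.lo x)

/-- `m x ≤ m y + b * n1 (x - y)` and conversely -/
theorem SubM.lip {d : ℕ} {a b : ℝ} {m : V d → ℝ} (h : SubM a b m) (x y : V d) :
    |m x - m y| ≤ b * n1 (x - y) := by
  have h0 : n1 (y - x) = n1 (x - y) := by
    unfold n1
    refine Finset.sum_congr rfl fun i _ => ?_
    simp only [Pi.sub_apply, Int.cast_sub]
    exact abs_sub_comm _ _
  have h1 : m x ≤ m y + b * n1 (x - y) := by
    have h2 := h.add y (x - y)
    rw [add_sub_cancel] at h2
    have h3 := h.hi (x - y)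
    linarith
  have h4 : m y ≤ m x + b * n1 (x - y) := by
    have h2 := h.add x (y - x)
    rw [add_sub_cancel] at h2
    have h3 := h.hi (y - x)
    rw [h0] at h3
    linarith
  rw [abs_le]
  constructor <;> linarith

theorem tendsto_tc {d : ℕ} {a b : ℝ} {m : V d → ℝ} (h : SubM a b m) (x : Fin d → ℝ) :
    Tendsto (fun n : ℕ => m (fl n x) / n) atTop (𝓝 (tc m x)) := by
  have hbd : 0 ≤ b * d := by
    rcases Nat.eq_zero_or_pos d with h0 | h0
    · subst h0
      simp
    · have h1 : n1 (Pi.single (⟨0, h0⟩ : Fin d) 1 : V d) = 1 := by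
        unfold n1
        rw [Finset.sum_eq_single (⟨0, h0⟩ : Fin d)]
        · simp
        · intro j _ hj
          simp [Pi.single_eq_of_ne hj]
        · intro hj
          exact absurd (Finset.mem_univ _) hj
      have h2 := h.lo (Pi.single (⟨0, h0⟩ : Fin d) 1)
      have h3 := h.hi (Pi.single (⟨0, h0⟩ : Fin d) 1)
      rw [h1] at h2 h3
      have h4 := h.apos
      have h5 : 0 < b := by linarith
      positivity
  have hsub : Subadditive fun n : ℕ => m (fl n x) + b * d := by
    intro n k
    set e : V d := fl (n + k) x - (fl n x + fl k x) with he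
    have he1 : ∀ i, e i = 0 ∨ e i = 1 := by
      intro i
      have h1 : e i = ⌊((n + k : ℕ) : ℝ) * x i⌋ - (⌊(n : ℝ) * x i⌋ + ⌊(k : ℝ) * x i⌋) := rfl
      have h2 : ((n + k : ℕ) : ℝ) * x i = (n : ℝ) * x i + (k : ℝ) * x i := by
        push_cast
        ring
      have h3 := Int.le_floor_add ((n : ℝ) * x i) ((k : ℝ) * x i)
      have h4 := Int.le_floor_add_floor ((n : ℝ) * x i) ((k : ℝ) * x i)
      rw [h2] at h1
      omega
    have hn : n1 e ≤ d := by
      unfold n1
      calc ∑ i, |(e i : ℝ)| ≤ ∑ _i : Fin d, (1 : ℝ) := by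
            refine Finset.sum_le_sum fun i _ => ?_
            rcases he1 i with h1 | h1 <;> rw [h1] <;> simp
        _ = d := by simp
    have hme : m e ≤ b * d := by
      rcases Nat.eq_zero_or_pos d with h0 | h0
      · have h1 := h.hi e
        have h2 : n1 e = 0 := by
          refine le_antisymm ?_ (na_n1_nonneg e)
          have h3 : (d : ℝ) = 0 := by exact_mod_cast h0
          linarith
        rw [h2, mul_zero] at h1
        linarith
      · have hd : (0 : ℝ) < d := by exact_mod_cast h0
        have hb : 0 ≤ b := by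
          by_contra hc
          push Not at hc
          have := mul_neg_of_neg_of_pos hc hd
          linarith
        exact (h.hi e).trans (mul_le_mul_of_nonneg_left hn hb)
    have h5 : fl (n + k) x = (fl n x + fl k x) + e := by
      rw [he]
      abel
    have h6 := h.add (fl n x + fl k x) e
    have h7 := h.add (fl n x) (fl k x)
    rw [← h5] at h6
    show m (fl (n + k) x) + b * d ≤ m (fl n x) + b * d + (m (fl k x) + b * d)
    linarith
  have hbb : BddBelow (Set.range fun n : ℕ => (m (fl n x) + b * d) / n) := by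
    refine ⟨0, ?_⟩
    rintro _ ⟨n, rfl⟩
    have := h.nonneg (fl n x)
    positivity
  have h1 := hsub.tendsto_lim hbb
  have h2 : Tendsto (fun n : ℕ => b * d / (n : ℝ)) atTop (𝓝 0) :=
    tendsto_const_div_atTop_nhds_zero_nat _
  have h3 := h1.sub h2
  have h4 : Tendsto (fun n : ℕ => m (fl n x) / n) atTop (𝓝 (hsub.lim - 0)) := by
    refine h3.congr fun n => ?_
    rw [← sub_div]
    congr 1
    ring
  exact tendsto_nhds_limUnder ⟨_, h4⟩

end Pool.Agent.Helper79.GR
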