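import Pool.Agent.Helper79.GR.NA

/-!
# GR-NB: the time constant is Lipschitz, subadditive and comparable to the `ℓ¹` norm

All by passing to the limit in `tendsto_tc`: `n1 (fl n x - fl n y) ≤ n * nr (x - y) + d`,
`fl n (x + y) = fl n x + fl n y + e` with the coordinates of `e` in `{0, 1}`,
`n * nr x - d ≤ n1 (fl n x) ≤ n * nr x + d`.
-/

set_option autoImplicit false

namespace Pool.Agent.Helper79.GR

open Filter Topology

private theorem nb_b {d : ℕ} {a b : ℝ} {m : V d → ℝ} (h : SubM a b m) : d = 0 ∨ 0 ≤ b := by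
  rcases Nat.eq_zero_or_pos d with hd | hd
  · exact Or.inl hd
  · right
    have h1 := h.lo (sv ((⟨0, hd⟩, true) : St d))
    have h2 := h.hi (sv ((⟨0, hd⟩, true) : St d))
    have h3 := h.apos
    rw [n1_sv] at h1 h2
    linarith

private theorem nb_mul {d : ℕ} {a b : ℝ} {m : V d → ℝ} (h : SubM a b m) (z : V d) {t : ℝ}
    (hz : n1 z ≤ t) (ht : d = 0 → t = 0) : b * n1 z ≤ b * t := by
  rcases nb_b h with hd | hb
  · have h1 : n1 z = 0 := by
      subst hd
      simp [n1]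
    rw [h1, ht hd]
  · exact mul_le_mul_of_nonneg_left hz hb

private theorem nb_sub {d : ℕ} (n : ℕ) (x y : Fin d → ℝ) :
    n1 (fl n x - fl n y) ≤ n * nr (x - y) + d := by
  have h1 : ∀ i : Fin d, |(((fl n x - fl n y) i : ℤ) : ℝ)| ≤ n * |(x - y) i| + 1 := by
    intro i
    have e : (n : ℝ) * |(x - y) i| = |n * x i - n * y i| := by
      rw [Pi.sub_apply, ← mul_sub, abs_mul, Nat.abs_cast]
    rw [e, Pi.sub_apply, Int.cast_sub]
    unfold fl
    have a1 := Int.floor_le ((n : ℝ) * x i)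
    have a2 := Int.lt_floor_add_one ((n : ℝ) * x i)
    have a3 := Int.floor_le ((n : ℝ) * y i)
    have a4 := Int.lt_floor_add_one ((n : ℝ) * y i)
    have a5 := neg_abs_le ((n : ℝ) * x i - n * y i)
    have a6 := le_abs_self ((n : ℝ) * x i - n * y i)
    rw [abs_le]
    constructor <;> linarith
  calc n1 (fl n x - fl n y) ≤ ∑ i : Fin d, ((n : ℝ) * |(x - y) i| + 1) :=
        Finset.sum_le_sum fun i _ => h1 i
    _ = n * nr (x - y) + d := by
        rw [Finset.sum_add_distrib, ← Finset.mul_sum]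
        simp [nr]

private theorem nb_hi {d : ℕ} (n : ℕ) (x : Fin d → ℝ) : n1 (fl n x) ≤ n * nr x + d := by
  have h := nb_sub n x 0
  have e : fl n (0 : Fin d → ℝ) = 0 := by
    funext i
    simp [fl]
  rwa [e, sub_zero, sub_zero] at h

private theorem nb_lo {d : ℕ} (n : ℕ) (x : Fin d → ℝ) : n * nr x - d ≤ n1 (fl n x) := by
  have h1 : ∀ i : Fin d, (n : ℝ) * |x i| - 1 ≤ |((fl n x i : ℤ) : ℝ)| := by
    intro i
    have e : (n : ℝ) * |x i| = |n * x i| := by
      rw [abs_mul, Nat.abs_cast]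
    rw [e]
    unfold fl
    have a1 := Int.floor_le ((n : ℝ) * x i)
    have a2 := Int.lt_floor_add_one ((n : ℝ) * x i)
    have a5 := neg_abs_le ((⌊(n : ℝ) * x i⌋ : ℤ) : ℝ)
    have a6 := le_abs_self ((⌊(n : ℝ) * x i⌋ : ℤ) : ℝ)
    have a7 : |(n : ℝ) * x i| ≤ |((⌊(n : ℝ) * x i⌋ : ℤ) : ℝ)| + 1 := by
      rw [abs_le]
      constructor <;> linarith
    linarith
  calc n * nr x - d = ∑ i : Fin d, ((n : ℝ) * |x i| - 1) := by
        rw [Finset.sum_sub_distrib, ← Finset.mul_sum]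
        simp [nr]
    _ ≤ n1 (fl n x) := Finset.sum_le_sum fun i _ => h1 i

private theorem nb_add {d : ℕ} (n : ℕ) (x y : Fin d → ℝ) :
    n1 (fl n (x + y) - (fl n x + fl n y)) ≤ d := by
  have h1 : ∀ i : Fin d, |(((fl n (x + y) - (fl n x + fl n y)) i : ℤ) : ℝ)| ≤ 1 := by
    intro i
    have e : (fl n (x + y) - (fl n x + fl n y)) i =
        ⌊(n : ℝ) * x i + n * y i⌋ - (⌊(n : ℝ) * x i⌋ + ⌊(n : ℝ) * y i⌋) := by
      simp [fl, mul_add]
    rw [e]
    have a1 := Int.le_floor_add ((n : ℝ) * x i) (n * y i)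
    have a2 := Int.le_floor_add_floor ((n : ℝ) * x i) (n * y i)
    have a3 : |⌊(n : ℝ) * x i + n * y i⌋ - (⌊(n : ℝ) * x i⌋ + ⌊(n : ℝ) * y i⌋)| ≤ 1 := by
      rw [abs_le]
      constructor <;> omega
    exact_mod_cast a3
  calc n1 (fl n (x + y) - (fl n x + fl n y)) ≤ ∑ i : Fin d, (1 : ℝ) :=
        Finset.sum_le_sum fun i _ => h1 i
    _ = d := by simp

private theorem nb_tend (d : ℕ) (b r : ℝ) :
    Tendsto (fun n : ℕ => b * (r + (d : ℝ) / n)) atTop (𝓝 (b * r)) := by
  have h1 : Tendsto (fun n : ℕ => (d : ℝ) / n) atTop (𝓝 0) :=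
    tendsto_const_div_atTop_nhds_zero_nat (d : ℝ)
  have h2 := (h1.const_add r).const_mul b
  rwa [add_zero] at h2

theorem tc_lip {d : ℕ} {a b : ℝ} {m : V d → ℝ} (h : SubM a b m) (x y : Fin d → ℝ) :
    |tc m x - tc m y| ≤ b * nr (x - y) := by
  have h1 := ((tendsto_tc h x).sub (tendsto_tc h y)).abs
  refine le_of_tendsto_of_tendsto h1 (nb_tend d b (nr (x - y))) ?_
  filter_upwards [eventually_gt_atTop 0] with n hn
  have hn' : (0 : ℝ) < n := by exact_mod_cast hn
  have h2 := (h.lip (fl n x) (fl n y)).trans (nb_mul h _ (nb_sub n x y) (by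
    intro hd
    subst hd
    simp [nr]))
  rw [← sub_div, abs_div, Nat.abs_cast, div_le_iff₀ hn']
  calc |m (fl n x) - m (fl n y)| ≤ b * (n * nr (x - y) + d) := h2
    _ = b * (nr (x - y) + d / n) * n := by
        field_simp

theorem tc_add_le {d : ℕ} {a b : ℝ} {m : V d → ℝ} (h : SubM a b m) (x y : Fin d → ℝ) :
    tc m (x + y) ≤ tc m x + tc m y := by
  have h1 := ((tendsto_tc h x).add (tendsto_tc h y)).add (nb_tend d b 0)
  rw [mul_zero, add_zero] at h1
  refine le_of_tendsto_of_tendsto (tendsto_tc h (x + y)) h1 ?_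
  filter_upwards [eventually_gt_atTop 0] with n hn
  have hn' : (0 : ℝ) < n := by exact_mod_cast hn
  have h2 : m (fl n (x + y)) ≤ m (fl n x) + m (fl n y) + b * d := by
    have e : fl n (x + y) = (fl n x + fl n y) + (fl n (x + y) - (fl n x + fl n y)) := by abel
    have h3 := h.add (fl n x + fl n y) (fl n (x + y) - (fl n x + fl n y))
    rw [← e] at h3
    have h4 := h.add (fl n x) (fl n y)
    have h5 := (h.hi (fl n (x + y) - (fl n x + fl n y))).trans (nb_mul h _ (nb_add n x y) (by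
      intro hd
      rw [hd, Nat.cast_zero]))
    linarith
  rw [div_le_iff₀ hn']
  calc m (fl n (x + y)) ≤ m (fl n x) + m (fl n y) + b * d := h2
    _ = (m (fl n x) / n + m (fl n y) / n + b * (0 + d / n)) * n := by
        field_simp
        ring

theorem le_tc {d : ℕ} {a b : ℝ} {m : V d → ℝ} (h : SubM a b m) (x : Fin d → ℝ) :
    a * nr x ≤ tc m x := by
  have h1 : Tendsto (fun n : ℕ => a * (nr x - (d : ℝ) / n)) atTop (𝓝 (a * nr x)) := by
    have h1 : Tendsto (fun n : ℕ => (d : ℝ) / n) atTop (𝓝 0) :=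
      tendsto_const_div_atTop_nhds_zero_nat (d : ℝ)
    have h2 := (h1.const_sub (nr x)).const_mul a
    rwa [sub_zero] at h2
  refine le_of_tendsto_of_tendsto h1 (tendsto_tc h x) ?_
  filter_upwards [eventually_gt_atTop 0] with n hn
  have hn' : (0 : ℝ) < n := by exact_mod_cast hn
  have h2 := mul_le_mul_of_nonneg_left (nb_lo n x) h.apos.le
  rw [le_div_iff₀ hn']
  calc a * (nr x - d / n) * n = a * (n * nr x - d) := by
        field_simp
    _ ≤ a * n1 (fl n x) := h2
    _ ≤ m (fl n x) := h.lo _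

theorem tc_le {d : ℕ} {a b : ℝ} {m : V d → ℝ} (h : SubM a b m) (x : Fin d → ℝ) :
    tc m x ≤ b * nr x := by
  refine le_of_tendsto_of_tendsto (tendsto_tc h x) (nb_tend d b (nr x)) ?_
  filter_upwards [eventually_gt_atTop 0] with n hn
  have hn' : (0 : ℝ) < n := by exact_mod_cast hn
  have h2 := (h.hi (fl n x)).trans (nb_mul h _ (nb_hi n x) (by
    intro hd
    subst hd
    simp [nr]))
  rw [div_le_iff₀ hn']
  calc m (fl n x) ≤ b * (n * nr x + d) := h2
    _ = b * (nr x + d / n) * n := by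
        field_simp

end Pool.Agent.Helper79.GR
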