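import Pool.Agent.Helper79.GR.RC

/-!
# GR-RD: passage times in distant regions are independent

By `T_congr`, `T (cf X ω) x y` is a measurable function of the weights in `box x L` (put `a`
outside: `c' e = if e ∈ box x L then c e else a`); the boxes are disjoint (`box_disjoint`); use
`iIndepFun.indepFun_finset`.
-/

set_option autoImplicit false

namespace Pool.Agent.Helper79.GR

open MeasureTheory ProbabilityTheory

variable {Ω : Type*} [MeasurableSpace Ω] {d : ℕ} {P : Measure Ω} {X : Edge d → Ω → ℝ}
  {ν : Measure ℝ} {a b : ℝ}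

private noncomputable def RDext (a : ℝ) (B : Finset (Edge d)) (g : B → ℝ) : Edge d → ℝ :=
  fun e => open Classical in if he : e ∈ B then g ⟨e, he⟩ else a

private theorem RD_meas (a : ℝ) (B : Finset (Edge d)) : Measurable (RDext a B) := by
  classical
  rw [measurable_pi_iff]
  intro e
  by_cases he : e ∈ B
  · have : (fun g : B → ℝ => RDext a B g e) = fun g => g ⟨e, he⟩ := by
      funext g
      rw [RDext, dif_pos he]
    rw [this]
    exact measurable_pi_apply _
  · have : (fun g : B → ℝ => RDext a B g e) = fun _ => a := by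
      funext g
      rw [RDext, dif_neg he]
    rw [this]
    exact measurable_const

private theorem RD_eq (h : Env P X ν a b) (x y : V d) (L : ℕ)
    (h1 : b * n1 (y - x) ≤ a * L) (ω : Ω) :
    T (cf X ω) x y = T (RDext a (box x L) (fun i => X i ω)) x y := by
  classical
  refine T_congr (h.cf_bd ω) ⟨h.apos, fun e => ?_⟩ x y L h1 fun e he => ?_
  · by_cases he : e ∈ box x L
    · rw [RDext, dif_pos he]
      exact h.bd e ω
    · rw [RDext, dif_neg he]
      exact ⟨le_refl a, (h.bd e ω).1.trans (h.bd e ω).2⟩
  · rw [RDext, dif_pos he]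
    rfl

theorem indepFun_T (h : Env P X ν a b) (x y x' y' : V d) (L : ℕ)
    (h1 : b * n1 (y - x) ≤ a * L) (h2 : b * n1 (y' - x') ≤ a * L)
    (h3 : 2 * (L : ℝ) < n1 (x' - x)) :
    IndepFun (fun ω => T (cf X ω) x y) (fun ω => T (cf X ω) x' y') P := by
  have hd := box_disjoint x x' L h3
  have hi := iIndepFun.indepFun_finset (box x L) (box x' L) hd h.indep h.meas
  have hc := hi.comp (φ := fun g => T (RDext a (box x L) g) x y)
    (ψ := fun g => T (RDext a (box x' L) g) x' y')
    ((measurable_T_cfg x y).comp (RD_meas a (box x L)))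
    ((measurable_T_cfg x' y').comp (RD_meas a (box x' L)))
  have e1 : (fun ω => T (cf X ω) x y) = (fun g => T (RDext a (box x L) g) x y) ∘
      fun ω (i : box x L) => X i ω := by
    funext ω
    exact RD_eq h x y L h1 ω
  have e2 : (fun ω => T (cf X ω) x' y') = (fun g => T (RDext a (box x' L) g) x' y') ∘
      fun ω (i : box x' L) => X i ω := by
    funext ω
    exact RD_eq h x' y' L h2 ω
  rw [e1, e2]
  exact hc

end Pool.Agent.Helper79.GR
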