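import Mathlib

/-!
# GR-RE: a weak law of large numbers

`E (∑ Y j) ^ 2 ≤ ∑ i, ∑ j, [|i - j| < D] C ^ 2 ≤ 2 D C ^ 2 k` (use `h0` for `i + D ≤ j` and
symmetrically), Chebyshev: `P (k δ < ∑ Y j) ≤ 2 D C ^ 2 / (k δ ^ 2)`.  (If `D = 0` replace it by
`1`.)
-/

set_option autoImplicit false

namespace Pool.Agent.Helper79.GR

open MeasureTheory ProbabilityTheory

private theorem int_mul {Ω : Type*} [MeasurableSpace Ω] (P : Measure Ω) [IsProbabilityMeasure P]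
    (Y : ℕ → Ω → ℝ) (C : ℝ) (hm : ∀ j, Measurable (Y j)) (hC : ∀ j ω, |Y j ω| ≤ C) (i j : ℕ) :
    Integrable (fun ω => Y i ω * Y j ω) P := by
  refine Integrable.of_bound ((hm i).mul (hm j)).aestronglyMeasurable (C * C)
    (Filter.Eventually.of_forall fun ω => ?_)
  rw [Real.norm_eq_abs, abs_mul]
  exact mul_le_mul (hC i ω) (hC j ω) (abs_nonneg _) ((abs_nonneg _).trans (hC i ω))

private theorem cov_le {Ω : Type*} [MeasurableSpace Ω] (P : Measure Ω) [IsProbabilityMeasure P]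
    (Y : ℕ → Ω → ℝ) (C : ℝ) (D : ℕ) (hm : ∀ j, Measurable (Y j)) (hC : ∀ j ω, |Y j ω| ≤ C)
    (h0 : ∀ i j, i + D ≤ j → ∫ ω, Y i ω * Y j ω ∂P = 0) (i j : ℕ) :
    ∫ ω, Y i ω * Y j ω ∂P ≤ if i < j + D ∧ j < i + D then C ^ 2 else 0 := by
  split_ifs with h
  · have h1 : ∫ ω, Y i ω * Y j ω ∂P ≤ ∫ _, C ^ 2 ∂P := by
      refine integral_mono (int_mul P Y C hm hC i j) (integrable_const _) fun ω => ?_
      have h2 : |Y i ω * Y j ω| ≤ C * C := by
        rw [abs_mul]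
        exact mul_le_mul (hC i ω) (hC j ω) (abs_nonneg _) ((abs_nonneg _).trans (hC i ω))
      show Y i ω * Y j ω ≤ C ^ 2
      rw [pow_two]
      exact (le_abs_self _).trans h2
    simpa using h1
  · rcases not_and_or.1 h with h | h
    · have h1 := h0 j i (not_lt.1 h)
      rw [show (fun ω => Y i ω * Y j ω) = fun ω => Y j ω * Y i ω from
        funext fun ω => mul_comm _ _, h1]
    · rw [h0 i j (not_lt.1 h)]

private theorem row_le (C : ℝ) (D k i : ℕ) :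
    ∑ j ∈ Finset.range k, (if i < j + D ∧ j < i + D then C ^ 2 else 0) ≤ 2 * D * C ^ 2 := by
  rw [← Finset.sum_filter, Finset.sum_const, nsmul_eq_mul]
  refine mul_le_mul_of_nonneg_right ?_ (sq_nonneg C)
  have h1 : (Finset.range k).filter (fun j => i < j + D ∧ j < i + D) ⊆
      Finset.Ico (i + 1 - D) (i + D) := by
    intro j hj
    rw [Finset.mem_filter] at hj
    rw [Finset.mem_Ico]
    omega
  have h2 := Finset.card_le_card h1
  rw [Nat.card_Ico] at h2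
  have h3 : ((Finset.range k).filter (fun j => i < j + D ∧ j < i + D)).card ≤ 2 * D := by
    omega
  exact_mod_cast h3

private theorem sq_int {Ω : Type*} [MeasurableSpace Ω] (P : Measure Ω) [IsProbabilityMeasure P]
    (Y : ℕ → Ω → ℝ) (C : ℝ) (D : ℕ) (hm : ∀ j, Measurable (Y j)) (hC : ∀ j ω, |Y j ω| ≤ C)
    (h0 : ∀ i j, i + D ≤ j → ∫ ω, Y i ω * Y j ω ∂P = 0) (k : ℕ) :
    Integrable (fun ω => (∑ j ∈ Finset.range k, Y j ω) ^ 2) P ∧
      ∫ ω, (∑ j ∈ Finset.range k, Y j ω) ^ 2 ∂P ≤ k * (2 * D * C ^ 2) := by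
  have e : (fun ω => (∑ j ∈ Finset.range k, Y j ω) ^ 2) =
      fun ω => ∑ i ∈ Finset.range k, ∑ j ∈ Finset.range k, Y i ω * Y j ω := by
    funext ω
    rw [pow_two, Finset.sum_mul_sum]
  have hi : ∀ i ∈ Finset.range k,
      Integrable (fun ω => ∑ j ∈ Finset.range k, Y i ω * Y j ω) P := fun i _ =>
    integrable_finsetSum _ fun j _ => int_mul P Y C hm hC i j
  rw [e]
  refine ⟨integrable_finsetSum _ hi, ?_⟩
  rw [integral_finsetSum _ hi]
  have h1 : ∀ i ∈ Finset.range k,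
      ∫ ω, ∑ j ∈ Finset.range k, Y i ω * Y j ω ∂P ≤ 2 * D * C ^ 2 := by
    intro i _
    rw [integral_finsetSum _ fun j _ => int_mul P Y C hm hC i j]
    exact (Finset.sum_le_sum fun j _ => cov_le P Y C D hm hC h0 i j).trans (row_le C D k i)
  refine (Finset.sum_le_sum h1).trans ?_
  simp

theorem wlln {Ω : Type*} [MeasurableSpace Ω] (P : Measure Ω) [IsProbabilityMeasure P]
    (Y : ℕ → Ω → ℝ) (C : ℝ) (D : ℕ) (hm : ∀ j, Measurable (Y j)) (hC : ∀ j ω, |Y j ω| ≤ C)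
    (h0 : ∀ i j, i + D ≤ j → ∫ ω, Y i ω * Y j ω ∂P = 0) (δ p : ℝ) (hδ : 0 < δ) (hp : 0 < p) :
    ∃ k₀ : ℕ, ∀ k ≥ k₀, P.real {ω | k * δ < ∑ j ∈ Finset.range k, Y j ω} ≤ p := by
  obtain ⟨k₀, hk₀⟩ := exists_nat_gt (2 * D * C ^ 2 / (p * δ ^ 2))
  refine ⟨k₀ + 1, fun k hk => ?_⟩
  have hk1 : (0 : ℝ) < k := by
    have : 0 < k := by omega
    exact_mod_cast this
  have hk2 : (k₀ : ℝ) ≤ k := by
    have : k₀ ≤ k := by omega
    exact_mod_cast this
  obtain ⟨hi, hb⟩ := sq_int P Y C D hm hC h0 k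
  have h1 : (k * δ) ^ 2 * P.real {ω | (k * δ) ^ 2 ≤ (∑ j ∈ Finset.range k, Y j ω) ^ 2} ≤
      ∫ ω, (∑ j ∈ Finset.range k, Y j ω) ^ 2 ∂P :=
    mul_meas_ge_le_integral_of_nonneg (Filter.Eventually.of_forall fun ω => sq_nonneg _) hi _
  have h2 : P.real {ω | k * δ < ∑ j ∈ Finset.range k, Y j ω} ≤
      P.real {ω | (k * δ) ^ 2 ≤ (∑ j ∈ Finset.range k, Y j ω) ^ 2} := by
    refine measureReal_mono (fun ω hω => ?_) (measure_ne_top P _)
    have h7 : k * δ < ∑ j ∈ Finset.range k, Y j ω := hω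
    have h8 : (0 : ℝ) ≤ k * δ := by positivity
    exact pow_le_pow_left₀ h8 h7.le 2
  have hpos : 0 < (k * δ) ^ 2 := by positivity
  have h3 : (k * δ) ^ 2 * P.real {ω | k * δ < ∑ j ∈ Finset.range k, Y j ω} ≤
      k * (2 * D * C ^ 2) := (mul_le_mul_of_nonneg_left h2 hpos.le).trans (h1.trans hb)
  have h4 : 2 * D * C ^ 2 < k * (p * δ ^ 2) := by
    have h5 : 2 * D * C ^ 2 < k₀ * (p * δ ^ 2) := (div_lt_iff₀ (by positivity)).1 hk₀
    exact h5.trans_le (mul_le_mul_of_nonneg_right hk2 (by positivity))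
  have h6 : (k * δ) ^ 2 * P.real {ω | k * δ < ∑ j ∈ Finset.range k, Y j ω} ≤ (k * δ) ^ 2 * p := by
    refine h3.trans ?_
    calc (k : ℝ) * (2 * D * C ^ 2) ≤ k * (k * (p * δ ^ 2)) :=
          mul_le_mul_of_nonneg_left h4.le hk1.le
      _ = (k * δ) ^ 2 * p := by ring
  exact le_of_mul_le_mul_left h6 hpos

end Pool.Agent.Helper79.GR
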