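import Pool.Agent.Helper79.GR.RD
import Pool.Agent.Helper79.GR.RE

/-!
# GR-RF: upper law of large numbers

`T 0 (k • v) ≤ ∑ j < k, T (j • v) ((j + 1) • v)` (`T_triangle`).  Apply `wlln` to
`Y j = T (j • v) ((j + 1) • v) - mm P X v`: bounded by `b * n1 v`, mean zero (`integral_T`),
and `E (Y i * Y j) = 0` for `i + D ≤ j` by `indepFun_T` (`IndepFun.integral_mul_eq_mul_integral`),
where `b n1 v ≤ a L` and `D` is so large that `2 L < D * n1 v` (for `v ≠ 0`; for `v = 0` all
passage times are `0`).
-/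

set_option autoImplicit false

namespace Pool.Agent.Helper79.GR

open MeasureTheory ProbabilityTheory

variable {Ω : Type*} [MeasurableSpace Ω] {d : ℕ} {P : Measure Ω} {X : Edge d → Ω → ℝ}
  {ν : Measure ℝ} {a b : ℝ}

private theorem rf_sub (v : V d) (j : ℕ) : (j + 1) • v - j • v = v := by
  rw [add_smul, one_smul, add_sub_cancel_left]

private theorem rf_chain {c : Edge d → ℝ} (h : Bd a b c) (v : V d) (k : ℕ) :
    T c 0 (k • v) ≤ ∑ j ∈ Finset.range k, T c (j • v) ((j + 1) • v) := by
  induction k with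
  | zero =>
    have h1 := T_le h (0 : V d) ((0 : ℕ) • v)
    rw [zero_smul, sub_zero, n1_zero, mul_zero] at h1
    simpa using h1
  | succ k ih =>
    rw [Finset.sum_range_succ]
    exact (T_triangle h 0 (k • v) ((k + 1) • v)).trans (by linarith)

theorem upper_lln (h : Env P X ν a b) (v : V d) (δ p : ℝ) (hδ : 0 < δ) (hp : 0 < p) :
    ∃ k₀ : ℕ, ∀ k ≥ k₀,
      P.real {ω | k * (mm P X v + δ) < T (cf X ω) 0 (k • v)} ≤ p := by
  haveI := h.prob
  have ha := h.apos
  have hS := subM_mm h
  have hTlo : ∀ (j : ℕ) (ω : Ω), a * n1 v ≤ T (cf X ω) (j • v) ((j + 1) • v) := by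
    intro j ω
    have := le_T (h.cf_bd ω) (j • v) ((j + 1) • v)
    rwa [rf_sub] at this
  have hThi : ∀ (j : ℕ) (ω : Ω), T (cf X ω) (j • v) ((j + 1) • v) ≤ b * n1 v := by
    intro j ω
    have := T_le (h.cf_bd ω) (j • v) ((j + 1) • v)
    rwa [rf_sub] at this
  have hmlo := hS.lo v
  have hmhi := hS.hi v
  have hn := n1_nonneg v
  obtain ⟨L, hL⟩ := exists_nat_ge (b * n1 v / a)
  have hL' : b * n1 v ≤ a * L := by
    rw [div_le_iff₀ ha] at hL
    linarith
  by_cases hv : v = 0
  · refine ⟨0, fun k _ => ?_⟩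
    have he : {ω | k * (mm P X v + δ) < T (cf X ω) 0 (k • v)} = ∅ := by
      apply Set.eq_empty_of_forall_notMem
      intro ω hω
      have h1 := T_le (h.cf_bd ω) (0 : V d) (k • v)
      have h2 : (0 : ℝ) ≤ k * (mm P X v + δ) := by
        have h3 : 0 ≤ mm P X v := le_trans (mul_nonneg ha.le hn) hmlo
        positivity
      have h4 : k * (mm P X v + δ) < T (cf X ω) 0 (k • v) := hω
      rw [hv, smul_zero, sub_zero, n1_zero, mul_zero] at h1
      rw [hv, smul_zero] at h4
      rw [hv] at h2
      linarith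
    rw [he, measureReal_empty]
    exact hp.le
  · have hn0 : 0 < n1 v := lt_of_le_of_ne hn fun e => hv (n1_eq_zero.1 e.symm)
    obtain ⟨D, hD⟩ := exists_nat_gt (2 * (L : ℝ) / n1 v)
    have hD' : 2 * (L : ℝ) < D * n1 v := by rwa [div_lt_iff₀ hn0] at hD
    have hmeas : ∀ j : ℕ, Measurable fun ω => T (cf X ω) (j • v) ((j + 1) • v) - mm P X v :=
      fun j => (measurable_T h _ _).sub_const _
    have hint : ∀ j : ℕ, Integrable (fun ω => T (cf X ω) (j • v) ((j + 1) • v) - mm P X v) P :=
      fun j => (integrable_T h _ _).sub (integrable_const _)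
    have hmean : ∀ j : ℕ, ∫ ω, (T (cf X ω) (j • v) ((j + 1) • v) - mm P X v) ∂P = 0 := by
      intro j
      rw [integral_sub (integrable_T h _ _) (integrable_const _), integral_T h, rf_sub,
        integral_const]
      simp
    have h0 : ∀ i j : ℕ, i + D ≤ j → ∫ ω, (T (cf X ω) (i • v) ((i + 1) • v) - mm P X v) *
        (T (cf X ω) (j • v) ((j + 1) • v) - mm P X v) ∂P = 0 := by
      intro i j hij
      have hsub : j • v - i • v = (j - i) • v := by
        obtain ⟨e, rfl⟩ := Nat.exists_eq_add_of_le (le_trans (Nat.le_add_right i D) hij)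
        rw [add_smul, add_sub_cancel_left, Nat.add_sub_cancel_left]
      have h3 : 2 * (L : ℝ) < n1 (j • v - i • v) := by
        rw [hsub, n1_nsmul]
        have h4 : (D : ℝ) ≤ ((j - i : ℕ) : ℝ) := by
          exact_mod_cast Nat.le_sub_of_add_le (by omega)
        exact lt_of_lt_of_le hD' (mul_le_mul_of_nonneg_right h4 hn)
      have hI := indepFun_T h (i • v) ((i + 1) • v) (j • v) ((j + 1) • v) L
        (by rw [rf_sub]; exact hL') (by rw [rf_sub]; exact hL') h3
      have hI2 : IndepFun (fun ω => T (cf X ω) (i • v) ((i + 1) • v) - mm P X v)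
          (fun ω => T (cf X ω) (j • v) ((j + 1) • v) - mm P X v) P :=
        hI.comp (φ := fun x : ℝ => x - mm P X v) (ψ := fun x : ℝ => x - mm P X v)
          (measurable_id.sub_const _) (measurable_id.sub_const _)
      have h5 := hI2.integral_fun_mul_eq_mul_integral
        (hint i).aestronglyMeasurable (hint j).aestronglyMeasurable
      rw [h5, hmean i, zero_mul]
    obtain ⟨k₀, hk₀⟩ := wlln P (fun (j : ℕ) ω => T (cf X ω) (j • v) ((j + 1) • v) - mm P X v)
      (b * n1 v) D hmeas (fun j ω => by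
        have h1 := hTlo j ω
        have h2 := hThi j ω
        have h3 : 0 ≤ a * n1 v := mul_nonneg ha.le hn
        rw [abs_le]
        constructor <;> linarith) h0 δ p hδ hp
    refine ⟨k₀, fun k hk => le_trans ?_ (hk₀ k hk)⟩
    refine measureReal_mono ?_
    intro ω hω
    have h1 : k * (mm P X v + δ) < T (cf X ω) 0 (k • v) := hω
    have h2 := rf_chain (h.cf_bd ω) v k
    change (k : ℝ) * δ < ∑ j ∈ Finset.range k, (T (cf X ω) (j • v) ((j + 1) • v) - mm P X v)
    rw [Finset.sum_sub_distrib, Finset.sum_const, Finset.card_range, nsmul_eq_mul]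
    have h3 : (k : ℝ) * (mm P X v + δ) = k * mm P X v + k * δ := by ring
    linarith

end Pool.Agent.Helper79.GR
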