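import Pool.Agent.Helper79.GR.RF
import Pool.Agent.Helper79.GR.NC

/-!
# GR-RG: lower law of large numbers

Let `t = tc (mm P X) (rv v)`, `A = {T < k (t - δ')}`, `H = {k (mm v + δ / 2) < T}` with
`P H * b * n1 v ≤ δ / 2` (`upper_lln`).  By `mul_tc_le`,
`k t ≤ E T ≤ k (t - δ') P A + k b (n1 v) P H + k (mm v + δ / 2) (1 - P A)`, and `t ≤ mm v`.
-/

set_option autoImplicit false

namespace Pool.Agent.Helper79.GR

open MeasureTheory ProbabilityTheory

variable {Ω : Type*} [MeasurableSpace Ω] {d : ℕ} {P : Measure Ω} {X : Edge d → Ω → ℝ}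
  {ν : Measure ℝ} {a b : ℝ}

theorem lower_lln (h : Env P X ν a b) (v : V d) (δ δ' : ℝ) (hδ : 0 < δ) (hδ' : 0 < δ') :
    ∃ k₀ : ℕ, ∀ k ≥ k₀,
      P.real {ω | T (cf X ω) 0 (k • v) < k * (tc (mm P X) (rv v) - δ')} * δ' ≤
        mm P X v - tc (mm P X) (rv v) + δ := by
  have := h.prob
  have hS := subM_mm h
  set t : ℝ := tc (mm P X) (rv v) with ht
  have hmm0 : 0 ≤ mm P X v := hS.nonneg v
  have hbn : 0 ≤ b * n1 v := hmm0.trans (hS.hi v)
  have htm : t ≤ mm P X v := by
    have h1 := mul_tc_le hS v 1
    rw [one_smul] at h1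
    simpa using h1
  obtain ⟨k₀, hk₀⟩ := upper_lln h v (δ / 2) (δ / (2 * (b * n1 v + 1))) (by positivity)
    (by positivity)
  refine ⟨k₀ + 1, fun k hk => ?_⟩
  have hk1 : (1 : ℝ) ≤ k := by exact_mod_cast (by omega : 1 ≤ k)
  have hH := hk₀ k (by omega)
  set A : Set Ω := {ω | T (cf X ω) 0 (k • v) < k * (t - δ')} with hA
  set H : Set Ω := {ω | k * (mm P X v + δ / 2) < T (cf X ω) 0 (k • v)} with hHd
  have hmT := measurable_T h 0 (k • v)
  have hmA : MeasurableSet A := measurableSet_lt hmT measurable_const
  have hmH : MeasurableSet H := measurableSet_lt measurable_const hmT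
  have hPA0 : 0 ≤ P.real A := measureReal_nonneg
  have hPA1 : P.real A ≤ 1 := measureReal_le_one
  have hPH0 : 0 ≤ P.real H := measureReal_nonneg
  -- the bound on the expectation
  have hint : mm P X (k • v) ≤
      k * (t - δ') * P.real A + k * (b * n1 v) * P.real H +
        k * (mm P X v + δ / 2) * (1 - P.real A) := by
    have hcA : P.real A + P.real Aᶜ = 1 := by
      rw [probReal_compl_eq_one_sub hmA]; ring
    have h1 : mm P X (k • v) ≤ ∫ ω, (A.indicator (fun _ => k * (t - δ')) ω +
        H.indicator (fun _ => k * (b * n1 v)) ω +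
        Aᶜ.indicator (fun _ => k * (mm P X v + δ / 2)) ω) ∂P := by
      refine integral_mono (integrable_T h 0 (k • v)) ?_ ?_
      · exact (((integrable_const _).indicator hmA).add ((integrable_const _).indicator hmH)).add
          ((integrable_const _).indicator hmA.compl)
      · intro ω
        have hTle : T (cf X ω) 0 (k • v) ≤ k * (b * n1 v) := by
          have h2 := T_le (h.cf_bd ω) 0 (k • v)
          rw [sub_zero, n1_nsmul] at h2
          linarith
        have h3 : (0 : ℝ) ≤ H.indicator (fun _ => k * (b * n1 v)) ω :=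
          Set.indicator_nonneg (fun _ _ => by positivity) ω
        change T (cf X ω) 0 (k • v) ≤ A.indicator (fun _ => k * (t - δ')) ω +
          H.indicator (fun _ => k * (b * n1 v)) ω +
          Aᶜ.indicator (fun _ => k * (mm P X v + δ / 2)) ω
        by_cases hωA : ω ∈ A
        · have e1 : Aᶜ.indicator (fun _ => k * (mm P X v + δ / 2)) ω = 0 :=
            Set.indicator_of_notMem (s := Aᶜ) (fun hc : ω ∈ Aᶜ => hc hωA) _
          rw [Set.indicator_of_mem hωA, e1]
          have h4 : T (cf X ω) 0 (k • v) < k * (t - δ') := hωA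
          linarith
        · have e1 : Aᶜ.indicator (fun _ => k * (mm P X v + δ / 2)) ω =
              k * (mm P X v + δ / 2) := Set.indicator_of_mem hωA _
          rw [Set.indicator_of_notMem hωA, e1]
          by_cases hωH : ω ∈ H
          · rw [Set.indicator_of_mem hωH]
            have h5 : (0 : ℝ) ≤ k * (mm P X v + δ / 2) := by positivity
            linarith
          · rw [Set.indicator_of_notMem hωH]
            have h4 : T (cf X ω) 0 (k • v) ≤ k * (mm P X v + δ / 2) := not_lt.1 hωH
            linarith
    rw [integral_add, integral_add, integral_indicator_const _ hmA,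
      integral_indicator_const _ hmH, integral_indicator_const _ hmA.compl] at h1
    · have h6 : P.real Aᶜ = 1 - P.real A := by linarith
      rw [h6] at h1
      simp only [smul_eq_mul] at h1
      linarith
    · exact (integrable_const _).indicator hmA
    · exact (integrable_const _).indicator hmH
    · exact ((integrable_const _).indicator hmA).add ((integrable_const _).indicator hmH)
    · exact (integrable_const _).indicator hmA.compl
  have hkt := mul_tc_le hS v k
  rw [← ht] at hkt
  have hbH : b * n1 v * P.real H ≤ δ / 2 := by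
    have h1 : b * n1 v * P.real H ≤ b * n1 v * (δ / (2 * (b * n1 v + 1))) :=
      mul_le_mul_of_nonneg_left hH hbn
    have h2 : b * n1 v * (δ / (2 * (b * n1 v + 1))) ≤ δ / 2 := by
      rw [mul_div_assoc', div_le_div_iff₀ (by positivity) (by norm_num)]
      nlinarith
    linarith
  have hmain : t ≤ (t - δ') * P.real A + b * n1 v * P.real H +
      (mm P X v + δ / 2) * (1 - P.real A) := by
    have h1 : k * t ≤ k * ((t - δ') * P.real A + b * n1 v * P.real H +
      (mm P X v + δ / 2) * (1 - P.real A)) := by
      refine (hkt.trans hint).trans (le_of_eq ?_)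
      ring
    exact le_of_mul_le_mul_left h1 (by linarith)
  nlinarith [mul_nonneg (sub_nonneg.2 htm) hPA0]

end Pool.Agent.Helper79.GR
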