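import Pool.Agent.Helper79.GR.RG

/-!
# GR-RH: law of large numbers along a direction

Choose `M : ℕ` large, `v = fl M x`: `mm P X v ≤ M (t + ε₁)` with `t = tc (mm P X) x`
(`tendsto_tc`), `|tc (mm P X) (rv v) - M t| ≤ b * d` (`tc_lip`, `tc_smul`; `nr (rv (fl M x) -
M • x) ≤ d`).  For `r` let `k = r / M`: `n1 (fl r x - k • v) ≤ d * (k + 1) + M * nr x`, hence
`|T 0 (fl r x) - T 0 (k • v)| ≤ b * n1 (fl r x - k • v) ≤ ε₂ r` for large `M` and `r`.  Then
`upper_lln` and `lower_lln` (with `δ' = δ₀ M`).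
-/

set_option autoImplicit false

namespace Pool.Agent.Helper79.GR

open MeasureTheory ProbabilityTheory

variable {Ω : Type*} [MeasurableSpace Ω] {d : ℕ} {P : Measure Ω} {X : Edge d → Ω → ℝ}
  {ν : Measure ℝ} {a b : ℝ}

private theorem rh_exM {m : V d → ℝ} (hs : SubM a b m) (x : Fin d → ℝ) (ε C κ : ℝ)
    (hε : 0 < ε) (hκ : 0 < κ) :
    ∃ M : ℕ, 1 ≤ M ∧ m (fl M x) ≤ M * (tc m x + ε) ∧ C ≤ κ * M := by
  have h1 : ∀ᶠ n : ℕ in Filter.atTop, m (fl n x) / n < tc m x + ε :=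
    (tendsto_tc hs x).eventually_lt_const (by linarith)
  have h2 : ∀ᶠ n : ℕ in Filter.atTop, ⌈C / κ⌉₊ ≤ n := Filter.eventually_ge_atTop _
  have h3 : ∀ᶠ n : ℕ in Filter.atTop, 1 ≤ n := Filter.eventually_ge_atTop _
  obtain ⟨M, hM1, hM2, hM3⟩ := (h1.and (h2.and h3)).exists
  have hMpos : (0 : ℝ) < M := by exact_mod_cast hM3
  refine ⟨M, hM3, ?_, ?_⟩
  · rw [div_lt_iff₀ hMpos] at hM1
    linarith
  · have h4 : C / κ ≤ M := (Nat.le_ceil _).trans (by exact_mod_cast hM2)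
    rw [div_le_iff₀ hκ] at h4
    linarith

private theorem rh_abs_floor (t : ℝ) : |(⌊t⌋ : ℝ) - t| ≤ 1 := by
  rw [abs_le]
  constructor
  · linarith [Int.lt_floor_add_one t]
  · linarith [Int.floor_le t]

private theorem rh_nr (M : ℕ) (x : Fin d → ℝ) : nr (rv (fl M x) - (M : ℝ) • x) ≤ d := by
  unfold nr
  calc ∑ i, |(rv (fl M x) - (M : ℝ) • x) i| ≤ ∑ _i : Fin d, (1 : ℝ) := by
        refine Finset.sum_le_sum fun i _ => ?_
        simpa [rv, fl] using rh_abs_floor ((M : ℝ) * x i)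
    _ = d := by simp

private theorem rh_n1 (M r : ℕ) (hM : 1 ≤ M) (x : Fin d → ℝ) :
    n1 (fl r x - (r / M) • fl M x) ≤ d * (((r / M : ℕ) : ℝ) + 1) + M * nr x := by
  have hr : M * (r / M) + r % M = r := Nat.div_add_mod r M
  have hr2 : r % M ≤ M := (Nat.mod_lt r hM).le
  have hrR : (M : ℝ) * ((r / M : ℕ) : ℝ) + ((r % M : ℕ) : ℝ) = r := by exact_mod_cast hr
  have hr2R : ((r % M : ℕ) : ℝ) ≤ M := by exact_mod_cast hr2
  have hk0 : (0 : ℝ) ≤ ((r / M : ℕ) : ℝ) := Nat.cast_nonneg _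
  have hm0 : (0 : ℝ) ≤ ((r % M : ℕ) : ℝ) := Nat.cast_nonneg _
  generalize ((r % M : ℕ) : ℝ) = q at hrR hr2R hm0
  unfold n1 nr
  calc ∑ i, |(((fl r x - (r / M) • fl M x) i : ℤ) : ℝ)|
      ≤ ∑ i, ((((r / M : ℕ) : ℝ) + 1) + M * |x i|) := by
        refine Finset.sum_le_sum fun i _ => ?_
        have h1 : (((fl r x - (r / M) • fl M x) i : ℤ) : ℝ) =
            ((⌊(r : ℝ) * x i⌋ : ℝ) - r * x i) +
              (-(((r / M : ℕ) : ℝ) * ((⌊(M : ℝ) * x i⌋ : ℝ) - M * x i)) + q * x i) := by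
          have h0 : (fl r x - (r / M) • fl M x) i =
              ⌊(r : ℝ) * x i⌋ - ((r / M : ℕ) : ℤ) * ⌊(M : ℝ) * x i⌋ := by
            simp [fl]
          rw [h0, Int.cast_sub, Int.cast_mul, Int.cast_natCast]
          generalize ((⌊(r : ℝ) * x i⌋ : ℤ) : ℝ) = u
          rw [← hrR]
          ring
        have h2 := rh_abs_floor ((r : ℝ) * x i)
        have h3 : |-(((r / M : ℕ) : ℝ) * ((⌊(M : ℝ) * x i⌋ : ℝ) - M * x i))| ≤
            ((r / M : ℕ) : ℝ) := by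
          rw [abs_neg, abs_mul, abs_of_nonneg hk0]
          exact mul_le_of_le_one_right hk0 (rh_abs_floor _)
        have h4 : |q * x i| ≤ M * |x i| := by
          rw [abs_mul, abs_of_nonneg hm0]
          exact mul_le_mul_of_nonneg_right hr2R (abs_nonneg _)
        rw [h1]
        refine (abs_add_le _ _).trans ?_
        have h5 := abs_add_le (-(((r / M : ℕ) : ℝ) * ((⌊(M : ℝ) * x i⌋ : ℝ) - M * x i))) (q * x i)
        linarith
    _ = d * (((r / M : ℕ) : ℝ) + 1) + M * ∑ i, |x i| := by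
        rw [Finset.sum_add_distrib, Finset.mul_sum, Finset.sum_const, Finset.card_univ,
          Fintype.card_fin, nsmul_eq_mul]

private theorem rh_T {c : Edge d → ℝ} (hc : Bd a b c) (hb : 0 ≤ b) (M r : ℕ) (hM : 1 ≤ M)
    (x : Fin d → ℝ) :
    |T c 0 (fl r x) - T c 0 ((r / M) • fl M x)| ≤
      b * (d * (((r / M : ℕ) : ℝ) + 1) + M * nr x) := by
  have h1 := rh_n1 M r hM x
  have h2 := T_triangle hc 0 ((r / M) • fl M x) (fl r x)
  have h3 := T_triangle hc 0 (fl r x) ((r / M) • fl M x)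
  have h4 := T_le hc ((r / M) • fl M x) (fl r x)
  have h5 := T_le hc (fl r x) ((r / M) • fl M x)
  rw [n1_sub_comm] at h5
  have h6 := mul_le_mul_of_nonneg_left h1 hb
  rw [abs_le]
  constructor <;> linarith

/-- the constants for the time constant at the direction `x` -/
private theorem rh_tc {m : V d → ℝ} (hs : SubM a b m) (hb : 0 ≤ b) (M : ℕ) (x : Fin d → ℝ) :
    |tc m (rv (fl M x)) - M * tc m x| ≤ b * d := by
  rw [← tc_smul hs M (Nat.cast_nonneg _) x]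
  exact (tc_lip hs _ _).trans (mul_le_mul_of_nonneg_left (rh_nr M x) hb)

private theorem rh_upper (h : Env P X ν a b) (hb : 0 ≤ b) (x : Fin d → ℝ) (δ p : ℝ)
    (hδ : 0 < δ) (hp : 0 < p) :
    ∃ r₀ : ℕ, ∀ r ≥ r₀,
      P.real {ω | r * tc (mm P X) x + δ * r < T (cf X ω) 0 (fl r x)} ≤ p := by
  have hprob := h.prob
  have hs := subM_mm h
  have hnr : 0 ≤ nr x := Finset.sum_nonneg fun i _ => abs_nonneg _
  have ht : 0 ≤ tc (mm P X) x :=
    (mul_nonneg h.apos.le hnr).trans (le_tc hs x)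
  obtain ⟨M, hM1, hM2, hM3⟩ := rh_exM hs x (δ / 4) (1 + b * d) (δ / 4) (by linarith) (by linarith)
  obtain ⟨k₀, hk₀⟩ := upper_lln h (fl M x) 1 p one_pos hp
  refine ⟨max (M * k₀) ⌈(b * d + b * M * nr x) / (δ / 4)⌉₊, fun r hr => ?_⟩
  have hr1 : k₀ ≤ r / M := by
    rw [Nat.le_div_iff_mul_le hM1, mul_comm]
    exact (le_max_left _ _).trans hr
  have hr2 : b * d + b * M * nr x ≤ δ / 4 * r := by
    have h1 : (b * d + b * M * nr x) / (δ / 4) ≤ r :=
      (Nat.le_ceil _).trans (by exact_mod_cast (le_max_right _ _).trans hr)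
    rw [div_le_iff₀ (by linarith)] at h1
    linarith
  refine le_trans (measureReal_mono ?_) (hk₀ (r / M) hr1)
  intro ω hω
  simp only [Set.mem_ofPred_eq] at hω ⊢
  have h1 := rh_T (h.cf_bd ω) hb M r hM1 x
  rw [abs_le] at h1
  have hk0 : (0 : ℝ) ≤ ((r / M : ℕ) : ℝ) := Nat.cast_nonneg _
  have hkM : ((r / M : ℕ) : ℝ) * M ≤ r := by exact_mod_cast Nat.div_mul_le_self r M
  generalize ((r / M : ℕ) : ℝ) = k at h1 hk0 hkM ⊢
  have h2 : k * mm P X (fl M x) ≤ k * (M * (tc (mm P X) x + δ / 4)) :=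
    mul_le_mul_of_nonneg_left hM2 hk0
  have h3 : k * M * (tc (mm P X) x + δ / 4) ≤ r * (tc (mm P X) x + δ / 4) :=
    mul_le_mul_of_nonneg_right hkM (by linarith)
  have h4 : k * (1 + b * d) ≤ k * (δ / 4 * M) := mul_le_mul_of_nonneg_left hM3 hk0
  have h5 : k * M * (δ / 4) ≤ r * (δ / 4) := mul_le_mul_of_nonneg_right hkM (by linarith)
  have hr0 : (0 : ℝ) ≤ r := Nat.cast_nonneg _
  have h6 : 0 ≤ δ * r := mul_nonneg hδ.le hr0
  nlinarith [h1.2, h2, h3, h4, h5, hr2, hω]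

theorem lln_dir_upper (h : Env P X ν a b) (x : Fin d → ℝ) (δ p : ℝ) (hδ : 0 < δ) (hp : 0 < p) :
    ∃ r₀ : ℕ, ∀ r ≥ r₀,
      P.real {ω | r * tc (mm P X) x + δ * r < T (cf X ω) 0 (fl r x)} ≤ p := by
  have h' : Env P X ν a (max b 0) :=
    ⟨h.prob, h.meas, h.indep, h.law, h.apos, fun e ω =>
      ⟨(h.bd e ω).1, (h.bd e ω).2.trans (le_max_left _ _)⟩⟩
  exact rh_upper h' (le_max_right _ _) x δ p hδ hp

private theorem rh_lower (h : Env P X ν a b) (hb : 0 ≤ b) (x : Fin d → ℝ) (δ p : ℝ)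
    (hδ : 0 < δ) (hp : 0 < p) :
    ∃ r₀ : ℕ, ∀ r ≥ r₀,
      P.real {ω | T (cf X ω) 0 (fl r x) < r * tc (mm P X) x - δ * r} ≤ p := by
  have hprob := h.prob
  have hs := subM_mm h
  have hnr : 0 ≤ nr x := Finset.sum_nonneg fun i _ => abs_nonneg _
  have ht : 0 ≤ tc (mm P X) x :=
    (mul_nonneg h.apos.le hnr).trans (le_tc hs x)
  have hbd : 0 ≤ b * d := mul_nonneg hb (Nat.cast_nonneg _)
  have hδp : 0 < δ / 4 * (p / 2) := by positivity
  have hκ : 0 < min (δ / 4) (δ / 4 * (p / 2)) := lt_min (by linarith) hδp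
  obtain ⟨M, hM1, hM2, hM3⟩ := rh_exM hs x (δ / 4 * (p / 2)) (1 + 2 * (b * d))
    (min (δ / 4) (δ / 4 * (p / 2))) hδp hκ
  have hMpos : (0 : ℝ) < M := by exact_mod_cast hM1
  have hM4 : 1 + 2 * (b * d) ≤ δ / 4 * M :=
    hM3.trans (mul_le_mul_of_nonneg_right (min_le_left _ _) hMpos.le)
  have hM5 : 1 + 2 * (b * d) ≤ δ / 4 * (p / 2) * M :=
    hM3.trans (mul_le_mul_of_nonneg_right (min_le_right _ _) hMpos.le)
  have htv := rh_tc hs hb M x
  rw [abs_le] at htv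
  have hδM : 0 < δ / 4 * M := by positivity
  obtain ⟨k₀, hk₀⟩ := lower_lln h (fl M x) 1 (δ / 4 * M) one_pos hδM
  refine ⟨max (M * k₀) ⌈(b * d + b * M * nr x + M * tc (mm P X) x) / (δ / 4)⌉₊, fun r hr => ?_⟩
  have hr1 : k₀ ≤ r / M := by
    rw [Nat.le_div_iff_mul_le hM1, mul_comm]
    exact (le_max_left _ _).trans hr
  have hr2 : b * d + b * M * nr x + M * tc (mm P X) x ≤ δ / 4 * r := by
    have h1 : (b * d + b * M * nr x + M * tc (mm P X) x) / (δ / 4) ≤ r :=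
      (Nat.le_ceil _).trans (by exact_mod_cast (le_max_right _ _).trans hr)
    rw [div_le_iff₀ (by linarith)] at h1
    linarith
  have hfin : P.real {ω | T (cf X ω) 0 ((r / M) • fl M x) <
      (r / M : ℕ) * (tc (mm P X) (rv (fl M x)) - δ / 4 * M)} ≤ p := by
    have h1 := hk₀ (r / M) hr1
    have h2 : mm P X (fl M x) - tc (mm P X) (rv (fl M x)) + 1 ≤ p * (δ / 4 * M) := by
      nlinarith [hM2, htv.1, hM5]
    exact le_of_mul_le_mul_right (h1.trans h2) hδM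
  refine le_trans (measureReal_mono ?_) hfin
  intro ω hω
  simp only [Set.mem_ofPred_eq] at hω ⊢
  have h1 := rh_T (h.cf_bd ω) hb M r hM1 x
  rw [abs_le] at h1
  have hk0 : (0 : ℝ) ≤ ((r / M : ℕ) : ℝ) := Nat.cast_nonneg _
  have hkM : ((r / M : ℕ) : ℝ) * M ≤ r := by exact_mod_cast Nat.div_mul_le_self r M
  have hkM2 : (r : ℝ) - M ≤ ((r / M : ℕ) : ℝ) * M := by
    have h7 : M * (r / M) + r % M = r := Nat.div_add_mod r M
    have h8 : r % M ≤ M := (Nat.mod_lt r hM1).le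
    have h9 : r ≤ (r / M) * M + M := by
      rw [mul_comm (r / M) M]
      omega
    have h10 : (r : ℝ) ≤ ((r / M : ℕ) : ℝ) * M + M := by exact_mod_cast h9
    linarith
  generalize ((r / M : ℕ) : ℝ) = k at h1 hk0 hkM hkM2 ⊢
  have h2 : k * (M * tc (mm P X) x - b * d) ≤ k * tc (mm P X) (rv (fl M x)) :=
    mul_le_mul_of_nonneg_left (by linarith [htv.1]) hk0
  have h3 : (r - M) * tc (mm P X) x ≤ k * M * tc (mm P X) x :=
    mul_le_mul_of_nonneg_right hkM2 ht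
  have h4 : k * (1 + 2 * (b * d)) ≤ k * (δ / 4 * M) := mul_le_mul_of_nonneg_left hM4 hk0
  have h5 : k * M * (δ / 4) ≤ r * (δ / 4) := mul_le_mul_of_nonneg_right hkM (by linarith)
  nlinarith [h1.1, h2, h3, h4, h5, hr2, hω]

theorem lln_dir_lower (h : Env P X ν a b) (x : Fin d → ℝ) (δ p : ℝ) (hδ : 0 < δ) (hp : 0 < p) :
    ∃ r₀ : ℕ, ∀ r ≥ r₀,
      P.real {ω | T (cf X ω) 0 (fl r x) < r * tc (mm P X) x - δ * r} ≤ p := by
  have h' : Env P X ν a (max b 0) :=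
    ⟨h.prob, h.meas, h.indep, h.law, h.apos, fun e ω =>
      ⟨(h.bd e ω).1, (h.bd e ω).2.trans (le_max_left _ _)⟩⟩
  exact rh_lower h' (le_max_right _ _) x δ p hδ hp

end Pool.Agent.Helper79.GR
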