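import Pool.Agent.Helper79.GR.RH

/-!
# GR-RI: uniform law of large numbers

Finite `κ`-net `Y` of `{x | nr x ≤ R}` (totally bounded); `lln_dir_upper`, `lln_dir_lower` for
the points of `Y`, union bound.  For `v` with `n1 v ≤ R * r` take `y ∈ Y` with
`nr ((1 / r) • rv v - y) ≤ κ`: `n1 (v - fl r y) ≤ κ r + d`, so `T 0 v` and `T 0 (fl r y)` differ by
at most `b (κ r + d)` (`T_triangle`, `T_le`), and `tc (rv v)`, `r tc y` by at most `b κ r`
(`tc_lip`, `tc_smul`).
-/

set_option autoImplicit false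

namespace Pool.Agent.Helper79.GR

open MeasureTheory ProbabilityTheory

variable {Ω : Type*} [MeasurableSpace Ω] {d : ℕ} {P : Measure Ω} {X : Edge d → Ω → ℝ}
  {ν : Measure ℝ} {a b : ℝ}

private theorem ri_net (d : ℕ) (R κ : ℝ) (hκ : 0 < κ) :
    ∃ Y : Finset (Fin d → ℝ), ∀ x : Fin d → ℝ, nr x ≤ R → ∃ y ∈ Y, nr (x - y) ≤ κ := by
  have hc := (isCompact_closedBall (0 : Fin d → ℝ) R).totallyBounded
  have hκ' : 0 < κ / ((d : ℝ) + 1) := by positivity
  obtain ⟨t, ht, hsub⟩ := Metric.totallyBounded_iff.1 hc _ hκ'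
  refine ⟨ht.toFinset, ?_⟩
  intro x hx
  have hnr : 0 ≤ nr x := Finset.sum_nonneg fun i _ => abs_nonneg _
  have hxb : x ∈ Metric.closedBall (0 : Fin d → ℝ) R := by
    rw [mem_closedBall_zero_iff, pi_norm_le_iff_of_nonneg (hnr.trans hx)]
    intro i
    refine le_trans ?_ hx
    rw [Real.norm_eq_abs]
    exact Finset.single_le_sum (f := fun i => |x i|) (fun j _ => abs_nonneg _)
      (Finset.mem_univ i)
  have h1 := hsub hxb
  simp only [Set.mem_iUnion, Metric.mem_ball] at h1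
  obtain ⟨y, hy, hd⟩ := h1
  refine ⟨y, ht.mem_toFinset.2 hy, ?_⟩
  have h2 : ∀ i, |x i - y i| ≤ κ / ((d : ℝ) + 1) := by
    intro i
    have := (dist_le_pi_dist x y i).trans hd.le
    rwa [Real.dist_eq] at this
  calc nr (x - y) = ∑ i, |x i - y i| := rfl
    _ ≤ ∑ _i : Fin d, κ / ((d : ℝ) + 1) := Finset.sum_le_sum fun i _ => h2 i
    _ = d * (κ / ((d : ℝ) + 1)) := by
        rw [Finset.sum_const, Finset.card_univ, Fintype.card_fin, nsmul_eq_mul]
    _ ≤ κ := by
        rw [mul_div_assoc', div_le_iff₀ (by positivity)]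
        nlinarith

private theorem ri_T_lip {c : Edge d → ℝ} (h : Bd a b c) (x y z : V d) :
    |T c x y - T c x z| ≤ b * n1 (y - z) := by
  have h1 := T_triangle h x z y
  have h2 := T_triangle h x y z
  have h3 := T_le h z y
  have h4 := T_le h y z
  rw [n1_sub_comm z y] at h4
  rw [abs_le]
  constructor <;> linarith

private theorem ri_det {c : Edge d → ℝ} (h : Bd a b c) {m : V d → ℝ} (hm : SubM a b m)
    (B κ δ : ℝ) (hB : |b| ≤ B) (hκ : 0 ≤ κ) (r : ℕ) (hr : 0 < r)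
    (v : V d) (y : Fin d → ℝ) (hy : nr ((1 / (r : ℝ)) • rv v - y) ≤ κ)
    (h1 : T c 0 (fl r y) ≤ r * tc m y + δ * r) (h2 : r * tc m y - δ * r ≤ T c 0 (fl r y)) :
    |T c 0 v - tc m (rv v)| ≤ 2 * B * κ * r + B * d + δ * r := by
  have hr' : (0 : ℝ) < r := by exact_mod_cast hr
  have hB0 : 0 ≤ B := (abs_nonneg b).trans hB
  have hbB : b ≤ B := (le_abs_self b).trans hB
  have hn : n1 (v - fl r y) ≤ κ * r + d := by
    have hstep : ∀ i, |((v - fl r y) i : ℝ)| ≤ r * |((1 / (r : ℝ)) • rv v - y) i| + 1 := by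
      intro i
      have e1 : ((v - fl r y) i : ℝ) = r * ((1 / (r : ℝ)) • rv v - y) i +
          (r * y i - (⌊r * y i⌋ : ℝ)) := by
        simp only [fl, rv, Pi.sub_apply, Pi.smul_apply, smul_eq_mul, Int.cast_sub]
        field_simp
        ring
      rw [e1]
      refine (abs_add_le _ _).trans ?_
      rw [abs_mul, abs_of_pos hr']
      have e2 : |(r : ℝ) * y i - (⌊(r : ℝ) * y i⌋ : ℝ)| ≤ 1 := by
        rw [abs_le]
        have := Int.floor_le ((r : ℝ) * y i)
        have := Int.lt_floor_add_one ((r : ℝ) * y i)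
        constructor <;> linarith
      linarith
    calc n1 (v - fl r y) = ∑ i, |((v - fl r y) i : ℝ)| := rfl
      _ ≤ ∑ i, (r * |((1 / (r : ℝ)) • rv v - y) i| + 1) :=
          Finset.sum_le_sum fun i _ => hstep i
      _ = r * nr ((1 / (r : ℝ)) • rv v - y) + d := by
          rw [Finset.sum_add_distrib, ← Finset.mul_sum]
          simp [nr]
      _ ≤ κ * r + d := by nlinarith
  have hn0 : 0 ≤ n1 (v - fl r y) := n1_nonneg _
  have hT : |T c 0 v - T c 0 (fl r y)| ≤ B * (κ * r + d) :=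
    (ri_T_lip h 0 v (fl r y)).trans
      ((mul_le_mul_of_nonneg_right hbB hn0).trans (mul_le_mul_of_nonneg_left hn hB0))
  have hv : tc m (rv v) = r * tc m ((1 / (r : ℝ)) • rv v) := by
    rw [← tc_smul hm _ hr'.le, smul_smul, mul_one_div_cancel hr'.ne', one_smul]
  have hnr0 : 0 ≤ nr ((1 / (r : ℝ)) • rv v - y) := Finset.sum_nonneg fun i _ => abs_nonneg _
  have hl : |tc m ((1 / (r : ℝ)) • rv v) - tc m y| ≤ B * κ :=
    (tc_lip hm _ _).trans
      ((mul_le_mul_of_nonneg_right hbB hnr0).trans (mul_le_mul_of_nonneg_left hy hB0))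
  have hl2 : |tc m (rv v) - r * tc m y| ≤ B * κ * r := by
    rw [hv, ← mul_sub, abs_mul, abs_of_pos hr']
    nlinarith
  rw [abs_le] at hT hl2 ⊢
  obtain ⟨t1, t2⟩ := hT
  obtain ⟨l1, l2⟩ := hl2
  constructor <;> nlinarith

theorem lln_unif (h : Env P X ν a b) (R δ p : ℝ) (hR : 0 < R) (hδ : 0 < δ) (hp : 0 < p) :
    ∃ r₀ : ℕ, ∀ r ≥ r₀, P.real {ω | ∃ v : V d, n1 v ≤ R * r ∧
      δ * r < |T (cf X ω) 0 v - tc (mm P X) (rv v)|} ≤ p := by
  have := h.prob
  have _hR := hR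
  set B : ℝ := |b| + 1 with hBdef
  have hB : 0 < B := by positivity
  have hκ : 0 < δ / (8 * B) := by positivity
  obtain ⟨Y, hY⟩ := ri_net d R (δ / (8 * B)) hκ
  have hp' : 0 < p / (2 * ((Y.card : ℝ) + 1)) := by positivity
  have hδ2 : 0 < δ / 2 := by positivity
  choose r1 hr1 using fun x => lln_dir_upper h x (δ / 2) (p / (2 * ((Y.card : ℝ) + 1))) hδ2 hp'
  choose r2 hr2 using fun x => lln_dir_lower h x (δ / 2) (p / (2 * ((Y.card : ℝ) + 1))) hδ2 hp'
  refine ⟨Y.sup r1 + Y.sup r2 + ⌈4 * B * d / δ⌉₊ + 1, ?_⟩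
  intro r hr
  have hr0 : 0 < r := by omega
  have hr0' : (0 : ℝ) < r := by exact_mod_cast hr0
  have hrd : B * d ≤ δ / 4 * r := by
    have e1 : ⌈4 * B * d / δ⌉₊ ≤ r := by omega
    have e2 : 4 * B * d / δ ≤ r := (Nat.le_ceil _).trans (by exact_mod_cast e1)
    rw [div_le_iff₀ hδ] at e2
    linarith
  set up : (Fin d → ℝ) → Set Ω := fun x =>
    {ω | r * tc (mm P X) x + δ / 2 * r < T (cf X ω) 0 (fl r x)} with hup
  set lo : (Fin d → ℝ) → Set Ω := fun x =>
    {ω | T (cf X ω) 0 (fl r x) < r * tc (mm P X) x - δ / 2 * r} with hlo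
  have hsub : {ω | ∃ v : V d, n1 v ≤ R * r ∧
      δ * r < |T (cf X ω) 0 v - tc (mm P X) (rv v)|} ⊆ ⋃ y ∈ Y, (up y ∪ lo y) := by
    rintro ω ⟨v, hv, hlt⟩
    by_contra hcon
    have hnr : nr ((1 / (r : ℝ)) • rv v) ≤ R := by
      have e1 : nr ((1 / (r : ℝ)) • rv v) = (1 / (r : ℝ)) * n1 v := by
        simp only [nr, n1, rv, Pi.smul_apply, smul_eq_mul, abs_mul]
        rw [← Finset.mul_sum, abs_of_pos (by positivity)]
      rw [e1, one_div, inv_mul_le_iff₀ hr0']
      linarith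
    obtain ⟨y, hyY, hy⟩ := hY _ hnr
    have hyc : ω ∉ up y ∪ lo y := fun hh => hcon (Set.mem_biUnion hyY hh)
    rw [Set.mem_union, not_or] at hyc
    obtain ⟨h1, h2⟩ := hyc
    rw [hup, Set.mem_setOf_eq, not_lt] at h1
    rw [hlo, Set.mem_setOf_eq, not_lt] at h2
    have h3 := ri_det (h.cf_bd ω) (subM_mm h) B (δ / (8 * B)) (δ / 2)
      (by rw [hBdef]; linarith) hκ.le r hr0 v y hy h1 h2
    have h4 : 2 * B * (δ / (8 * B)) * r = δ / 4 * r := by
      field_simp
      norm_num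
    rw [h4] at h3
    linarith
  refine (measureReal_mono hsub (measure_ne_top _ _)).trans ?_
  refine (measureReal_biUnion_finset_le _ _).trans ?_
  calc ∑ y ∈ Y, P.real (up y ∪ lo y)
      ≤ ∑ _y ∈ Y, (p / (2 * ((Y.card : ℝ) + 1)) + p / (2 * ((Y.card : ℝ) + 1))) := by
        refine Finset.sum_le_sum fun y hy => ?_
        refine (measureReal_union_le _ _).trans (add_le_add ?_ ?_)
        · apply hr1
          have := Finset.le_sup (f := r1) hy
          omega
        · apply hr2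
          have := Finset.le_sup (f := r2) hy
          omega
    _ = Y.card * (p / ((Y.card : ℝ) + 1)) := by
        rw [Finset.sum_const, nsmul_eq_mul]
        field_simp
        norm_num
    _ ≤ p := by
        rw [mul_div_assoc', div_le_iff₀ (by positivity)]
        nlinarith

end Pool.Agent.Helper79.GR
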