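import Pool.Agent.Helper79.GR.RI
import Pool.Agent.Helper79.GR.RJ
import Pool.Agent.Helper79.GR.RK
import Pool.Agent.Helper79.GR.ND
import Pool.Agent.Helper79.GR.NF

/-!
# GR-RL: the main event

Given `η`, `p` choose `κ`, `δ₁` with `4 δ₁ + 4 b κ < η`, `κ ≤ 1` (`δ = δ₁ r` in `chain`); take the
net of `exists_net` with `κ`, `K` its cardinality bound; `δ₂ = p δ₁ / (4 (K + 1) ^ 2)`: for large
`r` the hypothesis of `good_targets` holds with `δ = δ₂ r` (`tendsto_nsmul`:
`mm (r • w) - r tc + 1 ≤ small * r`), so there is `k' > k₀` with `D ≤ δ₂ r` for all `x ∈ X r`, and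
`markov_targets` with `δ' = δ₁ r` gives probability at most `K δ₂ / δ₁ ≤ p / 4`.  The target is
`z = (k' + 1) • (r • w) = ((k' + 1) * r) • w`.  Two more events: `lln_unif` with
`R = 2 + n1 w + 1` (for `T 0 x`, `T 0 (x + r • w)`; only the `x` with `n1 x ≤ 2 r` are used), and for
every `x ∈ X r`: `T x (x + r • w) ≥ r tc w - δ₁ r` outside probability `p / (4 (K + 1))`
(`identDistrib_T` and `lln_unif` or `lln_dir_lower` with `x = rv w`, `fl r (rv w) = r • w`).
On the complement `chain` gives the claim for all `q` with `n1 q = r`.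
-/

set_option autoImplicit false

namespace Pool.Agent.Helper79.GR

open MeasureTheory ProbabilityTheory

variable {Ω : Type*} [MeasurableSpace Ω] {d : ℕ} {P : Measure Ω} {X : Edge d → Ω → ℝ}
  {ν : Measure ℝ} {a b : ℝ}

private theorem RL_fl_rv {d : ℕ} (n : ℕ) (v : V d) : fl n (rv v) = n • v := by
  funext i
  simp only [fl, rv, Pi.smul_apply, nsmul_eq_mul]
  have h1 : (n : ℝ) * (v i : ℝ) = (((n : ℤ) * v i : ℤ) : ℝ) := by push_cast; ring
  rw [h1, Int.floor_intCast]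

/-- `mm (r • w) - r tc + 1` is small compared with `r` -/
private theorem RL_large (h : Env P X ν a b) (w : V d) (K : ℕ) (δ : ℝ) (hδ : 0 < δ) :
    ∃ r₀ : ℕ, ∀ r ≥ r₀, 1 ≤ r →
      K * (mm P X (r • w) - r * tc (mm P X) (rv w) + 1) < δ * r := by
  have h1 := tendsto_nsmul (subM_mm h) w
  have h2 : Filter.Tendsto (fun n : ℕ => (1 : ℝ) / n) Filter.atTop (nhds 0) :=
    tendsto_const_div_atTop_nhds_zero_nat 1
  have h3 : Filter.Tendsto (fun n : ℕ => (K : ℝ) *
      (mm P X (n • w) / n - tc (mm P X) (rv w) + 1 / n)) Filter.atTop (nhds 0) := by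
    have h4 := ((h1.sub_const (tc (mm P X) (rv w))).add h2).const_mul (K : ℝ)
    simpa using h4
  have h5 := h3.eventually (gt_mem_nhds hδ)
  obtain ⟨r₀, hr₀⟩ := Filter.eventually_atTop.1 h5
  refine ⟨r₀, fun r hr hr1 => ?_⟩
  have h6 := hr₀ r hr
  have hr' : (0 : ℝ) < r := by exact_mod_cast hr1
  have h7 : (K : ℝ) * (mm P X (r • w) - r * tc (mm P X) (rv w) + 1) =
      (K : ℝ) * (mm P X (r • w) / r - tc (mm P X) (rv w) + 1 / r) * r := by
    field_simp
  rw [h7]
  exact mul_lt_mul_of_pos_right h6 hr'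

/-- the passage time in the direction `w` from every point of a finite set -/
private theorem RL_lower (h : Env P X ν a b) (w : V d) (r : ℕ) (δ p' : ℝ)
    (A : Finset (V d))
    (hr : P.real {ω | T (cf X ω) 0 (fl r (rv w)) < r * tc (mm P X) (rv w) - δ * r} ≤ p') :
    P.real {ω | ∃ x ∈ A, T (cf X ω) x (x + r • w) < r * tc (mm P X) (rv w) - δ * r} ≤
      A.card * p' := by
  haveI := h.prob
  have e1 : {ω | ∃ x ∈ A, T (cf X ω) x (x + r • w) < r * tc (mm P X) (rv w) - δ * r} =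
      ⋃ x ∈ A, {ω | T (cf X ω) x (x + r • w) < r * tc (mm P X) (rv w) - δ * r} := by
    ext ω
    simp
  rw [e1]
  refine (measureReal_biUnion_finset_le _ _).trans ?_
  have e2 : (A.card : ℝ) * p' = ∑ _x ∈ A, p' := by rw [Finset.sum_const, nsmul_eq_mul]
  rw [e2]
  refine Finset.sum_le_sum fun x _ => ?_
  have h1 := identDistrib_T h x 0 (r • w)
  have h2 := h1.measure_mem_eq (s := Set.Iio (r * tc (mm P X) (rv w) - δ * r)) measurableSet_Iio
  rw [zero_add, add_comm (r • w) x] at h2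
  rw [RL_fl_rv] at hr
  have h3 : P.real {ω | T (cf X ω) x (x + r • w) < r * tc (mm P X) (rv w) - δ * r} =
      P.real {ω | T (cf X ω) 0 (r • w) < r * tc (mm P X) (rv w) - δ * r} :=
    congrArg ENNReal.toReal h2
  rw [h3]
  exact hr

theorem main_event (h : Env P X ν a b) (w : V d) (η p : ℝ) (hη : 0 < η) (hp : 0 < p) :
    ∃ r₀ : ℕ, ∀ r ≥ r₀, ∀ k₀ : ℕ, ∃ k > k₀, P.real {ω | ¬ ∀ q : V d, n1 q = r →
      T (cf X ω) 0 q + T (cf X ω) q (k • w) = T (cf X ω) 0 (k • w) →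
      tc (mm P X) (rv q) + r * tc (mm P X) (rv w) -
        tc (mm P X) (rv q + (r : ℝ) • rv w) < η * r} ≤ p := by
  haveI := h.prob
  obtain ⟨κ, hκ, hκ1, hκb⟩ : ∃ κ : ℝ, 0 < κ ∧ κ ≤ 1 ∧ 4 * b * κ ≤ η / 2 := by
    refine ⟨min 1 (η / (8 * (|b| + 1))), by positivity, min_le_left _ _, ?_⟩
    have h1 : min 1 (η / (8 * (|b| + 1))) ≤ η / (8 * (|b| + 1)) := min_le_right _ _
    have h2 : 0 < min 1 (η / (8 * (|b| + 1))) := by positivity
    have h3 : b ≤ |b| + 1 := (le_abs_self b).trans (by linarith)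
    have h4 : 0 < |b| + 1 := by positivity
    calc 4 * b * min 1 (η / (8 * (|b| + 1))) ≤ 4 * (|b| + 1) * min 1 (η / (8 * (|b| + 1))) := by
          gcongr
      _ ≤ 4 * (|b| + 1) * (η / (8 * (|b| + 1))) := by gcongr
      _ = η / 2 := by field_simp; norm_num
  obtain ⟨K, N, hK, r₁, hr₁⟩ := exists_net d κ hκ
  obtain ⟨δ, hδ, hδη⟩ : ∃ δ : ℝ, 0 < δ ∧ 4 * δ < η / 2 := ⟨η / 16, by positivity, by linarith⟩
  have hK1 : (0 : ℝ) < K + 1 := by positivity
  obtain ⟨p', hp', hKp⟩ : ∃ p' : ℝ, 0 < p' ∧ K * p' ≤ p / 4 := by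
    refine ⟨p / (4 * (K + 1)), by positivity, ?_⟩
    rw [mul_div_assoc', div_le_div_iff₀ (by positivity) (by positivity)]
    nlinarith
  obtain ⟨r₂, hr₂⟩ := lln_unif h (n1 w + 2) δ (p / 4)
    (by have := n1_nonneg w; linarith) hδ (by linarith)
  obtain ⟨r₃, hr₃⟩ := lln_dir_lower h (rv w) δ p' hδ hp'
  obtain ⟨r₄, hr₄⟩ := RL_large h w K (δ * p') (mul_pos hδ hp')
  refine ⟨max (max r₁ r₂) (max (max r₃ r₄) 1), fun r hr k₀ => ?_⟩
  have hrr₁ : r₁ ≤ r := (le_max_left _ _).trans ((le_max_left _ _).trans hr)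
  have hrr₂ : r₂ ≤ r := (le_max_right _ _).trans ((le_max_left _ _).trans hr)
  have hrr₃ : r₃ ≤ r :=
    (le_max_left _ _).trans ((le_max_left _ _).trans ((le_max_right _ _).trans hr))
  have hrr₄ : r₄ ≤ r :=
    (le_max_right _ _).trans ((le_max_left _ _).trans ((le_max_right _ _).trans hr))
  have hr1 : 1 ≤ r := (le_max_right _ _).trans ((le_max_right _ _).trans hr)
  have hr0 : (0 : ℝ) < r := by exact_mod_cast hr1
  have hcard : ((N r).card : ℝ) ≤ K := by exact_mod_cast hK r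
  have hnn : 0 ≤ mm P X (r • w) - r * tc (mm P X) (rv w) + 1 := by
    have := mul_tc_le (subM_mm h) w r
    linarith
  obtain ⟨k, hk, hgood⟩ := good_targets (subM_mm h) w (N r) r (δ * p' * r)
    ((mul_le_mul_of_nonneg_right hcard hnn).trans_lt (hr₄ r hrr₄ hr1)) k₀
  refine ⟨(k + 1) * r, ?_, ?_⟩
  · have : k + 1 ≤ (k + 1) * r := Nat.le_mul_of_pos_right _ hr1
    omega
  have hz : ((k + 1) * r) • w = (k + 1) • (r • w) := mul_smul _ _ _
  have E1 := markov_targets h w r k (N r) (δ * p' * r) (δ * r) (mul_pos hδ hr0) hgood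
  have E2 := hr₂ r hrr₂
  have E3 := RL_lower h w r δ p' (N r) (hr₃ r hrr₃)
  have hsub : {ω | ¬ ∀ q : V d, n1 q = r →
      T (cf X ω) 0 q + T (cf X ω) q (((k + 1) * r) • w) = T (cf X ω) 0 (((k + 1) * r) • w) →
      tc (mm P X) (rv q) + r * tc (mm P X) (rv w) -
        tc (mm P X) (rv q + (r : ℝ) • rv w) < η * r} ⊆
      ({ω | ∃ x ∈ N r, T (cf X ω) x ((k + 1) • (r • w)) <
        T (cf X ω) x (x + r • w) + T (cf X ω) (x + r • w) ((k + 1) • (r • w)) - δ * r} ∪
      {ω | ∃ v : V d, n1 v ≤ (n1 w + 2) * r ∧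
        δ * r < |T (cf X ω) 0 v - tc (mm P X) (rv v)|}) ∪
      {ω | ∃ x ∈ N r, T (cf X ω) x (x + r • w) < r * tc (mm P X) (rv w) - δ * r} := by
    intro ω hω
    by_contra hn
    simp only [Set.mem_union, Set.mem_setOf_eq, not_or, not_exists, not_and, not_lt] at hn
    obtain ⟨⟨hn1, hn2⟩, hn3⟩ := hn
    apply hω
    intro q hq hqz
    rw [hz] at hqz
    have hb : 0 ≤ b := by
      rcases isEmpty_or_nonempty (Fin d) with hd | ⟨⟨i⟩⟩
      · exfalso
        have h1 : n1 q = 0 := by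
          unfold n1
          simp
        rw [h1] at hq
        exact hr0.ne hq
      · exact (h.cf_bd ω).hi_nonneg i
    obtain ⟨x, hx, hxq⟩ := hr₁ r hrr₁ q hq.le
    have hxn : n1 x ≤ 2 * r := by
      have h1 := n1_add_le (x - q) q
      rw [sub_add_cancel, hq] at h1
      have h2 : κ * r ≤ 1 * r := mul_le_mul_of_nonneg_right hκ1 hr0.le
      linarith
    have hw0 := n1_nonneg w
    have h3 := hn2 x (by nlinarith)
    have h4 := hn2 (x + r • w) (by
      have h1 := n1_add_le x (r • w)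
      rw [n1_nsmul] at h1
      nlinarith)
    have h5 := chain (h.cf_bd ω) (tc (mm P X)) (tc_lip (subM_mm h)) w q x
      ((k + 1) • (r • w)) r (κ * r) (δ * r) hqz hxq (hn1 x hx) (hn3 x hx) h3 h4 hb
    have h6 : 4 * (δ * r) + 4 * b * (κ * r) < η * r := by
      have h7 : 4 * (δ * r) + 4 * b * (κ * r) = (4 * δ + 4 * b * κ) * r := by ring
      rw [h7]
      exact mul_lt_mul_of_pos_right (by linarith) hr0
    exact h5.trans_lt h6
  refine (measureReal_mono hsub).trans ?_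
  refine (measureReal_union_le _ _).trans ?_
  have h8 := measureReal_union_le (μ := P)
    {ω | ∃ x ∈ N r, T (cf X ω) x ((k + 1) • (r • w)) <
        T (cf X ω) x (x + r • w) + T (cf X ω) (x + r • w) ((k + 1) • (r • w)) - δ * r}
    {ω | ∃ v : V d, n1 v ≤ (n1 w + 2) * r ∧
        δ * r < |T (cf X ω) 0 v - tc (mm P X) (rv v)|}
  have h9 : ((N r).card : ℝ) * (δ * p' * r) / (δ * r) = (N r).card * p' := by
    field_simp
  rw [h9] at E1
  have h10 : ((N r).card : ℝ) * p' ≤ p / 4 :=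
    (mul_le_mul_of_nonneg_right hcard hp'.le).trans hKp
  linarith

end Pool.Agent.Helper79.GR
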